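import Pool.Agent.H69.PP.TW

/-!
Row PPE_AA (block E of MP_28250c_PP). Closed form of `a_k`, and `a_k ≤ Φ_k`.

Proofs. Let `β = exp θ + exp (-θ) - 2`, `S k = ∑_{κ ∈ Par k} fY k κ * TT θ k κ = (k+1)! a_k`, `b k = ∑_{κ ∈ Par k} (fY k κ)^2 BB θ k κ`.
* `S (k+1) = ∑ (fY)^2 WW + ∑_{κ ∈ Par (k+1)} fY (k+1) κ ∑_{j rem} TT θ k (dec κ j)`; second sum by `exch` (backwards)
  `= ∑_{ρ ∈ Par k} TT θ k ρ ∑_{i add} fY (k+1) (inc ρ i) = (k+1) S k` (`sum_add`; use `F ρ i = fY (k+1) (inc ρ i) * TT θ k ρ` and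
  `inc (dec κ j) j = κ`). First sum `= (k+1)! + β b (k+1)` (`WW_eq`, `sum_sq`).
* `b (k+1) = (k+1) b k + S k`: `sum_step` with `g μ = fY (k+1) μ * BB θ (k+1) μ`, `BB_inc`, `sum_add`. So `b k = k! ∑_{i<k} a_i`.
* `aa_rec` follows: divide by `(k+1)!`.
* `aa_closed`: by (strong) induction from `aa_zero`, `aa_rec`: `(k+2) C(k+1,q) - (k+1) C(k,q) = (q+1) C(k+1,q)`, hockey stick
  `∑_{i ≤ k} C(i,q-1) = C(k+1,q)` (`Nat.sum_range_choose_..`/`Finset.sum_range_choose_of_..`, or `Nat.sum_Icc_choose`), so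
  `β ∑_{i≤k} a_i = ∑_q β^(q+1) C(k+1,q+1)/(q+1)!` and `(q+1)/(q+1)! = 1/q!`.
* `aa_le_Phi` (`θ ≥ 0`): `κ i - i ≤ κ 0`, so `TT θ k κ ≤ exp (θ κ 0) ∑_{i add} fY (k+1) (inc κ i) = exp (θ κ 0) (k+1) fY k κ`.
-/

set_option autoImplicit false

namespace PPE
open Finset

/-- `S_k`. -/
private noncomputable def AA_S (θ : ℝ) (k : ℕ) : ℝ := ∑ κ ∈ Par k, (fY k κ : ℝ) * TT θ k κ

/-- `b_k`. -/
private noncomputable def AA_b (θ : ℝ) (k : ℕ) : ℝ := ∑ κ ∈ Par k, (fY k κ : ℝ) ^ 2 * BB θ k κ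

private theorem AA_S_eq (θ : ℝ) (k : ℕ) : AA_S θ k = (k + 1).factorial * aa θ k := by
  have h : ((k + 1).factorial : ℝ) ≠ 0 := by exact_mod_cast Nat.factorial_ne_zero _
  unfold aa
  rw [mul_div_cancel₀ _ h]
  rfl

private theorem AA_b_succ (θ : ℝ) (k : ℕ) : AA_b θ (k + 1) = (k + 1) * AA_b θ k + AA_S θ k := by
  have h1 : AA_b θ (k + 1) = ∑ μ ∈ Par (k + 1), (fY (k + 1) μ : ℝ) * ((fY (k + 1) μ : ℝ) * BB θ (k + 1) μ) := by
    unfold AA_b
    refine sum_congr rfl fun μ _ => ?_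
    ring
  rw [h1, sum_step k (fun μ => (fY (k + 1) μ : ℝ) * BB θ (k + 1) μ)]
  unfold AA_b AA_S
  rw [mul_sum, ← sum_add_distrib]
  refine sum_congr rfl fun κ hκ => ?_
  have h2 : ∑ i ∈ addS k κ, (fY (k + 1) (inc κ i) : ℝ) * BB θ (k + 1) (inc κ i) =
      BB θ k κ * ∑ i ∈ addS k κ, (fY (k + 1) (inc κ i) : ℝ) + TT θ k κ := by
    unfold TT
    rw [mul_sum, ← sum_add_distrib]
    refine sum_congr rfl fun i hi => ?_
    rw [BB_inc θ hκ hi]
    ring
  rw [h2, sum_add hκ]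
  ring

private theorem AA_b_zero (θ : ℝ) : AA_b θ 0 = 0 := by
  unfold AA_b BB
  simp

private theorem AA_b_eq (θ : ℝ) (k : ℕ) : AA_b θ k = k.factorial * ∑ i ∈ range k, aa θ i := by
  induction k with
  | zero => rw [AA_b_zero]; simp
  | succ k ih =>
    rw [AA_b_succ, ih, AA_S_eq, sum_range_succ, Nat.factorial_succ]
    push_cast
    ring

private theorem AA_S_succ (θ : ℝ) (k : ℕ) :
    AA_S θ (k + 1) = (k + 1).factorial + (Real.exp θ + Real.exp (-θ) - 2) * AA_b θ (k + 1) + (k + 1) * AA_S θ k := by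
  have h1 : AA_S θ (k + 1) = ∑ κ ∈ Par (k + 1), (fY (k + 1) κ : ℝ) ^ 2 * WW θ (k + 1) κ +
      ∑ κ ∈ Par (k + 1), ∑ j ∈ remS (k + 1) κ, (fY (k + 1) κ : ℝ) * TT θ k (dec κ j) := by
    unfold AA_S
    rw [← sum_add_distrib]
    refine sum_congr rfl fun κ hκ => ?_
    rw [TT_succ θ hκ, mul_add, mul_sum]
    ring
  have h2 : ∑ κ ∈ Par (k + 1), (fY (k + 1) κ : ℝ) ^ 2 * WW θ (k + 1) κ =
      (k + 1).factorial + (Real.exp θ + Real.exp (-θ) - 2) * AA_b θ (k + 1) := by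
    have h3 : ∑ κ ∈ Par (k + 1), (fY (k + 1) κ : ℝ) ^ 2 * WW θ (k + 1) κ =
        ∑ κ ∈ Par (k + 1), ((fY (k + 1) κ : ℝ) ^ 2 +
          (Real.exp θ + Real.exp (-θ) - 2) * ((fY (k + 1) κ : ℝ) ^ 2 * BB θ (k + 1) κ)) := by
      refine sum_congr rfl fun κ hκ => ?_
      rw [WW_eq θ hκ]
      ring
    rw [h3, sum_add_distrib, sum_sq, ← mul_sum]
    rfl
  have h4 : ∑ κ ∈ Par (k + 1), ∑ j ∈ remS (k + 1) κ, (fY (k + 1) κ : ℝ) * TT θ k (dec κ j) =
      (k + 1) * AA_S θ k := by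
    have h5 := exch k (fun ρ i => (fY (k + 1) (inc ρ i) : ℝ) * TT θ k ρ)
    have h6 : ∑ κ ∈ Par (k + 1), ∑ j ∈ remS (k + 1) κ, (fY (k + 1) κ : ℝ) * TT θ k (dec κ j) =
        ∑ μ ∈ Par (k + 1), ∑ i ∈ remS (k + 1) μ, (fY (k + 1) (inc (dec μ i) i) : ℝ) * TT θ k (dec μ i) := by
      refine sum_congr rfl fun μ hμ => sum_congr rfl fun i hi => ?_
      have : 0 < μ i := by
        have := (mem_filter.mp hi).2
        omega
      rw [inc_dec this]
    rw [h6, ← h5]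
    unfold AA_S
    rw [mul_sum]
    refine sum_congr rfl fun κ hκ => ?_
    rw [← sum_mul, sum_add hκ]
    ring
  rw [h1, h2, h4]

theorem aa_zero (θ : ℝ) : aa θ 0 = 1 := by
  unfold aa
  rw [Par_zero]
  simp [TT_zero, fY]

theorem aa_rec (θ : ℝ) (k : ℕ) :
    ((k : ℝ) + 2) * aa θ (k + 1) =
      1 + (Real.exp θ + Real.exp (-θ) - 2) * ∑ i ∈ range (k + 1), aa θ i + (k + 1) * aa θ k := by
  have h1 := AA_S_succ θ k
  rw [AA_S_eq, AA_S_eq, AA_b_eq] at h1
  have hf : ((k + 1).factorial : ℝ) ≠ 0 := by exact_mod_cast Nat.factorial_ne_zero _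
  have h2 : ((k + 1 + 1).factorial : ℝ) = ((k : ℝ) + 2) * (k + 1).factorial := by
    rw [Nat.factorial_succ (k + 1)]
    push_cast
    ring
  rw [h2] at h1
  apply mul_left_cancel₀ hf
  linear_combination h1

private theorem AA_choose (k q : ℕ) :
    ((k : ℝ) + 2) * ((k + 1).choose q : ℝ) - (k + 1) * (k.choose q : ℝ) = (q + 1) * ((k + 1).choose q : ℝ) := by
  rcases Nat.lt_or_ge (k + 1) q with h | h
  · rw [Nat.choose_eq_zero_of_lt h, Nat.choose_eq_zero_of_lt (show k < q by omega)]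
    simp
  · have h1 : (k.choose q : ℝ) * ((k : ℝ) + 1) = ((k + 1).choose q : ℝ) * ((k : ℝ) + 1 - q) := by
      have h2 := congrArg (fun x : ℕ => (x : ℝ)) (Nat.choose_mul_succ_eq k q)
      simp only [Nat.cast_mul] at h2
      rw [Nat.cast_sub h] at h2
      push_cast at h2
      exact h2
    linear_combination -h1

private theorem AA_hockey (k q : ℕ) : ∑ i ∈ range (k + 1), (i.choose q : ℝ) = ((k + 1).choose (q + 1) : ℝ) := by
  induction k with
  | zero =>
    rcases q with _ | q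
    · simp
    · rw [Nat.choose_eq_zero_of_lt (show 0 + 1 < q + 1 + 1 by omega)]
      simp
  | succ k ih =>
    rw [sum_range_succ, ih, Nat.choose_succ_succ (k + 1) q]
    push_cast
    ring

private theorem AA_closed_aux (θ : ℝ) (N : ℕ) : ∀ k : ℕ, k ≤ N →
    aa θ k = ∑ q ∈ range (N + 1), (Real.exp θ + Real.exp (-θ) - 2) ^ q * (k.choose q : ℝ) / (q + 1).factorial := by
  intro k
  induction k using Nat.strong_induction_on with
  | _ k ih =>
    intro hk
    rcases k with _ | k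
    · rw [aa_zero, sum_range_succ']
      simp
    · have h1 := aa_rec θ k
      set β := Real.exp θ + Real.exp (-θ) - 2 with hβ
      have h2 : ∑ i ∈ range (k + 1), aa θ i =
          ∑ q ∈ range (N + 1), β ^ q * ((k + 1).choose (q + 1) : ℝ) / (q + 1).factorial := by
        have h3 : ∑ i ∈ range (k + 1), aa θ i =
            ∑ i ∈ range (k + 1), ∑ q ∈ range (N + 1), β ^ q * (i.choose q : ℝ) / (q + 1).factorial := by
          refine sum_congr rfl fun i hi => ?_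
          exact ih i (mem_range.mp hi) (by have := mem_range.mp hi; omega)
        rw [h3, sum_comm]
        refine sum_congr rfl fun q _ => ?_
        rw [← AA_hockey, mul_sum, sum_div]
      have h4 : 1 + β * ∑ i ∈ range (k + 1), aa θ i =
          ∑ q ∈ range (N + 1), β ^ q * ((k + 1).choose q : ℝ) / q.factorial := by
        rw [h2, mul_sum]
        have h5 : ∑ q ∈ range (N + 1), β * (β ^ q * ((k + 1).choose (q + 1) : ℝ) / (q + 1).factorial) =
            ∑ q ∈ range N, β ^ (q + 1) * ((k + 1).choose (q + 1) : ℝ) / (q + 1).factorial := by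
          rw [sum_range_succ, Nat.choose_eq_zero_of_lt (show k + 1 < N + 1 by omega)]
          simp only [Nat.cast_zero, mul_zero, zero_div, add_zero]
          refine sum_congr rfl fun q _ => ?_
          ring
        rw [h5, sum_range_succ' (fun q => β ^ q * ((k + 1).choose q : ℝ) / q.factorial) N]
        simp
        ring
      have h6 := ih k (by omega) (by omega)
      have h7 : ((k : ℝ) + 2) * aa θ (k + 1) = ∑ q ∈ range (N + 1),
          (((k : ℝ) + 2) * (β ^ q * ((k + 1).choose q : ℝ) / (q + 1).factorial)) := by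
        rw [h1, h4, h6, mul_sum, ← sum_add_distrib]
        refine sum_congr rfl fun q _ => ?_
        have h8 := AA_choose k q
        have h9 : ((q + 1).factorial : ℝ) = ((q : ℝ) + 1) * q.factorial := by
          rw [Nat.factorial_succ]; push_cast; ring
        have h10 : (q.factorial : ℝ) ≠ 0 := by exact_mod_cast Nat.factorial_ne_zero _
        have h11 : ((q : ℝ) + 1) ≠ 0 := by positivity
        rw [h9]
        field_simp
        linear_combination (-(β ^ q)) * h8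
      rw [← mul_sum] at h7
      exact mul_left_cancel₀ (by positivity) h7

theorem aa_closed (θ : ℝ) (k : ℕ) :
    aa θ k = ∑ q ∈ range (k + 1), (Real.exp θ + Real.exp (-θ) - 2) ^ q * (k.choose q : ℝ) / (q + 1).factorial :=
  AA_closed_aux θ k k le_rfl

theorem aa_le_Phi {θ : ℝ} (hθ : 0 ≤ θ) (k : ℕ) : aa θ k ≤ Phi θ k := by
  unfold aa Phi
  have hf : (0 : ℝ) < k.factorial := by exact_mod_cast Nat.factorial_pos _
  have hf2 : ((k + 1).factorial : ℝ) = ((k : ℝ) + 1) * k.factorial := by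
    rw [Nat.factorial_succ]; push_cast; ring
  have hk : (0 : ℝ) < (k : ℝ) + 1 := by positivity
  rw [hf2, div_le_div_iff₀ (by positivity) hf]
  have h1 : ∑ κ ∈ Par k, (fY k κ : ℝ) * TT θ k κ ≤
      ((k : ℝ) + 1) * ∑ κ ∈ Par k, (fY k κ : ℝ) ^ 2 * Real.exp (θ * κ 0) := by
    rw [mul_sum]
    refine sum_le_sum fun κ hκ => ?_
    have h2 : TT θ k κ ≤ Real.exp (θ * κ 0) * (((k : ℝ) + 1) * fY k κ) := by
      rw [← sum_add hκ, mul_sum]
      unfold TT
      refine sum_le_sum fun i _ => ?_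
      refine mul_le_mul_of_nonneg_right ?_ (Nat.cast_nonneg _)
      unfold ps
      apply Real.exp_le_exp.mpr
      apply mul_le_mul_of_nonneg_left _ hθ
      have h3 : κ i ≤ κ 0 := (mem_Par.mp hκ).1 (Nat.zero_le i)
      have h4 : (κ i : ℝ) ≤ κ 0 := by exact_mod_cast h3
      have h5 : (0 : ℝ) ≤ i := Nat.cast_nonneg _
      linarith
    calc (fY k κ : ℝ) * TT θ k κ ≤ (fY k κ : ℝ) * (Real.exp (θ * κ 0) * (((k : ℝ) + 1) * fY k κ)) :=
          mul_le_mul_of_nonneg_left h2 (Nat.cast_nonneg _)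
      _ = _ := by ring
  calc (∑ κ ∈ Par k, (fY k κ : ℝ) * TT θ k κ) * k.factorial ≤
      (((k : ℝ) + 1) * ∑ κ ∈ Par k, (fY k κ : ℝ) ^ 2 * Real.exp (θ * κ 0)) * k.factorial :=
        mul_le_mul_of_nonneg_right h1 hf.le
    _ = _ := by ring

end PPE
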