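import Pool.Agent.H69.PP.AA

/-!
Row PPE_AL (block E of MP_28250c_PP). Lower bound for `Φ_k` (one real variable).

Let `σ = sinh (θ/2)`, `β = exp θ + exp (-θ) - 2 = 4 σ^2` (`Real.cosh_sq`-type identity: `cosh θ = 1 + 2 sinh^2 (θ/2)`), `x = 2 σ √k ≥ 1`,
so `x^2 = β k`.
Proof of `phi_lower`: `q := ⌊x⌋₊ ≥ 1`, `q ≤ x`, `q^2 ≤ x^2 = 4 σ^2 k ≤ (4/9) k ≤ k/2`, in particular `q ≤ k`.
* One term of `aa_closed`: `a_k ≥ β^q C(k,q)/(q+1)!` (all terms are `≥ 0`).
* `C(k,q) ≥ k^q/(2 q!)`: `q! C(k,q) = k (k-1) .. (k-q+1) ≥ (k - q)^q ≥ k^q (1 - q^2/k) ≥ k^q/2` (Bernoulli: `one_add_mul_le_pow`;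
  `Nat.descFactorial`, `Nat.pow_sub_le_descFactorial`).
* so `a_k ≥ x^(2q)/(2 (q!)^2 (q+1))`.
* `fact_le`: `q! ≤ exp 1 * q * (q/exp 1)^q` for `q ≥ 1`: induction, `(1 + 1/q)^(q+1) ≥ exp 1`
  (`Real.log_le_sub_one_of_pos` applied to `q/(q+1)`: `log ((q+1)/q) ≥ 1/(q+1)`).
* `x^q/q! ≥ q^q exp q/(exp 1 * q * q^q) = exp (q-1)/q ≥ exp (x-2)/x` (`q > x - 1`, `q ≤ x`).
* hence `Φ_k ≥ a_k ≥ exp (2x-4)/(2 x^2 (x+1))`.
* `x ≤ √k` (`σ ≤ 1/2`), `x + 1 ≤ 2 √k`, so `log (2 x^2 (x+1)) ≤ log 4 + (3/2) log k`; `4 + log 4 ≤ (5/2) log k` for `k ≥ 9`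
  (`log 9 ≥ 2.19`). So `log Φ_k ≥ 2x - 4 log k = 4 σ √k - 4 log k`.
-/

set_option autoImplicit false

namespace PPE
open Finset

private theorem AL_step (q : ℕ) (hq : 1 ≤ q) :
    Real.exp 1 * (q : ℝ) ^ (q + 1) ≤ ((q : ℝ) + 1) ^ (q + 1) := by
  have hq0 : (0 : ℝ) < q := by exact_mod_cast hq
  have h1 : Real.exp 1 * ((q : ℝ) / (q + 1)) ^ (q + 1) ≤ 1 := by
    have h2 : (q : ℝ) / (q + 1) ≤ Real.exp (-(1 / ((q : ℝ) + 1))) := by
      have h3 := Real.add_one_le_exp (-(1 / ((q : ℝ) + 1)))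
      have h4 : (q : ℝ) / (q + 1) = -(1 / ((q : ℝ) + 1)) + 1 := by field_simp; ring
      rw [h4]; exact h3
    have h5 : ((q : ℝ) / (q + 1)) ^ (q + 1) ≤ Real.exp (-(1 / ((q : ℝ) + 1))) ^ (q + 1) :=
      pow_le_pow_left₀ (by positivity) h2 _
    have h6 : Real.exp (-(1 / ((q : ℝ) + 1))) ^ (q + 1) = Real.exp (-1) := by
      rw [← Real.exp_nat_mul]
      congr 1
      push_cast
      field_simp
    rw [h6] at h5
    calc Real.exp 1 * ((q : ℝ) / (q + 1)) ^ (q + 1) ≤ Real.exp 1 * Real.exp (-1) := by gcongr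
      _ = 1 := by rw [← Real.exp_add]; simp
  rw [div_pow] at h1
  have h7 : (0 : ℝ) < ((q : ℝ) + 1) ^ (q + 1) := by positivity
  rw [← mul_div_assoc, div_le_one h7] at h1
  exact h1

theorem fact_le (q : ℕ) (hq : 1 ≤ q) : (q.factorial : ℝ) ≤ Real.exp 1 * q * ((q : ℝ) / Real.exp 1) ^ q := by
  have he : (0 : ℝ) < Real.exp 1 := Real.exp_pos 1
  induction q, hq using Nat.le_induction with
  | base =>
    simp
  | succ q hq ih =>
    have hq0 : (0 : ℝ) < q := by exact_mod_cast hq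
    have hs := AL_step q hq
    rw [Nat.factorial_succ]
    push_cast
    have h1 : ((q : ℝ) + 1) * (q.factorial : ℝ) ≤ ((q : ℝ) + 1) * (Real.exp 1 * q * ((q : ℝ) / Real.exp 1) ^ q) := by
      gcongr
    refine h1.trans ?_
    rw [div_pow, div_pow]
    have h2 : ((q : ℝ) + 1) * (Real.exp 1 * q * ((q : ℝ) ^ q / Real.exp 1 ^ q)) =
        ((q : ℝ) + 1) * (Real.exp 1 * (q : ℝ) ^ (q + 1)) / Real.exp 1 ^ q := by
      rw [pow_succ]; ring
    have h3 : Real.exp 1 * ((q : ℝ) + 1) * (((q : ℝ) + 1) ^ (q + 1) / Real.exp 1 ^ (q + 1)) =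
        ((q : ℝ) + 1) * (((q : ℝ) + 1) ^ (q + 1)) / Real.exp 1 ^ q := by
      rw [pow_succ (Real.exp 1)]; field_simp
    rw [h2, h3]
    gcongr

private theorem AL_beta (θ : ℝ) : Real.exp θ + Real.exp (-θ) - 2 = 4 * Real.sinh (θ / 2) ^ 2 := by
  rw [Real.sinh_eq]
  have h1 : Real.exp θ = Real.exp (θ / 2) ^ 2 := by
    rw [← Real.exp_nat_mul]; congr 1; push_cast; ring
  have h2 : Real.exp (-θ) = Real.exp (-(θ / 2)) ^ 2 := by
    rw [← Real.exp_nat_mul]; congr 1; push_cast; ring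
  have h3 : Real.exp (θ / 2) * Real.exp (-(θ / 2)) = 1 := by
    rw [← Real.exp_add]; simp
  rw [h1, h2]
  linear_combination 2 * h3

private theorem AL_choose {k q : ℕ} (hk : 1 ≤ k) (hq : (q : ℝ) ^ 2 ≤ k / 2) :
    (k : ℝ) ^ q ≤ 2 * (q.factorial : ℝ) * (k.choose q : ℝ) := by
  have hk0 : (0 : ℝ) < k := by exact_mod_cast hk
  have hqk : q ≤ k := by
    have : (q : ℝ) ≤ k := by
      rcases Nat.eq_zero_or_pos q with h | h
      · subst h; simp
      · have h1 : (1 : ℝ) ≤ q := by exact_mod_cast h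
        nlinarith
    exact_mod_cast this
  have h1 := Nat.pow_sub_le_descFactorial k q
  rw [Nat.descFactorial_eq_factorial_mul_choose] at h1
  have h2 : ((k : ℝ) - q) ^ q ≤ (q.factorial : ℝ) * (k.choose q : ℝ) := by
    have h3 : (((k + 1 - q) ^ q : ℕ) : ℝ) ≤ ((q.factorial * k.choose q : ℕ) : ℝ) := by exact_mod_cast h1
    push_cast at h3
    refine le_trans ?_ h3
    apply pow_le_pow_left₀
    · have : (q : ℝ) ≤ k := by exact_mod_cast hqk
      linarith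
    · rw [Nat.cast_sub (by omega)]
      push_cast; linarith
  have h4 : 1 + (q : ℝ) * (-((q : ℝ) / k)) ≤ (1 + -((q : ℝ) / k)) ^ q := by
    apply one_add_mul_le_pow
    have : (q : ℝ) / k ≤ 1 := by
      rw [div_le_one hk0]; exact_mod_cast hqk
    linarith
  have h5 : (1 : ℝ) / 2 ≤ 1 + (q : ℝ) * (-((q : ℝ) / k)) := by
    have : (q : ℝ) * ((q : ℝ) / k) ≤ 1 / 2 := by
      rw [← mul_div_assoc, div_le_iff₀ hk0]
      nlinarith
    linarith
  have h6 : ((k : ℝ) - q) ^ q = (k : ℝ) ^ q * (1 + -((q : ℝ) / k)) ^ q := by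
    rw [← mul_pow]
    congr 1
    field_simp
    ring
  have h7 : (k : ℝ) ^ q * (1 / 2) ≤ ((k : ℝ) - q) ^ q := by
    rw [h6]
    gcongr
    exact h5.trans h4
  linarith

theorem phi_lower {θ : ℝ} (hθ : 0 < θ) (hσ : Real.sinh (θ / 2) ≤ 1 / 3) {k : ℕ} (hk : 9 ≤ k)
    (hx : 1 ≤ 2 * Real.sinh (θ / 2) * Real.sqrt k) :
    4 * Real.sinh (θ / 2) * Real.sqrt k - 4 * Real.log k ≤ Real.log (Phi θ k) := by
  have he : (0 : ℝ) < Real.exp 1 := Real.exp_pos 1
  set σ := Real.sinh (θ / 2) with hσdef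
  have hσ0 : 0 < σ := by rw [hσdef]; exact Real.sinh_pos_iff.mpr (by linarith)
  have hk9 : (9 : ℝ) ≤ k := by exact_mod_cast hk
  have hk0 : (0 : ℝ) < k := by linarith
  have hsq : Real.sqrt k ^ 2 = k := Real.sq_sqrt hk0.le
  have hsq3 : 3 ≤ Real.sqrt k := by
    rw [show (3 : ℝ) = Real.sqrt 9 by rw [show (9 : ℝ) = 3 ^ 2 by norm_num]; rw [Real.sqrt_sq (by norm_num)]]
    exact Real.sqrt_le_sqrt hk9
  set x := 2 * σ * Real.sqrt k with hxdef
  set β := Real.exp θ + Real.exp (-θ) - 2 with hβdef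
  have hβ : β = 4 * σ ^ 2 := AL_beta θ
  have hx0 : 0 < x := by linarith
  have hx2 : x ^ 2 = β * k := by
    rw [hβ, hxdef, mul_pow, mul_pow, hsq]; ring
  have hβ0 : 0 < β := by rw [hβ]; positivity
  have hx49 : x ^ 2 ≤ 4 / 9 * k := by
    rw [hx2, hβ]
    have : σ ^ 2 ≤ (1 / 3) ^ 2 := pow_le_pow_left₀ hσ0.le hσ 2
    nlinarith
  set q := ⌊x⌋₊ with hqdef
  have hqx : (q : ℝ) ≤ x := Nat.floor_le hx0.le
  have hxq : x < q + 1 := Nat.lt_floor_add_one x
  have hq1 : 1 ≤ q := by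
    rw [hqdef]; exact Nat.le_floor (by simpa using hx)
  have hq0 : (0 : ℝ) < q := by exact_mod_cast hq1
  have hq2 : (q : ℝ) ^ 2 ≤ k / 2 := by
    have : (q : ℝ) ^ 2 ≤ x ^ 2 := pow_le_pow_left₀ hq0.le hqx 2
    linarith
  have hqk : q ≤ k := by
    have : (q : ℝ) ≤ k := by
      have h1 : (1 : ℝ) ≤ q := by exact_mod_cast hq1
      nlinarith
    exact_mod_cast this
  -- one term of the closed form
  have hterm : β ^ q * (k.choose q : ℝ) / (q + 1).factorial ≤ aa θ k := by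
    rw [aa_closed]
    have : β ^ q * (k.choose q : ℝ) / (q + 1).factorial =
        (fun q : ℕ => (Real.exp θ + Real.exp (-θ) - 2) ^ q * (k.choose q : ℝ) / (q + 1).factorial) q := rfl
    rw [this]
    refine Finset.single_le_sum (f := fun q : ℕ => (Real.exp θ + Real.exp (-θ) - 2) ^ q * (k.choose q : ℝ) /
      (q + 1).factorial) ?_ (Finset.mem_range.mpr (by omega))
    intro i _
    have : 0 ≤ Real.exp θ + Real.exp (-θ) - 2 := hβ0.le
    positivity
  have hch := AL_choose (k := k) (q := q) (by omega) hq2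
  have hfp : (0 : ℝ) < q.factorial := by exact_mod_cast Nat.factorial_pos q
  -- a_k ≥ x^(2q) / (2 (q!)^2 (q+1))
  have ha1 : (x ^ q / q.factorial) ^ 2 / (2 * ((q : ℝ) + 1)) ≤ aa θ k := by
    refine le_trans ?_ hterm
    rw [Nat.factorial_succ]
    push_cast
    rw [div_pow, ← pow_mul, mul_comm q 2, pow_mul, hx2, mul_pow, div_div, div_le_div_iff₀ (by positivity) (by positivity)]
    have h1 : β ^ q * (k : ℝ) ^ q * (((q : ℝ) + 1) * (q.factorial : ℝ)) ≤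
        β ^ q * (2 * (q.factorial : ℝ) * (k.choose q : ℝ)) * (((q : ℝ) + 1) * (q.factorial : ℝ)) := by
      gcongr
    refine h1.trans (le_of_eq ?_)
    ring
  -- x^q/q! ≥ exp (x-2)/x
  have ha2 : Real.exp (x - 2) / x ≤ x ^ q / q.factorial := by
    have h1 := fact_le q hq1
    have h2 : x ^ q / (Real.exp 1 * q * ((q : ℝ) / Real.exp 1) ^ q) ≤ x ^ q / q.factorial := by
      gcongr
    refine le_trans ?_ h2
    have h3 : (q : ℝ) ^ q / (Real.exp 1 * q * ((q : ℝ) / Real.exp 1) ^ q) ≤ x ^ q / (Real.exp 1 * q * ((q : ℝ) / Real.exp 1) ^ q) := by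
      gcongr
    refine le_trans ?_ h3
    have h4 : (q : ℝ) ^ q / (Real.exp 1 * q * ((q : ℝ) / Real.exp 1) ^ q) = Real.exp ((q : ℝ) - 1) / q := by
      have h5 : Real.exp ((q : ℝ) - 1) = Real.exp 1 ^ q / Real.exp 1 := by
        rw [Real.exp_sub, ← Real.exp_nat_mul]; simp
      rw [h5, div_pow]
      field_simp
    rw [h4]
    have h6 : Real.exp (x - 2) ≤ Real.exp ((q : ℝ) - 1) := Real.exp_le_exp.mpr (by linarith)
    gcongr
  have ha3 : (Real.exp (x - 2) / x) ^ 2 / (2 * (x + 1)) ≤ aa θ k := by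
    refine le_trans ?_ ha1
    have : 0 ≤ Real.exp (x - 2) / x := by positivity
    gcongr
  have hpos : 0 < (Real.exp (x - 2) / x) ^ 2 / (2 * (x + 1)) := by positivity
  have ha4 : (Real.exp (x - 2) / x) ^ 2 / (2 * (x + 1)) ≤ Phi θ k := ha3.trans (aa_le_Phi hθ.le k)
  have hlog := Real.log_le_log hpos ha4
  have hden : 2 * (x + 1) * x ^ 2 ≤ Real.sqrt k ^ 3 := by
    have h1 : x ≤ 2 / 3 * Real.sqrt k := by
      rw [hxdef]
      have : 0 ≤ Real.sqrt k := Real.sqrt_nonneg _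
      nlinarith
    have h2 : x + 1 ≤ Real.sqrt k := by linarith
    calc 2 * (x + 1) * x ^ 2 ≤ 2 * Real.sqrt k * (4 / 9 * k) := by gcongr
      _ = (8 / 9) * (Real.sqrt k * k) := by ring
      _ ≤ Real.sqrt k * k := by
        have : 0 ≤ Real.sqrt k * k := by positivity
        linarith
      _ = Real.sqrt k ^ 3 := by rw [pow_succ, hsq]; ring
  have hl2 : Real.log ((Real.exp (x - 2) / x) ^ 2 / (2 * (x + 1))) =
      2 * (x - 2) - Real.log (2 * (x + 1) * x ^ 2) := by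
    have h1 : (Real.exp (x - 2) / x) ^ 2 / (2 * (x + 1)) = Real.exp (x - 2) ^ 2 / (2 * (x + 1) * x ^ 2) := by
      field_simp
    rw [h1, Real.log_div (by positivity) (by positivity), Real.log_pow, Real.log_exp]
    push_cast; ring
  have hl3 : Real.log (2 * (x + 1) * x ^ 2) ≤ 3 / 2 * Real.log k := by
    have h1 := Real.log_le_log (by positivity) hden
    rw [Real.log_pow, Real.log_sqrt hk0.le] at h1
    push_cast at h1
    linarith
  have hlog9 : 2 ≤ Real.log k := by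
    have h1 : Real.log 9 ≤ Real.log k := Real.log_le_log (by norm_num) hk9
    have h2 : (2 : ℝ) ≤ Real.log 9 := by
      rw [Real.le_log_iff_exp_le (by norm_num)]
      have h3 : Real.exp 2 = Real.exp 1 ^ 2 := by
        rw [← Real.exp_nat_mul]; norm_num
      have h4 := Real.exp_one_lt_d9
      rw [h3]
      nlinarith
    linarith
  have hfin : 4 * σ * Real.sqrt k = 2 * x := by rw [hxdef]; ring
  rw [hfin]
  rw [hl2] at hlog
  linarith

end PPE
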