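import Pool.Agent.H69.PP.LA
import Pool.Agent.H94.PP.Defs

/-!
Row PPE_BW (block E of MP_28250c_PP). Ballot words and partitions: `cnt (n+s) n S = cY n s S`.

Proofs.
* `ctt_par`: the content of a ballot word of length `N` is a partition of `N` (antitone: prefix `v = N`; the values are `< N`: if `w u = i`
  then `ctt w 0 ≥ .. ≥ ctt w i ≥ 1`, so `N ≥ i + 1`; the contents sum to `N`: `Finset.card_eq_sum_card_fiberwise`).
* `ncard_ballot`: for `κ ∈ Par N` the set `{w : Fin N → ℕ | Ballot w ∧ ctt w = κ}` is finite with `fY N κ` elements. Induction on `N`: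
  `w : Fin (N+1) → ℕ` is ballot iff `Fin.init w` is ballot and `ctt w` is antitone (the prefixes `v ≤ N` of `w` are those of `Fin.init w`, for
  `v ≥ N+1` the prefix is everything); `ctt w = inc (ctt (Fin.init w)) (w (Fin.last N))`. So for `κ ∈ Par (N+1)` the set is the disjoint
  union over `i ∈ remS (N+1) κ` (the last letter `i`; `dec κ i` must be a partition, i.e. `κ (i+1) < κ i`) of the images of the sets for
  `dec κ i` under `w' ↦ Fin.snoc w' i`.
* `cnt_eq`: `bset (n+s) n S` is the disjoint union over `κ ∈ Par n` with `S (κ 0) (κ 1)` of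
  `{P ballot, ctt P = sh κ s} × {Q ballot, ctt Q = κ}`: `Pr P Q` and `∑ ctt P = n + s`, `∑ ctt Q = n` give `ctt P 0 = ctt Q 0 + s`.
-/

set_option autoImplicit false

namespace PPE
open Finset

private theorem BW_sum_le {N : ℕ} (w : Fin N → ℕ) (M : ℕ) : ∑ i ∈ range M, PPh.ctt w i ≤ N := by
  have h : ∑ i ∈ range M, PPh.ctt w i = (univ.filter fun u : Fin N => w u ∈ range M).card :=
    Finset.sum_card_fiberwise_eq_card_filter (s := (univ : Finset (Fin N))) (t := range M) (g := w)
  rw [h]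
  exact (card_filter_le _ _).trans (by simp)

private theorem BW_pref {N v : ℕ} (w : Fin N → ℕ) (hv : N ≤ v) (j : ℕ) :
    (univ.filter fun u : Fin N => (u : ℕ) < v ∧ w u = j).card = PPh.ctt w j := by
  unfold PPh.ctt
  congr 1
  ext u
  have := u.2
  simp only [mem_filter, mem_univ, true_and]
  constructor
  · exact fun h => h.2
  · exact fun h => ⟨by omega, h⟩

private theorem BW_anti {N : ℕ} {w : Fin N → ℕ} (hw : PPh.Ballot w) : Antitone (PPh.ctt w) := by
  refine antitone_nat_of_succ_le fun i => ?_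
  have h := hw N i
  rwa [BW_pref w le_rfl, BW_pref w le_rfl] at h

private theorem BW_zero {N : ℕ} {w : Fin N → ℕ} (hw : PPh.Ballot w) {i : ℕ} (hi : N ≤ i) : PPh.ctt w i = 0 := by
  by_contra h
  have h1 : ∀ j ∈ range (i + 1), 1 ≤ PPh.ctt w j := by
    intro j hj
    have := BW_anti hw (Nat.lt_succ_iff.mp (mem_range.mp hj))
    omega
  have h2 : ∑ j ∈ range (i + 1), 1 ≤ ∑ j ∈ range (i + 1), PPh.ctt w j := sum_le_sum h1
  have h3 := BW_sum_le w (i + 1)
  rw [sum_const, card_range, smul_eq_mul, mul_one] at h2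
  omega

private theorem BW_sum {N : ℕ} {w : Fin N → ℕ} (hw : PPh.Ballot w) {M : ℕ} (hM : N ≤ M) :
    ∑ i ∈ range M, PPh.ctt w i = N := by
  have h : ∑ i ∈ range M, PPh.ctt w i = (univ.filter fun u : Fin N => w u ∈ range M).card :=
    Finset.sum_card_fiberwise_eq_card_filter (s := (univ : Finset (Fin N))) (t := range M) (g := w)
  rw [h, filter_true_of_mem, card_univ, Fintype.card_fin]
  intro u _
  rw [mem_range]
  by_contra hu
  have h0 := BW_zero hw (i := w u) (by omega)
  unfold PPh.ctt at h0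
  rw [card_eq_zero] at h0
  have : u ∈ (univ.filter fun u' => w u' = w u) := by simp
  rw [h0] at this
  simp at this

theorem ctt_par {N : ℕ} {w : Fin N → ℕ} (hw : PPh.Ballot w) : PPh.ctt w ∈ Par N :=
  mem_Par.mpr ⟨BW_anti hw, fun _ hi => BW_zero hw hi, BW_sum hw le_rfl⟩

private theorem BW_snoc_pref {N : ℕ} (w : Fin N → ℕ) (i j v : ℕ) :
    (univ.filter fun u : Fin (N + 1) => (u : ℕ) < v ∧ (Fin.snoc w i : Fin (N + 1) → ℕ) u = j).card =
      (univ.filter fun u : Fin N => (u : ℕ) < v ∧ w u = j).card + if N < v ∧ i = j then 1 else 0 := by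
  rw [card_filter, card_filter, Fin.sum_univ_castSucc]
  simp only [Fin.snoc_castSucc, Fin.snoc_last, Fin.val_castSucc, Fin.val_last]

private theorem BW_snoc_ctt {N : ℕ} (w : Fin N → ℕ) (i j : ℕ) :
    PPh.ctt (Fin.snoc w i : Fin (N + 1) → ℕ) j = PPh.ctt w j + if i = j then 1 else 0 := by
  have h := BW_snoc_pref w i j (N + 1)
  rw [BW_pref _ le_rfl, BW_pref w (Nat.le_succ N)] at h
  rw [h]
  simp

private theorem BW_snoc_ctt' {N : ℕ} (w : Fin N → ℕ) (i : ℕ) :
    PPh.ctt (Fin.snoc w i : Fin (N + 1) → ℕ) = inc (PPh.ctt w) i := by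
  funext j
  rw [BW_snoc_ctt]
  unfold inc
  rcases eq_or_ne i j with h | h
  · subst h
    simp
  · rw [if_neg h, Function.update_of_ne (Ne.symm h), add_zero]

private theorem BW_snoc_ballot {N : ℕ} (w : Fin N → ℕ) (i : ℕ) :
    PPh.Ballot (Fin.snoc w i : Fin (N + 1) → ℕ) ↔
      PPh.Ballot w ∧ ∀ j, PPh.ctt (Fin.snoc w i : Fin (N + 1) → ℕ) (j + 1) ≤ PPh.ctt (Fin.snoc w i : Fin (N + 1) → ℕ) j := by
  constructor
  · intro h
    refine ⟨fun v j => ?_, fun j => BW_anti h (Nat.le_succ j)⟩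
    rcases Nat.lt_or_ge N v with hv | hv
    · have h1 := h N j
      rw [BW_snoc_pref, BW_snoc_pref, if_neg (by omega), if_neg (by omega), add_zero, add_zero] at h1
      rw [BW_pref w le_rfl, BW_pref w le_rfl] at h1
      rw [BW_pref w hv.le, BW_pref w hv.le]
      exact h1
    · have h1 := h v j
      rw [BW_snoc_pref, BW_snoc_pref, if_neg (by omega), if_neg (by omega), add_zero, add_zero] at h1
      exact h1
  · rintro ⟨h, h'⟩ v j
    rcases Nat.lt_or_ge N v with hv | hv
    · rw [BW_pref _ hv, BW_pref _ hv]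
      exact h' j
    · rw [BW_snoc_pref, BW_snoc_pref, if_neg (by omega), if_neg (by omega), add_zero, add_zero]
      exact h v j

/-- The ballot words of content `κ`, recursively. -/
private noncomputable def BW_F : (N : ℕ) → (ℕ → ℕ) → Finset (Fin N → ℕ)
  | 0, _ => {fun _ => 0}
  | N + 1, κ => (remS (N + 1) κ).biUnion fun i => (BW_F N (dec κ i)).image fun w => (Fin.snoc w i : Fin (N + 1) → ℕ)

private theorem BW_F_card : ∀ (N : ℕ) (κ : ℕ → ℕ), (BW_F N κ).card = fY N κ := by
  intro N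
  induction N with
  | zero => intro κ; rfl
  | succ N ih =>
    intro κ
    unfold BW_F fY
    rw [card_biUnion]
    · refine sum_congr rfl fun i _ => ?_
      rw [card_image_of_injective, ih]
      intro w w' h
      have h1 := congrArg Fin.init h
      simpa [Fin.init_snoc] using h1
    · intro i _ i' _ hne
      rw [Function.onFun, disjoint_left]
      intro w hw hw'
      rw [mem_image] at hw hw'
      obtain ⟨a, _, ha⟩ := hw
      obtain ⟨b, _, hb⟩ := hw'
      apply hne
      have h1 : (Fin.snoc a i : Fin (N + 1) → ℕ) (Fin.last N) = (Fin.snoc b i' : Fin (N + 1) → ℕ) (Fin.last N) := by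
        rw [ha, hb]
      simpa [Fin.snoc_last] using h1

private theorem BW_F_mem : ∀ (N : ℕ) (κ : ℕ → ℕ), κ ∈ Par N → ∀ w, w ∈ BW_F N κ ↔ PPh.Ballot w ∧ PPh.ctt w = κ := by
  intro N
  induction N with
  | zero =>
    intro κ hκ w
    have h0 : ∀ i, κ i = 0 := fun i => (mem_Par.mp hκ).2.1 i (Nat.zero_le i)
    have h1 : w ∈ BW_F 0 κ := by
      unfold BW_F
      rw [mem_singleton]
      funext u
      exact u.elim0
    refine ⟨fun _ => ⟨?_, ?_⟩, fun _ => h1⟩
    · intro v i
      simp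
    · funext i
      rw [h0]
      unfold PPh.ctt
      simp
  | succ N ih =>
    intro κ hκ w
    obtain ⟨w', i, rfl⟩ : ∃ (w' : Fin N → ℕ) (i : ℕ), w = (Fin.snoc w' i : Fin (N + 1) → ℕ) :=
      ⟨Fin.init w, w (Fin.last N), (Fin.snoc_init_self w).symm⟩
    have hP := mem_Par.mp hκ
    constructor
    · intro h
      unfold BW_F at h
      rw [mem_biUnion] at h
      obtain ⟨i', hi', h⟩ := h
      rw [mem_image] at h
      obtain ⟨a, ha, hai⟩ := h
      have e1 : i' = i := by
        have := congrFun hai (Fin.last N)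
        simpa [Fin.snoc_last] using this
      have e2 : a = w' := by
        have := congrArg Fin.init hai
        simpa [Fin.init_snoc] using this
      subst e1 e2
      rw [ih _ (dec_mem hκ hi')] at ha
      have hlt : κ (i' + 1) < κ i' := (mem_filter.mp hi').2
      have hc : PPh.ctt (Fin.snoc a i' : Fin (N + 1) → ℕ) = κ := by
        rw [BW_snoc_ctt', ha.2, inc_dec (by omega)]
      refine ⟨(BW_snoc_ballot a i').mpr ⟨ha.1, fun j => ?_⟩, hc⟩
      rw [hc]
      exact hP.1 (Nat.le_succ j)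
    · rintro ⟨hB, hc⟩
      have hB' := ((BW_snoc_ballot w' i).mp hB).1
      rw [BW_snoc_ctt'] at hc
      have hd : dec κ i = PPh.ctt w' := by rw [← hc, dec_inc]
      have hκi : κ i = PPh.ctt w' i + 1 := by
        rw [← hc]
        simp [inc]
      have hκi1 : κ (i + 1) = PPh.ctt w' (i + 1) := by
        rw [← hc]
        simp [inc]
      have hanti := BW_anti hB' (Nat.le_succ i)
      have hrem : i ∈ remS (N + 1) κ := by
        unfold remS
        rw [mem_filter, mem_range]
        refine ⟨?_, ?_⟩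
        · by_contra hi
          have := hP.2.1 i (not_lt.mp hi)
          omega
        · rw [hκi, hκi1]
          exact Nat.lt_succ_of_le hanti
      unfold BW_F
      rw [mem_biUnion]
      refine ⟨i, hrem, ?_⟩
      rw [mem_image]
      exact ⟨w', (ih _ (dec_mem hκ hrem) w').mpr ⟨hB', hd.symm⟩, rfl⟩

private theorem BW_F_coe {N : ℕ} {κ : ℕ → ℕ} (hκ : κ ∈ Par N) :
    {w : Fin N → ℕ | PPh.Ballot w ∧ PPh.ctt w = κ} = ↑(BW_F N κ) := by
  ext w
  rw [Set.mem_ofPred_eq, mem_coe, BW_F_mem N κ hκ]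

theorem ncard_ballot {N : ℕ} {κ : ℕ → ℕ} (hκ : κ ∈ Par N) :
    {w : Fin N → ℕ | PPh.Ballot w ∧ PPh.ctt w = κ}.Finite ∧
      {w : Fin N → ℕ | PPh.Ballot w ∧ PPh.ctt w = κ}.ncard = fY N κ := by
  rw [BW_F_coe hκ]
  exact ⟨finite_toSet _, by rw [Set.ncard_coe_finset, BW_F_card]⟩

theorem cnt_eq (n s : ℕ) (S : ℕ → ℕ → Prop) : PPh.cnt (n + s) n S = cY n s S := by
  classical
  unfold PPh.cnt cY
  have key : PPh.bset (n + s) n S =
      ↑(((Par n).filter fun κ => S (κ 0) (κ 1)).biUnion fun κ => (BW_F (n + s) (sh κ s)) ×ˢ (BW_F n κ)) := by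
    ext ⟨P, Q⟩
    unfold PPh.bset
    rw [Set.mem_ofPred_eq, mem_coe, mem_biUnion]
    constructor
    · rintro ⟨hP, hQ, hPr, hS⟩
      dsimp only at hP hQ hPr hS
      refine ⟨PPh.ctt Q, mem_filter.mpr ⟨ctt_par hQ, hS⟩, ?_⟩
      rw [mem_product, BW_F_mem _ _ (sh_mem s (ctt_par hQ)), BW_F_mem _ _ (ctt_par hQ)]
      refine ⟨⟨hP, ?_⟩, hQ, rfl⟩
      funext j
      show PPh.ctt P j = sh (PPh.ctt Q) s j
      unfold sh
      rcases Nat.eq_zero_or_pos j with hj | hj
      · subst hj
        rw [Function.update_self]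
        have h1 := BW_sum hP (M := n + s + 1) (by omega)
        have h2 := BW_sum hQ (M := n + s + 1) (by omega)
        rw [sum_range_succ'] at h1 h2
        have h3 : ∑ i ∈ range (n + s), PPh.ctt P (i + 1) = ∑ i ∈ range (n + s), PPh.ctt Q (i + 1) :=
          sum_congr rfl fun i _ => hPr (i + 1) (by omega)
        omega
      · rw [Function.update_of_ne (by omega)]
        exact hPr j hj
    · rintro ⟨κ, hκ, h⟩
      rw [mem_filter] at hκ
      rw [mem_product, BW_F_mem _ _ (sh_mem s hκ.1), BW_F_mem _ _ hκ.1] at h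
      obtain ⟨⟨hP, hPc⟩, hQ, hQc⟩ := h
      refine ⟨hP, hQ, fun j hj => ?_, ?_⟩
      · show PPh.ctt P j = PPh.ctt Q j
        rw [show PPh.ctt P = sh κ s from hPc, show PPh.ctt Q = κ from hQc]
        unfold sh
        rw [Function.update_of_ne (by omega)]
      · show S (PPh.ctt Q 0) (PPh.ctt Q 1)
        rw [show PPh.ctt Q = κ from hQc]
        exact hκ.2
  rw [key, Set.ncard_coe_finset, card_biUnion]
  · refine sum_congr rfl fun κ _ => ?_
    rw [card_product, BW_F_card, BW_F_card, mul_comm]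
  · intro κ hκ κ' hκ' hne
    rw [Function.onFun, disjoint_left]
    rintro ⟨P, Q⟩ h h'
    rw [mem_coe, mem_filter] at hκ hκ'
    rw [mem_product, BW_F_mem _ _ hκ.1] at h
    rw [mem_product, BW_F_mem _ _ hκ'.1] at h'
    exact hne (h.2.2.symm.trans h'.2.2)

end PPE
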