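import Pool.Agent.H69.PP.PH

/-!
Row PPE_CH (block E of MP_28250c_PP). Adding `s` boxes to row `0` one after the other.

`Rop w μ := if μ 1 < μ 0 then w (dec μ 0) else 0` (the isometry `R`).
Proofs.
* `Rop_sum`: `∑_{μ ∈ Par (k+1)} Rop w μ * g μ = ∑_{κ ∈ Par k} w κ * g (inc κ 0)`: bijection `κ ↦ inc κ 0` of `Par k` onto
  `{μ ∈ Par (k+1) : μ 1 < μ 0}` (i.e. `0 ∈ remS (k+1) μ`), inverse `dec μ 0`.
* `Rop_iter`: `∑_{μ ∈ Par (n+s)} (Rop^[s] w) μ * g μ = ∑_{κ ∈ Par n} w κ * g (sh κ s)`: induction on `s`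
  (`Function.iterate_succ_apply'`, `Rop_sum`, `sh_succ`).
* `Rop_inner`: `∑_{Par (k+1)} Rop w μ * Rop w' μ = ∑_{Par k} w κ * w' κ` (`Rop_sum` with `g = Rop w'`, `Rop w' (inc κ 0) = w' κ` for
  `κ ∈ Par k`: `(inc κ 0) 1 = κ 1 ≤ κ 0 < κ 0 + 1`).
* `chain`: `u_k κ := exp (θ κ 0/2) fY k κ/√(k! Φ_k)`; norms `‖v‖_k := √(∑_{κ ∈ Par k} v κ ^ 2)`, `‖u_k‖_k = 1`. By the
  definition of `cc` and `Rop_sum`: `∑_{Par (k+1)} Rop u_k μ * u_(k+1) μ = cc θ k` [`exp (θ (κ 0 + 1)/2) = exp (θ/2) exp (θ κ 0/2)`], so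
  `‖Rop u_k - u_(k+1)‖^2 = 2 (1 - cc θ k)`. Let `d_j := ‖Rop^[j] u_n - u_(n+j)‖_(n+j)`. `d_0 = 0`,
  `d_(j+1) ≤ ‖Rop (Rop^[j] u_n) - Rop u_(n+j)‖ + ‖Rop u_(n+j) - u_(n+j+1)‖ = d_j + √(2 (1 - cc θ (n+j)))` (Minkowski for finite sums
  with `p = 2`, `Rop` linear, `Rop_inner`). So `d_s ≤ ∑_{k ∈ Ico n (n+s)} √(2 (1 - cc θ k)) ≤ √(s * ∑ 2 (1 - cc θ k)) ≤ √(s * 2/(2s)) = 1`
  (Cauchy-Schwarz). `d_s^2 = 2 - 2 ⟨Rop^[s] u_n, u_(n+s)⟩`, so the inner product is `≥ 1/2`; by `Rop_iter` it equals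
  `∑_{κ ∈ Par n} exp (θ κ 0/2) exp (θ (κ 0 + s)/2) fY n κ fY (n+s) (sh κ s)/(√(n! Φ_n) √((n+s)! Φ_(n+s)))`.
-/

set_option autoImplicit false

namespace PPE
open Finset

/-- The isometry `R`. -/
noncomputable def Rop (w : (ℕ → ℕ) → ℝ) (μ : ℕ → ℕ) : ℝ := if μ 1 < μ 0 then w (dec μ 0) else 0

private theorem CH_inc0 (κ : ℕ → ℕ) : (inc κ 0) 0 = κ 0 + 1 := by
  simp [inc]

private theorem CH_inc1 (κ : ℕ → ℕ) : (inc κ 0) 1 = κ 1 := by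
  simp [inc]

private theorem CH_lt {k : ℕ} {κ : ℕ → ℕ} (hκ : κ ∈ Par k) : (inc κ 0) 1 < (inc κ 0) 0 := by
  rw [CH_inc0, CH_inc1]
  have h := (mem_Par.mp hκ).1 (Nat.zero_le 1)
  omega

private theorem CH_rop_inc {k : ℕ} {κ : ℕ → ℕ} (hκ : κ ∈ Par k) (w : (ℕ → ℕ) → ℝ) : Rop w (inc κ 0) = w κ := by
  unfold Rop
  rw [if_pos (CH_lt hκ), dec_inc]

theorem Rop_sum (k : ℕ) (w g : (ℕ → ℕ) → ℝ) :
    ∑ μ ∈ Par (k + 1), Rop w μ * g μ = ∑ κ ∈ Par k, w κ * g (inc κ 0) := by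
  classical
  have h1 : ∑ μ ∈ Par (k + 1), Rop w μ * g μ =
      ∑ μ ∈ (Par (k + 1)).filter (fun μ => μ 1 < μ 0), w (dec μ 0) * g μ := by
    rw [sum_filter]
    refine sum_congr rfl fun μ _ => ?_
    unfold Rop
    by_cases h : μ 1 < μ 0
    · rw [if_pos h, if_pos h]
    · rw [if_neg h, if_neg h, zero_mul]
  rw [h1]
  symm
  refine sum_nbij' (fun κ => inc κ 0) (fun μ => dec μ 0) ?_ ?_ ?_ ?_ ?_
  · intro κ hκ
    exact mem_filter.mpr ⟨inc_mem hκ (zero_mem_addS k κ), CH_lt hκ⟩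
  · intro μ hμ
    obtain ⟨h, h'⟩ := mem_filter.mp hμ
    refine dec_mem h ?_
    exact mem_filter.mpr ⟨mem_range.mpr (Nat.succ_pos k), h'⟩
  · intro κ _
    exact dec_inc κ 0
  · intro μ hμ
    obtain ⟨_, h'⟩ := mem_filter.mp hμ
    exact inc_dec (Nat.lt_of_le_of_lt (Nat.zero_le _) h')
  · intro κ _
    show w κ * g (inc κ 0) = w (dec (inc κ 0) 0) * g (inc κ 0)
    rw [dec_inc]

theorem Rop_iter (n s : ℕ) (w g : (ℕ → ℕ) → ℝ) :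
    ∑ μ ∈ Par (n + s), (Rop^[s] w) μ * g μ = ∑ κ ∈ Par n, w κ * g (sh κ s) := by
  induction s generalizing g with
  | zero =>
    refine sum_congr rfl fun κ _ => ?_
    rw [sh_zero]
    rfl
  | succ s ih =>
    have h1 : ∑ μ ∈ Par (n + (s + 1)), (Rop^[s + 1] w) μ * g μ =
        ∑ μ ∈ Par (n + s + 1), Rop (Rop^[s] w) μ * g μ := by
      rw [Function.iterate_succ_apply']
      rfl
    rw [h1, Rop_sum, ih]
    refine sum_congr rfl fun κ _ => ?_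
    rw [sh_succ]

theorem Rop_inner (k : ℕ) (w w' : (ℕ → ℕ) → ℝ) :
    ∑ μ ∈ Par (k + 1), Rop w μ * Rop w' μ = ∑ κ ∈ Par k, w κ * w' κ := by
  rw [Rop_sum]
  exact sum_congr rfl fun κ hκ => by rw [CH_rop_inc hκ]

private theorem CH_tri {ι : Type} (t : Finset ι) (a b : ι → ℝ) :
    Real.sqrt (∑ i ∈ t, (a i + b i) ^ 2) ≤ Real.sqrt (∑ i ∈ t, a i ^ 2) + Real.sqrt (∑ i ∈ t, b i ^ 2) := by
  have hA : 0 ≤ ∑ i ∈ t, a i ^ 2 := sum_nonneg fun i _ => sq_nonneg _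
  have hB : 0 ≤ ∑ i ∈ t, b i ^ 2 := sum_nonneg fun i _ => sq_nonneg _
  have hcs := Real.sum_mul_le_sqrt_mul_sqrt t a b
  have h2 : ∑ i ∈ t, (a i + b i) ^ 2 = ∑ i ∈ t, a i ^ 2 + 2 * ∑ i ∈ t, a i * b i + ∑ i ∈ t, b i ^ 2 := by
    rw [mul_sum, ← sum_add_distrib, ← sum_add_distrib]
    exact sum_congr rfl fun i _ => by ring
  refine Real.sqrt_le_iff.mpr ⟨by positivity, ?_⟩
  have e1 := Real.sq_sqrt hA
  have e2 := Real.sq_sqrt hB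
  rw [h2]
  nlinarith [hcs, e1, e2]

private noncomputable def CH_u (θ : ℝ) (k : ℕ) (κ : ℕ → ℕ) : ℝ :=
  Real.exp (θ * κ 0 / 2) * fY k κ / Real.sqrt (k.factorial * Phi θ k)

private theorem CH_pos {θ : ℝ} (hθ : 0 ≤ θ) (k : ℕ) : 0 < (k.factorial : ℝ) * Phi θ k :=
  mul_pos (by exact_mod_cast Nat.factorial_pos k) (lt_of_lt_of_le one_pos (Phi_one_le hθ k))

private theorem CH_S (θ : ℝ) (k : ℕ) :
    (k.factorial : ℝ) * Phi θ k = ∑ κ ∈ Par k, (fY k κ : ℝ) ^ 2 * Real.exp (θ * κ 0) := by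
  have h : (k.factorial : ℝ) ≠ 0 := by exact_mod_cast Nat.factorial_ne_zero k
  unfold Phi
  field_simp

private theorem CH_norm {θ : ℝ} (hθ : 0 ≤ θ) (k : ℕ) : ∑ κ ∈ Par k, CH_u θ k κ ^ 2 = 1 := by
  have hp := CH_pos hθ k
  have h : ∀ κ ∈ Par k, CH_u θ k κ ^ 2 = ((fY k κ : ℝ) ^ 2 * Real.exp (θ * κ 0)) / (k.factorial * Phi θ k) := by
    intro κ _
    unfold CH_u
    rw [div_pow, Real.sq_sqrt hp.le, mul_pow, ← Real.exp_nat_mul]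
    congr 1
    rw [mul_comm]
    congr 2
    push_cast
    ring
  rw [sum_congr rfl h, ← sum_div, ← CH_S, div_self hp.ne']

private theorem CH_exp (θ a s : ℝ) : Real.exp (θ * a / 2) * Real.exp (θ * (a + s) / 2) =
    Real.exp (θ * s / 2) * Real.exp (θ * a) := by
  rw [← Real.exp_add, ← Real.exp_add]
  congr 1
  ring

private theorem CH_sh0 (κ : ℕ → ℕ) (s : ℕ) : (sh κ s) 0 = κ 0 + s := by
  simp [sh]

private theorem CH_cross (θ : ℝ) (n s : ℕ) :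
    ∑ κ ∈ Par n, CH_u θ n κ * CH_u θ (n + s) (sh κ s) =
      Real.exp (θ * s / 2) * (∑ κ ∈ Par n, Real.exp (θ * κ 0) * fY n κ * fY (n + s) (sh κ s)) /
        (Real.sqrt (n.factorial * Phi θ n) * Real.sqrt ((n + s).factorial * Phi θ (n + s))) := by
  rw [mul_sum, sum_div]
  refine sum_congr rfl fun κ _ => ?_
  unfold CH_u
  rw [CH_sh0, div_mul_div_comm]
  congr 1
  have h := CH_exp θ (κ 0) s
  push_cast
  calc Real.exp (θ * κ 0 / 2) * fY n κ * (Real.exp (θ * (κ 0 + s) / 2) * fY (n + s) (sh κ s))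
      = (Real.exp (θ * κ 0 / 2) * Real.exp (θ * (κ 0 + s) / 2)) * (fY n κ * fY (n + s) (sh κ s)) := by ring
    _ = (Real.exp (θ * s / 2) * Real.exp (θ * κ 0)) * (fY n κ * fY (n + s) (sh κ s)) := by rw [h]
    _ = Real.exp (θ * s / 2) * (Real.exp (θ * κ 0) * fY n κ * fY (n + s) (sh κ s)) := by ring

private theorem CH_cc (θ : ℝ) (k : ℕ) :
    ∑ μ ∈ Par (k + 1), Rop (CH_u θ k) μ * CH_u θ (k + 1) μ = cc θ k := by
  rw [Rop_sum]
  have h := CH_cross θ k 1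
  have e : ∀ κ : ℕ → ℕ, sh κ 1 = inc κ 0 := fun κ => by rw [sh_succ, sh_zero]
  simp only [e] at h
  rw [h]
  unfold cc
  congr 2
  rw [Nat.cast_one, mul_one]

private theorem CH_iter_norm {θ : ℝ} (hθ : 0 ≤ θ) (n j : ℕ) :
    ∑ μ ∈ Par (n + j), (Rop^[j] (CH_u θ n)) μ ^ 2 = 1 := by
  induction j with
  | zero => exact CH_norm hθ n
  | succ j ih =>
    have h1 : ∑ μ ∈ Par (n + (j + 1)), (Rop^[j + 1] (CH_u θ n)) μ ^ 2 =
        ∑ μ ∈ Par (n + j + 1), Rop (Rop^[j] (CH_u θ n)) μ * Rop (Rop^[j] (CH_u θ n)) μ := by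
      rw [Function.iterate_succ_apply']
      exact sum_congr rfl fun μ _ => by rw [sq]
    rw [h1, Rop_inner]
    rw [← ih]
    exact sum_congr rfl fun μ _ => by rw [sq]

private noncomputable def CH_d (θ : ℝ) (n j : ℕ) : ℝ :=
  Real.sqrt (∑ μ ∈ Par (n + j), ((Rop^[j] (CH_u θ n)) μ - CH_u θ (n + j) μ) ^ 2)

private theorem CH_one {θ : ℝ} (hθ : 0 ≤ θ) (k : ℕ) :
    ∑ μ ∈ Par (k + 1), (Rop (CH_u θ k) μ - CH_u θ (k + 1) μ) ^ 2 = 2 * (1 - cc θ k) := by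
  have h1 : ∑ μ ∈ Par (k + 1), Rop (CH_u θ k) μ * Rop (CH_u θ k) μ = 1 := by
    rw [Rop_inner, ← CH_norm hθ k]
    exact sum_congr rfl fun μ _ => by rw [sq]
  have h2 := CH_norm hθ (k + 1)
  have h3 := CH_cc θ k
  have h4 : ∑ μ ∈ Par (k + 1), (Rop (CH_u θ k) μ - CH_u θ (k + 1) μ) ^ 2 =
      ∑ μ ∈ Par (k + 1), Rop (CH_u θ k) μ * Rop (CH_u θ k) μ -
        2 * ∑ μ ∈ Par (k + 1), Rop (CH_u θ k) μ * CH_u θ (k + 1) μ + ∑ μ ∈ Par (k + 1), CH_u θ (k + 1) μ ^ 2 := by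
    rw [mul_sum, ← sum_sub_distrib, ← sum_add_distrib]
    exact sum_congr rfl fun μ _ => by ring
  rw [h4, h1, h2, h3]
  ring

private theorem CH_step {θ : ℝ} (hθ : 0 ≤ θ) (n j : ℕ) :
    CH_d θ n (j + 1) ≤ CH_d θ n j + Real.sqrt (2 * (1 - cc θ (n + j))) := by
  have h1 : CH_d θ n (j + 1) = Real.sqrt (∑ μ ∈ Par (n + j + 1),
      ((Rop (Rop^[j] (CH_u θ n)) μ - Rop (CH_u θ (n + j)) μ) +
        (Rop (CH_u θ (n + j)) μ - CH_u θ (n + j + 1) μ)) ^ 2) := by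
    unfold CH_d
    rw [Function.iterate_succ_apply']
    congr 1
    refine sum_congr rfl fun μ _ => ?_
    congr 1
    show _ = _
    rw [show n + (j + 1) = n + j + 1 from rfl]
    ring
  rw [h1]
  refine (CH_tri _ _ _).trans ?_
  rw [CH_one hθ]
  have h2 : ∑ μ ∈ Par (n + j + 1), (Rop (Rop^[j] (CH_u θ n)) μ - Rop (CH_u θ (n + j)) μ) ^ 2 =
      ∑ μ ∈ Par (n + j), ((Rop^[j] (CH_u θ n)) μ - CH_u θ (n + j) μ) ^ 2 := by
    have h3 : ∀ μ : ℕ → ℕ, (Rop (Rop^[j] (CH_u θ n)) μ - Rop (CH_u θ (n + j)) μ) ^ 2 =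
        Rop (fun κ => (Rop^[j] (CH_u θ n)) κ - CH_u θ (n + j) κ) μ *
          Rop (fun κ => (Rop^[j] (CH_u θ n)) κ - CH_u θ (n + j) κ) μ := by
      intro μ
      unfold Rop
      by_cases h : μ 1 < μ 0
      · simp only [if_pos h]
        ring
      · simp only [if_neg h]
        ring
    rw [sum_congr rfl fun μ _ => h3 μ, Rop_inner]
    exact sum_congr rfl fun μ _ => by rw [sq]
  rw [h2]
  exact le_refl _

private theorem CH_d_le {θ : ℝ} (hθ : 0 ≤ θ) (n s : ℕ) :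
    CH_d θ n s ≤ ∑ j ∈ range s, Real.sqrt (2 * (1 - cc θ (n + j))) := by
  induction s with
  | zero =>
    rw [range_zero, sum_empty]
    refine le_of_eq ?_
    unfold CH_d
    rw [Real.sqrt_eq_zero']
    refine le_of_eq (sum_eq_zero fun μ _ => ?_)
    rw [Function.iterate_zero_apply]
    show (CH_u θ n μ - CH_u θ n μ) ^ 2 = 0
    ring
  | succ s ih =>
    rw [sum_range_succ]
    exact (CH_step hθ n s).trans (add_le_add ih le_rfl)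

theorem chain {θ : ℝ} (hθ : 0 ≤ θ) {n s : ℕ} (hs : 1 ≤ s) (h : ∑ k ∈ Ico n (n + s), (1 - cc θ k) ≤ 1 / (2 * s)) :
    1 / 2 * (Real.exp (-(θ * s / 2)) * (Real.sqrt (n.factorial * Phi θ n) *
      Real.sqrt ((n + s).factorial * Phi θ (n + s)))) ≤
      ∑ κ ∈ Par n, Real.exp (θ * κ 0) * fY n κ * fY (n + s) (sh κ s) := by
  have hs0 : (0 : ℝ) < s := by exact_mod_cast hs
  have hnn : ∀ k, 0 ≤ 2 * (1 - cc θ k) := fun k => by
    have := cc_le_one hθ k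
    linarith
  have hsum : ∑ j ∈ range s, (1 - cc θ (n + j)) ≤ 1 / (2 * s) := by
    rw [sum_Ico_eq_sum_range, Nat.add_sub_cancel_left] at h
    exact h
  have hd := CH_d_le hθ n s
  have hsq : (∑ j ∈ range s, Real.sqrt (2 * (1 - cc θ (n + j)))) ^ 2 ≤ 1 := by
    have h1 := sq_sum_le_card_mul_sum_sq (s := range s) (f := fun j => Real.sqrt (2 * (1 - cc θ (n + j))))
    rw [card_range] at h1
    have h2 : ∑ j ∈ range s, Real.sqrt (2 * (1 - cc θ (n + j))) ^ 2 = 2 * ∑ j ∈ range s, (1 - cc θ (n + j)) := by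
      rw [mul_sum]
      exact sum_congr rfl fun j _ => Real.sq_sqrt (hnn _)
    rw [h2] at h1
    refine h1.trans ?_
    calc (s : ℝ) * (2 * ∑ j ∈ range s, (1 - cc θ (n + j))) ≤ s * (2 * (1 / (2 * s))) :=
          mul_le_mul_of_nonneg_left (mul_le_mul_of_nonneg_left hsum (by norm_num)) hs0.le
      _ = 1 := by field_simp
  have hd0 : 0 ≤ CH_d θ n s := Real.sqrt_nonneg _
  have hd2 : CH_d θ n s ^ 2 ≤ 1 := le_trans (pow_le_pow_left₀ hd0 hd 2) hsq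
  have hd3 : CH_d θ n s ^ 2 = ∑ μ ∈ Par (n + s), ((Rop^[s] (CH_u θ n)) μ - CH_u θ (n + s) μ) ^ 2 :=
    Real.sq_sqrt (sum_nonneg fun μ _ => sq_nonneg _)
  have h5 : ∑ μ ∈ Par (n + s), ((Rop^[s] (CH_u θ n)) μ - CH_u θ (n + s) μ) ^ 2 =
      ∑ μ ∈ Par (n + s), (Rop^[s] (CH_u θ n)) μ ^ 2 -
        2 * ∑ μ ∈ Par (n + s), (Rop^[s] (CH_u θ n)) μ * CH_u θ (n + s) μ +
        ∑ μ ∈ Par (n + s), CH_u θ (n + s) μ ^ 2 := by
    rw [mul_sum, ← sum_sub_distrib, ← sum_add_distrib]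
    exact sum_congr rfl fun μ _ => by ring
  rw [CH_iter_norm hθ, CH_norm hθ, Rop_iter, CH_cross] at h5
  have hA : 0 < Real.sqrt (n.factorial * Phi θ n) * Real.sqrt ((n + s).factorial * Phi θ (n + s)) :=
    mul_pos (Real.sqrt_pos.mpr (CH_pos hθ n)) (Real.sqrt_pos.mpr (CH_pos hθ (n + s)))
  set A := Real.sqrt (n.factorial * Phi θ n) * Real.sqrt ((n + s).factorial * Phi θ (n + s)) with hAd
  set Z := ∑ κ ∈ Par n, Real.exp (θ * κ 0) * fY n κ * fY (n + s) (sh κ s) with hZd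
  have h6 : 1 / 2 ≤ Real.exp (θ * s / 2) * Z / A := by
    rw [hd3, h5] at hd2
    linarith
  rw [le_div_iff₀ hA] at h6
  have h7 : Real.exp (-(θ * s / 2)) * Real.exp (θ * s / 2) = 1 := by
    rw [← Real.exp_add, neg_add_cancel, Real.exp_zero]
  have h8 := mul_le_mul_of_nonneg_left h6 (Real.exp_pos (-(θ * s / 2))).le
  calc 1 / 2 * (Real.exp (-(θ * s / 2)) * A) = Real.exp (-(θ * s / 2)) * (1 / 2 * A) := by ring
    _ ≤ Real.exp (-(θ * s / 2)) * (Real.exp (θ * s / 2) * Z) := h8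
    _ = (Real.exp (-(θ * s / 2)) * Real.exp (θ * s / 2)) * Z := by ring
    _ = Z := by rw [h7, one_mul]

end PPE
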