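import Pool.Agent.H69.PP.SW

/-!
Row PPE_P2 (block E of MP_28250c_PP). Two rows: `log Φ2_k ≤ 8 sinh (θ/2) √k`.

Proof. As for `Φ` (row PPE_PH, header), with the weight `exp (θ (κ 0 + κ 1))`: by `sum_step`, `sum_add`
`(k+1)! (Φ2_(k+1) - Φ2_k) = (exp θ - 1) ∑_κ exp (θ (κ 0 + κ 1)) fY k κ (fY (k+1) (inc κ 0) + [1 ∈ addS k κ] fY (k+1) (inc κ 1))`.
For each of the two rows `r = 0, 1`: Cauchy-Schwarz for `exp (θ (κ 0 + κ 1)/2) fY k κ` and
`exp (θ (κ 0 + κ 1 + 1)/2) fY (k+1) (inc κ r)` (`κ ↦ inc κ r` injective on the `κ` with `r ∈ addS k κ`, values in `Par (k+1)`):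
the sum is `≤ exp (-θ/2) √(k! Φ2_k (k+1)! Φ2_(k+1))`. So `Φ2_(k+1) - Φ2_k ≤ 4 σ √(Φ2_k Φ2_(k+1)/(k+1))`, `σ = sinh (θ/2)`;
`ρ = √(Φ2_(k+1)/Φ2_k)`: `ρ - 1/ρ ≤ 4 σ/√(k+1)`, `2 log ρ ≤ ρ - 1/ρ` (`ρ ≥ 1`: `t = log ρ`, `Real.self_le_sinh_iff`), so
`log Φ2_(k+1) - log Φ2_k ≤ 4 σ/√(k+1)`; sum with `∑_{j<k} 1/√(j+1) ≤ 2 √k`.
-/

set_option autoImplicit false

namespace PPE
open Finset

private noncomputable def P2_w (κ : ℕ → ℕ) : ℝ := (κ 0 : ℝ) + κ 1

private noncomputable def P2_S (θ : ℝ) (k : ℕ) : ℝ := ∑ κ ∈ Par k, (fY k κ : ℝ) ^ 2 * Real.exp (θ * P2_w κ)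

private noncomputable def P2_R (θ : ℝ) (k r : ℕ) : ℝ :=
  ∑ κ ∈ (Par k).filter (fun κ => r ∈ addS k κ), Real.exp (θ * P2_w κ) * fY k κ * fY (k + 1) (inc κ r)

private theorem P2_phi (θ : ℝ) (k : ℕ) : (k.factorial : ℝ) * Phi2 θ k = P2_S θ k := by
  unfold Phi2 P2_S P2_w
  rw [mul_div_cancel₀]
  exact_mod_cast k.factorial_ne_zero

private theorem P2_w_inc (κ : ℕ → ℕ) (i : ℕ) : P2_w (inc κ i) = P2_w κ + (if i = 0 then 1 else 0) + (if i = 1 then 1 else 0) := by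
  unfold P2_w inc
  by_cases h0 : i = 0
  · subst h0
    rw [Function.update_self, Function.update_of_ne (by norm_num), if_pos rfl, if_neg (by norm_num)]
    push_cast
    ring
  · by_cases h1 : i = 1
    · subst h1
      rw [Function.update_self, Function.update_of_ne (by norm_num), if_neg (by norm_num), if_pos rfl]
      push_cast
      ring
    · rw [Function.update_of_ne (Ne.symm h0), Function.update_of_ne (Ne.symm h1), if_neg h0, if_neg h1]
      ring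

private theorem P2_exp_inc (θ : ℝ) (κ : ℕ → ℕ) (i : ℕ) : Real.exp (θ * P2_w (inc κ i)) =
    Real.exp (θ * P2_w κ) * (1 + (Real.exp θ - 1) * ((if i = 0 then 1 else 0) + (if i = 1 then 1 else 0))) := by
  rw [P2_w_inc]
  by_cases h0 : i = 0
  · subst h0
    rw [if_pos rfl, if_neg (by norm_num)]
    have : θ * (P2_w κ + 1 + 0) = θ * P2_w κ + θ := by ring
    rw [this, Real.exp_add]
    ring
  · by_cases h1 : i = 1
    · subst h1
      rw [if_neg (by norm_num), if_pos rfl]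
      have : θ * (P2_w κ + 0 + 1) = θ * P2_w κ + θ := by ring
      rw [this, Real.exp_add]
      ring
    · rw [if_neg h0, if_neg h1]
      have : θ * (P2_w κ + 0 + 0) = θ * P2_w κ := by ring
      rw [this]
      ring

private theorem P2_Rsum (θ : ℝ) (k r : ℕ) : P2_R θ k r =
    ∑ κ ∈ Par k, ∑ i ∈ addS k κ, (if i = r then Real.exp (θ * P2_w κ) * fY k κ * fY (k + 1) (inc κ i) else 0) := by
  unfold P2_R
  rw [sum_filter]
  refine sum_congr rfl fun κ _ => ?_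
  rw [sum_ite_eq']

private theorem P2_rec (θ : ℝ) (k : ℕ) :
    P2_S θ (k + 1) = (k + 1) * P2_S θ k + (Real.exp θ - 1) * (P2_R θ k 0 + P2_R θ k 1) := by
  have h1 : P2_S θ (k + 1) = ∑ μ ∈ Par (k + 1), (fY (k + 1) μ : ℝ) * (fY (k + 1) μ * Real.exp (θ * P2_w μ)) := by
    unfold P2_S
    exact sum_congr rfl fun μ _ => by ring
  rw [h1, sum_step k (fun μ => (fY (k + 1) μ : ℝ) * Real.exp (θ * P2_w μ)), P2_Rsum, P2_Rsum, ← sum_add_distrib,
    mul_sum]
  unfold P2_S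
  rw [mul_sum, ← sum_add_distrib]
  refine sum_congr rfl fun κ hκ => ?_
  have h2 := sum_add hκ
  have h3 : ((k : ℝ) + 1) * ((fY k κ : ℝ) ^ 2 * Real.exp (θ * P2_w κ)) =
      ∑ i ∈ addS k κ, (fY k κ : ℝ) * Real.exp (θ * P2_w κ) * fY (k + 1) (inc κ i) := by
    rw [← mul_sum, h2]
    ring
  rw [h3, mul_sum, ← sum_add_distrib, mul_sum, ← sum_add_distrib]
  refine sum_congr rfl fun i _ => ?_
  rw [P2_exp_inc]
  split_ifs <;> ring

private theorem P2_inj {κ μ : ℕ → ℕ} {r : ℕ} (h : inc κ r = inc μ r) : κ = μ := by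
  rw [← dec_inc κ r, h, dec_inc]

private theorem P2_CS (θ : ℝ) (k : ℕ) {r : ℕ} (hr : r = 0 ∨ r = 1) :
    P2_R θ k r ≤ Real.exp (-(θ / 2)) * (Real.sqrt (P2_S θ k) * Real.sqrt (P2_S θ (k + 1))) := by
  classical
  have hw : ∀ κ, P2_w (inc κ r) = P2_w κ + 1 := by
    intro κ
    rw [P2_w_inc]
    rcases hr with hr | hr <;> subst hr <;> norm_num
  have h1 : ∀ κ, Real.exp (θ * P2_w κ) * fY k κ * fY (k + 1) (inc κ r) =
      Real.exp (-(θ / 2)) * ((Real.exp (θ * P2_w κ / 2) * fY k κ) *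
        (Real.exp (θ * P2_w (inc κ r) / 2) * fY (k + 1) (inc κ r))) := by
    intro κ
    rw [hw]
    have h2 : Real.exp (θ * P2_w κ) = Real.exp (-(θ / 2)) *
        (Real.exp (θ * P2_w κ / 2) * Real.exp (θ * (P2_w κ + 1) / 2)) := by
      rw [← Real.exp_add, ← Real.exp_add]
      congr 1
      ring
    rw [h2]
    ring
  unfold P2_R
  rw [sum_congr rfl fun κ _ => h1 κ, ← mul_sum]
  refine mul_le_mul_of_nonneg_left ?_ (Real.exp_pos _).le
  refine (Real.sum_mul_le_sqrt_mul_sqrt _ _ _).trans ?_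
  have hsq : ∀ (k : ℕ) (μ : ℕ → ℕ), (Real.exp (θ * P2_w μ / 2) * fY k μ) ^ 2 =
      (fY k μ : ℝ) ^ 2 * Real.exp (θ * P2_w μ) := by
    intro k μ
    have h3 : Real.exp (θ * P2_w μ) = Real.exp (θ * P2_w μ / 2) * Real.exp (θ * P2_w μ / 2) := by
      rw [← Real.exp_add]
      congr 1
      ring
    rw [h3]
    ring
  refine mul_le_mul ?_ ?_ (Real.sqrt_nonneg _) (Real.sqrt_nonneg _)
  · refine Real.sqrt_le_sqrt ?_
    rw [sum_congr rfl fun κ _ => hsq k κ]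
    exact sum_le_sum_of_subset_of_nonneg (filter_subset _ _) fun _ _ _ => by positivity
  · refine Real.sqrt_le_sqrt ?_
    rw [sum_congr rfl fun κ _ => hsq (k + 1) (inc κ r)]
    have h4 : ∑ κ ∈ (Par k).filter (fun κ => r ∈ addS k κ),
          (fY (k + 1) (inc κ r) : ℝ) ^ 2 * Real.exp (θ * P2_w (inc κ r)) =
        ∑ μ ∈ ((Par k).filter (fun κ => r ∈ addS k κ)).image (fun κ => inc κ r),
          (fY (k + 1) μ : ℝ) ^ 2 * Real.exp (θ * P2_w μ) := by
      rw [sum_image]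
      intro κ _ μ _ h
      exact P2_inj h
    rw [h4]
    refine sum_le_sum_of_subset_of_nonneg ?_ fun _ _ _ => by positivity
    intro μ hμ
    obtain ⟨κ, hκ, rfl⟩ := mem_image.1 hμ
    obtain ⟨h5, h6⟩ := mem_filter.1 hκ
    exact inc_mem h5 h6

theorem Phi2_one_le {θ : ℝ} (hθ : 0 ≤ θ) (k : ℕ) : 1 ≤ Phi2 θ k := by
  have hf : (0 : ℝ) < k.factorial := by exact_mod_cast k.factorial_pos
  have h1 : (k.factorial : ℝ) ≤ P2_S θ k := by
    rw [← sum_sq]
    unfold P2_S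
    refine sum_le_sum fun κ _ => ?_
    have h2 : 1 ≤ Real.exp (θ * P2_w κ) := by
      refine Real.one_le_exp ?_
      unfold P2_w
      positivity
    have h3 : (0 : ℝ) ≤ (fY k κ : ℝ) ^ 2 := by positivity
    nlinarith
  rw [← P2_phi] at h1
  by_contra hcon
  rw [not_le] at hcon
  have := mul_lt_mul_of_pos_left hcon hf
  linarith

private theorem P2_step {θ : ℝ} (hθ : 0 ≤ θ) (k : ℕ) :
    Phi2 θ (k + 1) ≤ Phi2 θ k +
      4 * Real.sinh (θ / 2) / Real.sqrt (k + 1) * (Real.sqrt (Phi2 θ k) * Real.sqrt (Phi2 θ (k + 1))) := by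
  have h1 := P2_rec θ k
  have h2 := P2_CS θ k (r := 0) (Or.inl rfl)
  have h3 := P2_CS θ k (r := 1) (Or.inr rfl)
  have he : 0 ≤ Real.exp θ - 1 := by
    have := Real.one_le_exp hθ
    linarith
  have hsig : (Real.exp θ - 1) * (2 * Real.exp (-(θ / 2))) = 4 * Real.sinh (θ / 2) := by
    rw [Real.sinh_eq]
    have h4 : Real.exp θ = Real.exp (θ / 2) * Real.exp (θ / 2) := by
      rw [← Real.exp_add]
      congr 1
      ring
    have h5 : Real.exp (θ / 2) * Real.exp (-(θ / 2)) = 1 := by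
      rw [← Real.exp_add]
      simp
    have h6 : (Real.exp θ - 1) * (2 * Real.exp (-(θ / 2))) =
        2 * Real.exp (θ / 2) * (Real.exp (θ / 2) * Real.exp (-(θ / 2))) - 2 * Real.exp (-(θ / 2)) := by
      rw [h4]
      ring
    rw [h6, h5]
    ring
  have h4 : P2_S θ (k + 1) ≤ (k + 1) * P2_S θ k +
      4 * Real.sinh (θ / 2) * (Real.sqrt (P2_S θ k) * Real.sqrt (P2_S θ (k + 1))) := by
    have h5 := mul_le_mul_of_nonneg_left (add_le_add h2 h3) he
    have h6 : (Real.exp θ - 1) * (Real.exp (-(θ / 2)) * (Real.sqrt (P2_S θ k) * Real.sqrt (P2_S θ (k + 1))) +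
        Real.exp (-(θ / 2)) * (Real.sqrt (P2_S θ k) * Real.sqrt (P2_S θ (k + 1)))) =
        4 * Real.sinh (θ / 2) * (Real.sqrt (P2_S θ k) * Real.sqrt (P2_S θ (k + 1))) := by
      rw [← hsig]
      ring
    linarith
  rw [← P2_phi, ← P2_phi] at h4
  have hf : (0 : ℝ) < k.factorial := by exact_mod_cast k.factorial_pos
  have hk : (0 : ℝ) < (k : ℝ) + 1 := by positivity
  have hs : 0 < Real.sqrt ((k : ℝ) + 1) := Real.sqrt_pos.2 hk
  have hs2 : Real.sqrt ((k : ℝ) + 1) * Real.sqrt ((k : ℝ) + 1) = (k : ℝ) + 1 := Real.mul_self_sqrt hk.le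
  have hfac : (((k + 1).factorial : ℕ) : ℝ) = ((k : ℝ) + 1) * k.factorial := by
    rw [Nat.factorial_succ]
    push_cast
    ring
  have h7 : Real.sqrt ((k.factorial : ℝ) * Phi2 θ k) * Real.sqrt ((((k + 1).factorial : ℕ) : ℝ) * Phi2 θ (k + 1)) =
      (k.factorial : ℝ) * Real.sqrt ((k : ℝ) + 1) * (Real.sqrt (Phi2 θ k) * Real.sqrt (Phi2 θ (k + 1))) := by
    rw [hfac, Real.sqrt_mul hf.le, Real.sqrt_mul (by positivity), Real.sqrt_mul hk.le]
    have : Real.sqrt (k.factorial : ℝ) * Real.sqrt (k.factorial : ℝ) = (k.factorial : ℝ) := Real.mul_self_sqrt hf.le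
    calc Real.sqrt (k.factorial : ℝ) * Real.sqrt (Phi2 θ k) *
          (Real.sqrt ((k : ℝ) + 1) * Real.sqrt (k.factorial : ℝ) * Real.sqrt (Phi2 θ (k + 1))) =
          (Real.sqrt (k.factorial : ℝ) * Real.sqrt (k.factorial : ℝ)) * Real.sqrt ((k : ℝ) + 1) *
            (Real.sqrt (Phi2 θ k) * Real.sqrt (Phi2 θ (k + 1))) := by ring
      _ = _ := by rw [this]
  rw [h7, hfac] at h4
  have h8 : ((k : ℝ) + 1) * k.factorial * Phi2 θ (k + 1) ≤ ((k : ℝ) + 1) * k.factorial *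
      (Phi2 θ k + 4 * Real.sinh (θ / 2) / Real.sqrt (k + 1) * (Real.sqrt (Phi2 θ k) * Real.sqrt (Phi2 θ (k + 1)))) := by
    refine h4.trans (le_of_eq ?_)
    have h9 : ((k : ℝ) + 1) * (4 * Real.sinh (θ / 2) / Real.sqrt (k + 1)) =
        4 * Real.sinh (θ / 2) * Real.sqrt ((k : ℝ) + 1) := by
      field_simp
      rw [pow_two, hs2]
      ring
    calc ((k : ℝ) + 1) * (k.factorial * Phi2 θ k) + 4 * Real.sinh (θ / 2) *
          ((k.factorial : ℝ) * Real.sqrt ((k : ℝ) + 1) * (Real.sqrt (Phi2 θ k) * Real.sqrt (Phi2 θ (k + 1)))) =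
          ((k : ℝ) + 1) * (k.factorial * Phi2 θ k) + (4 * Real.sinh (θ / 2) * Real.sqrt ((k : ℝ) + 1)) *
            ((k.factorial : ℝ) * (Real.sqrt (Phi2 θ k) * Real.sqrt (Phi2 θ (k + 1)))) := by ring
      _ = _ := by
        rw [← h9]
        ring
  exact le_of_mul_le_mul_left h8 (by positivity)

private theorem P2_two_log {ρ : ℝ} (h : 1 ≤ ρ) : 2 * Real.log ρ ≤ ρ - ρ⁻¹ := by
  have h1 : Real.log ρ ≤ Real.sinh (Real.log ρ) := Real.self_le_sinh_iff.2 (Real.log_nonneg h)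
  rw [Real.sinh_log (by linarith)] at h1
  linarith

private theorem P2_logstep {θ : ℝ} (hθ : 0 ≤ θ) (k : ℕ) :
    Real.log (Phi2 θ (k + 1)) - Real.log (Phi2 θ k) ≤ 4 * Real.sinh (θ / 2) / Real.sqrt (k + 1) := by
  have h1 := P2_step hθ k
  have ha := Phi2_one_le hθ k
  have hb := Phi2_one_le hθ (k + 1)
  have hc : 0 ≤ 4 * Real.sinh (θ / 2) / Real.sqrt (k + 1) := by
    have : 0 ≤ Real.sinh (θ / 2) := Real.sinh_nonneg_iff.2 (by linarith)
    positivity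
  set c := 4 * Real.sinh (θ / 2) / Real.sqrt (k + 1) with hcdef
  set A := Phi2 θ k with hA
  set B := Phi2 θ (k + 1) with hB
  have hA0 : 0 < A := by linarith
  have hB0 : 0 < B := by linarith
  rcases le_total B A with hBA | hAB
  · have := Real.log_le_log hB0 hBA
    linarith
  · have hsa : 0 < Real.sqrt A := Real.sqrt_pos.2 hA0
    have hsb : 0 < Real.sqrt B := Real.sqrt_pos.2 hB0
    have hle : Real.sqrt A ≤ Real.sqrt B := Real.sqrt_le_sqrt hAB
    have hρ : 1 ≤ Real.sqrt B / Real.sqrt A := by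
      rw [le_div_iff₀ hsa]
      linarith
    have h2 := P2_two_log hρ
    have h3 : Real.log (Real.sqrt B / Real.sqrt A) = Real.log B / 2 - Real.log A / 2 := by
      rw [Real.log_div hsb.ne' hsa.ne', Real.log_sqrt hB0.le, Real.log_sqrt hA0.le]
    have hAA : Real.sqrt A * Real.sqrt A = A := Real.mul_self_sqrt hA0.le
    have hBB : Real.sqrt B * Real.sqrt B = B := Real.mul_self_sqrt hB0.le
    have h4 : Real.sqrt B / Real.sqrt A - (Real.sqrt B / Real.sqrt A)⁻¹ =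
        (B - A) / (Real.sqrt A * Real.sqrt B) := by
      rw [inv_div, div_sub_div _ _ hsa.ne' hsb.ne', hAA, hBB]
    have h5 : (B - A) / (Real.sqrt A * Real.sqrt B) ≤ c := by
      rw [div_le_iff₀ (by positivity)]
      linarith
    rw [h3, h4] at h2
    linarith

theorem log_Phi2_le {θ : ℝ} (hθ : 0 ≤ θ) (k : ℕ) : Real.log (Phi2 θ k) ≤ 8 * Real.sinh (θ / 2) * Real.sqrt k := by
  have hsig : 0 ≤ Real.sinh (θ / 2) := Real.sinh_nonneg_iff.2 (by linarith)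
  induction k with
  | zero =>
    have h1 : Phi2 θ 0 = 1 := by
      unfold Phi2
      rw [Par_zero, sum_singleton, Nat.factorial_zero]
      show ((1 : ℕ) : ℝ) ^ 2 * Real.exp (θ * (((0 : ℕ) : ℝ) + ((0 : ℕ) : ℝ))) / ((1 : ℕ) : ℝ) = 1
      norm_num
    rw [h1, Real.log_one]
    positivity
  | succ k ih =>
    have h1 := P2_logstep hθ k
    have hk : (0 : ℝ) < (k : ℝ) + 1 := by positivity
    have hs : 0 < Real.sqrt ((k : ℝ) + 1) := Real.sqrt_pos.2 hk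
    have hs2 : Real.sqrt ((k : ℝ) + 1) * Real.sqrt ((k : ℝ) + 1) = (k : ℝ) + 1 := Real.mul_self_sqrt hk.le
    have ht : 0 ≤ Real.sqrt (k : ℝ) := Real.sqrt_nonneg _
    have ht2 : Real.sqrt (k : ℝ) * Real.sqrt (k : ℝ) = k := Real.mul_self_sqrt (Nat.cast_nonneg k)
    have h2 : 4 * Real.sinh (θ / 2) / Real.sqrt (k + 1) ≤
        8 * Real.sinh (θ / 2) * (Real.sqrt ((k : ℝ) + 1) - Real.sqrt k) := by
      rw [div_le_iff₀ hs]
      have h3 : 1 ≤ 2 * ((Real.sqrt ((k : ℝ) + 1) - Real.sqrt k) * Real.sqrt ((k : ℝ) + 1)) := by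
        nlinarith [pow_two_nonneg (Real.sqrt ((k : ℝ) + 1) - Real.sqrt k)]
      nlinarith [mul_le_mul_of_nonneg_left h3 hsig]
    push_cast
    have h3 : 8 * Real.sinh (θ / 2) * (Real.sqrt ((k : ℝ) + 1) - Real.sqrt k) =
        8 * Real.sinh (θ / 2) * Real.sqrt ((k : ℝ) + 1) - 8 * Real.sinh (θ / 2) * Real.sqrt k := by ring
    linarith

end PPE
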