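import Pool.Agent.H69.PP.CH
import Pool.Agent.H69.PP.P2

/-!
Row PPE_CS (block E of MP_28250c_PP). Bounds for `cY` by Cauchy-Schwarz.

`ZZ θ n s := exp (-(θ s/2)) √(n! Φ_n) √((n+s)! Φ_(n+s))`.
Proofs.
* `sum_le_ZZ`: `∑_{κ ∈ Par n} exp (θ κ 0) fY n κ fY (n+s) (sh κ s) ≤ ZZ`: Cauchy-Schwarz for `exp (θ κ 0/2) fY n κ` and
  `exp (θ (κ 0 + s)/2) fY (n+s) (sh κ s)` (`κ ↦ sh κ s` injective, into `Par (n+s)` by `sh_mem`, `(sh κ s) 0 = κ 0 + s`).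
* `cY_le1`: on `S` one has `1 ≤ exp (-θ t) exp (θ κ 0)`.
* `cY_le2`: the same with `exp (θ (κ 0 + κ 1))`; `(sh κ s) 1 = κ 1`. (`exp (-(θ s/2)) ≤ 1` is dropped.)
* `ex_r`: `∑_κ exp (θ κ 0) ff = ∑_{u ≤ n} exp (θ u) cY n s (x = u)` (`κ 0 ≤ n` by `par_le`), at most `n + 1` terms, the sum is
  `≥ ZZ/2` by `chain`; so one term is `≥ ZZ/(2 (n+1))`.
* `cY_mono`, `cY_add`: sums over subsets / disjoint subsets of terms in `ℕ`.
-/

set_option autoImplicit false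

namespace PPE
open Finset

/-- The value `Z`. -/
noncomputable def ZZ (θ : ℝ) (n s : ℕ) : ℝ :=
  Real.exp (-(θ * s / 2)) * (Real.sqrt (n.factorial * Phi θ n) * Real.sqrt ((n + s).factorial * Phi θ (n + s)))

private theorem CS_sh0 (κ : ℕ → ℕ) (s : ℕ) : sh κ s 0 = κ 0 + s := by
  unfold sh
  rw [Function.update_self]

private theorem CS_sh1 (κ : ℕ → ℕ) (s : ℕ) : sh κ s 1 = κ 1 := by
  unfold sh
  rw [Function.update_of_ne (by norm_num)]

private theorem CS_shinj (s : ℕ) {κ μ : ℕ → ℕ} (h : sh κ s = sh μ s) : κ = μ := by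
  funext i
  have h1 := congrFun h i
  unfold sh at h1
  by_cases hi : i = 0
  · subst hi
    rw [Function.update_self, Function.update_self] at h1
    omega
  · rwa [Function.update_of_ne hi, Function.update_of_ne hi] at h1

private theorem CS_main (θ : ℝ) (n s : ℕ) (w : (ℕ → ℕ) → ℝ) (hw : ∀ κ, w (sh κ s) = w κ + s) :
    ∑ κ ∈ Par n, Real.exp (θ * w κ) * fY n κ * fY (n + s) (sh κ s) ≤
      Real.exp (-(θ * s / 2)) * (Real.sqrt (∑ κ ∈ Par n, (fY n κ : ℝ) ^ 2 * Real.exp (θ * w κ)) *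
        Real.sqrt (∑ κ ∈ Par (n + s), (fY (n + s) κ : ℝ) ^ 2 * Real.exp (θ * w κ))) := by
  classical
  have h1 : ∀ κ, Real.exp (θ * w κ) * fY n κ * fY (n + s) (sh κ s) =
      Real.exp (-(θ * s / 2)) * ((Real.exp (θ * w κ / 2) * fY n κ) *
        (Real.exp (θ * w (sh κ s) / 2) * fY (n + s) (sh κ s))) := by
    intro κ
    rw [hw]
    have h2 : Real.exp (θ * w κ) = Real.exp (-(θ * s / 2)) *
        (Real.exp (θ * w κ / 2) * Real.exp (θ * (w κ + s) / 2)) := by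
      rw [← Real.exp_add, ← Real.exp_add]
      congr 1
      ring
    rw [h2]
    ring
  rw [sum_congr rfl fun κ _ => h1 κ, ← mul_sum]
  refine mul_le_mul_of_nonneg_left ?_ (Real.exp_pos _).le
  refine (Real.sum_mul_le_sqrt_mul_sqrt _ _ _).trans ?_
  have hsq : ∀ (k : ℕ) (μ : ℕ → ℕ), (Real.exp (θ * w μ / 2) * fY k μ) ^ 2 = (fY k μ : ℝ) ^ 2 * Real.exp (θ * w μ) := by
    intro k μ
    have h3 : Real.exp (θ * w μ) = Real.exp (θ * w μ / 2) * Real.exp (θ * w μ / 2) := by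
      rw [← Real.exp_add]
      congr 1
      ring
    rw [h3]
    ring
  refine mul_le_mul ?_ ?_ (Real.sqrt_nonneg _) (Real.sqrt_nonneg _)
  · rw [sum_congr rfl fun κ _ => hsq n κ]
  · refine Real.sqrt_le_sqrt ?_
    rw [sum_congr rfl fun κ _ => hsq (n + s) (sh κ s)]
    have h4 : ∑ κ ∈ Par n, (fY (n + s) (sh κ s) : ℝ) ^ 2 * Real.exp (θ * w (sh κ s)) =
        ∑ μ ∈ (Par n).image (fun κ => sh κ s), (fY (n + s) μ : ℝ) ^ 2 * Real.exp (θ * w μ) := by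
      rw [sum_image]
      intro κ _ μ _ h
      exact CS_shinj s h
    rw [h4]
    refine sum_le_sum_of_subset_of_nonneg ?_ fun _ _ _ => by positivity
    intro μ hμ
    obtain ⟨κ, hκ, rfl⟩ := mem_image.1 hμ
    exact sh_mem s hκ

private theorem CS_phi (θ : ℝ) (k : ℕ) :
    (k.factorial : ℝ) * Phi θ k = ∑ κ ∈ Par k, (fY k κ : ℝ) ^ 2 * Real.exp (θ * κ 0) := by
  unfold Phi
  rw [mul_div_cancel₀]
  exact_mod_cast k.factorial_ne_zero

private theorem CS_phi2 (θ : ℝ) (k : ℕ) :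
    (k.factorial : ℝ) * Phi2 θ k = ∑ κ ∈ Par k, (fY k κ : ℝ) ^ 2 * Real.exp (θ * (κ 0 + κ 1)) := by
  unfold Phi2
  rw [mul_div_cancel₀]
  exact_mod_cast k.factorial_ne_zero

open Classical in
private theorem CS_cY (n s : ℕ) (S : ℕ → ℕ → Prop) :
    (cY n s S : ℝ) = ∑ κ ∈ (Par n).filter (fun κ => S (κ 0) (κ 1)), (fY n κ : ℝ) * fY (n + s) (sh κ s) := by
  unfold cY
  push_cast
  rfl

private theorem CS_le (n s : ℕ) (S : ℕ → ℕ → Prop) (θ t : ℝ) (hθ : 0 ≤ θ) (w : (ℕ → ℕ) → ℝ)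
    (h : ∀ κ : ℕ → ℕ, S (κ 0) (κ 1) → t ≤ w κ) :
    (cY n s S : ℝ) ≤ Real.exp (-(θ * t)) * ∑ κ ∈ Par n, Real.exp (θ * w κ) * fY n κ * fY (n + s) (sh κ s) := by
  classical
  rw [CS_cY, mul_sum]
  refine (sum_le_sum (f := fun κ => (fY n κ : ℝ) * fY (n + s) (sh κ s))
    (g := fun κ => Real.exp (-(θ * t)) * (Real.exp (θ * w κ) * fY n κ * fY (n + s) (sh κ s))) fun κ hκ => ?_).trans
    (sum_le_sum_of_subset_of_nonneg (filter_subset _ _) fun _ _ _ => by positivity)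
  have h1 := h κ (mem_filter.1 hκ).2
  have h2 : 1 ≤ Real.exp (-(θ * t)) * Real.exp (θ * w κ) := by
    rw [← Real.exp_add]
    refine Real.one_le_exp ?_
    have := mul_le_mul_of_nonneg_left h1 hθ
    linarith
  have h3 : (0 : ℝ) ≤ (fY n κ : ℝ) * fY (n + s) (sh κ s) := by positivity
  calc (fY n κ : ℝ) * fY (n + s) (sh κ s) = 1 * ((fY n κ : ℝ) * fY (n + s) (sh κ s)) := (one_mul _).symm
    _ ≤ (Real.exp (-(θ * t)) * Real.exp (θ * w κ)) * ((fY n κ : ℝ) * fY (n + s) (sh κ s)) :=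
        mul_le_mul_of_nonneg_right h2 h3
    _ = _ := by ring

theorem sum_le_ZZ {θ : ℝ} (hθ : 0 ≤ θ) (n s : ℕ) :
    ∑ κ ∈ Par n, Real.exp (θ * κ 0) * fY n κ * fY (n + s) (sh κ s) ≤ ZZ θ n s := by
  have h1 := CS_main θ n s (fun κ => (κ 0 : ℝ)) fun κ => by
    rw [CS_sh0]
    push_cast
    ring
  unfold ZZ
  rw [CS_phi, CS_phi]
  exact h1

theorem cY_le1 {θ : ℝ} (hθ : 0 ≤ θ) (n s : ℕ) (S : ℕ → ℕ → Prop) (t : ℝ) (h : ∀ x y : ℕ, S x y → t ≤ x) :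
    (cY n s S : ℝ) ≤ Real.exp (-(θ * t)) * ZZ θ n s := by
  have h1 := CS_le n s S θ t hθ (fun κ => (κ 0 : ℝ)) fun κ hκ => h _ _ hκ
  exact h1.trans (mul_le_mul_of_nonneg_left (sum_le_ZZ hθ n s) (Real.exp_pos _).le)

theorem cY_le2 {θ : ℝ} (hθ : 0 ≤ θ) (n s : ℕ) (S : ℕ → ℕ → Prop) (t : ℝ) (h : ∀ x y : ℕ, S x y → t ≤ x + y) :
    (cY n s S : ℝ) ≤ Real.exp (-(θ * t)) * (Real.exp (-(θ * s / 2)) *
      (Real.sqrt (n.factorial * Phi2 θ n) * Real.sqrt ((n + s).factorial * Phi2 θ (n + s)))) := by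
  have h1 := CS_le n s S θ t hθ (fun κ => (κ 0 : ℝ) + κ 1) fun κ hκ => h _ _ hκ
  refine h1.trans (mul_le_mul_of_nonneg_left ?_ (Real.exp_pos _).le)
  have h2 := CS_main θ n s (fun κ => (κ 0 : ℝ) + κ 1) fun κ => by
    rw [CS_sh0, CS_sh1]
    push_cast
    ring
  rw [CS_phi2, CS_phi2]
  exact h2

theorem ex_r {θ : ℝ} (hθ : 0 ≤ θ) {n s : ℕ} (hs : 1 ≤ s) (h : ∑ k ∈ Ico n (n + s), (1 - cc θ k) ≤ 1 / (2 * s)) :
    ∃ r : ℕ, r ≤ n ∧ ZZ θ n s ≤ 2 * (n + 1) * (Real.exp (θ * r) * cY n s (fun x _ => x = r)) := by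
  classical
  by_contra hcon
  push Not at hcon
  have h1 : 1 / 2 * ZZ θ n s ≤ ∑ κ ∈ Par n, Real.exp (θ * κ 0) * fY n κ * fY (n + s) (sh κ s) := chain hθ hs h
  have h2 : ∑ κ ∈ Par n, Real.exp (θ * κ 0) * fY n κ * fY (n + s) (sh κ s) =
      ∑ r ∈ range (n + 1), Real.exp (θ * r) * cY n s (fun x _ => x = r) := by
    rw [← sum_fiberwise_of_maps_to (s := Par n) (t := range (n + 1)) (g := fun κ => κ 0)
      (fun κ hκ => mem_range.2 (Nat.lt_succ_of_le (par_le hκ 0)))]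
    refine sum_congr rfl fun r _ => ?_
    rw [CS_cY, mul_sum]
    refine sum_congr ?_ fun κ hκ => ?_
    · ext κ
      simp only [mem_filter]
    · simp only [mem_filter] at hκ
      rw [hκ.2]
      ring
  have h3 : ∑ r ∈ range (n + 1), 2 * (n + 1) * (Real.exp (θ * r) * cY n s (fun x _ => x = r)) <
      ∑ _r ∈ range (n + 1), ZZ θ n s := by
    refine sum_lt_sum_of_nonempty ⟨0, mem_range.2 (Nat.succ_pos n)⟩ fun r hr => ?_
    exact hcon r (Nat.lt_succ_iff.1 (mem_range.1 hr))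
  rw [← mul_sum, ← h2, sum_const, card_range, nsmul_eq_mul] at h3
  push_cast at h3
  have hn : (0 : ℝ) < (n : ℝ) + 1 := by positivity
  nlinarith

theorem cY_mono (n s : ℕ) {S S' : ℕ → ℕ → Prop} (h : ∀ x y : ℕ, S x y → S' x y) : cY n s S ≤ cY n s S' := by
  classical
  unfold cY
  refine sum_le_sum_of_subset ?_
  intro κ hκ
  rw [mem_filter] at hκ ⊢
  exact ⟨hκ.1, h _ _ hκ.2⟩

theorem cY_add (n s : ℕ) {S S' S'' : ℕ → ℕ → Prop} (h : ∀ x y : ℕ, S x y → S' x y ∨ S'' x y) :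
    cY n s S ≤ cY n s S' + cY n s S'' := by
  classical
  unfold cY
  rw [sum_filter, sum_filter, sum_filter, ← sum_add_distrib]
  refine sum_le_sum fun κ _ => ?_
  have h1 := h (κ 0) (κ 1)
  by_cases hS : S (κ 0) (κ 1)
  · rw [if_pos hS]
    rcases h1 hS with h2 | h2
    · rw [if_pos h2]
      exact Nat.le_add_right _ _
    · rw [if_pos h2]
      exact Nat.le_add_left _ _
  · rw [if_neg hS]
    exact Nat.zero_le _

end PPE
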