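import Mathlib

/-!
Block E of MP_28250c_PP (helper69): definitions. Partitions as functions `ℕ → ℕ`, numbers of ballot words.
-/

set_option autoImplicit false

namespace PPE
open Finset

/-- Partitions of `k`. -/
def IsPar (k : ℕ) (κ : ℕ → ℕ) : Prop := Antitone κ ∧ (∀ i, k ≤ i → κ i = 0) ∧ ∑ i ∈ range k, κ i = k

theorem isPar_finite (k : ℕ) : {κ : ℕ → ℕ | IsPar k κ}.Finite := by
  classical
  have h : Set.InjOn (fun κ : ℕ → ℕ => fun i : Fin k => κ i) {κ : ℕ → ℕ | IsPar k κ} := by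
    intro κ hκ μ hμ h
    funext i
    by_cases hi : i < k
    · exact congrFun h ⟨i, hi⟩
    · rw [hκ.2.1 i (not_lt.mp hi), hμ.2.1 i (not_lt.mp hi)]
  refine Set.Finite.of_finite_image ?_ h
  refine Set.Finite.subset (Set.Finite.pi (ι := Fin k) (t := fun _ => Set.Iic k) (fun _ => Set.finite_Iic k)) ?_
  rintro _ ⟨κ, hκ, rfl⟩
  intro i _
  show κ i ≤ k
  calc κ i ≤ ∑ i ∈ range k, κ i := single_le_sum (fun _ _ => Nat.zero_le _) (mem_range.mpr i.2)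
    _ = k := hκ.2.2

/-- The finite set of the partitions of `k`. -/
noncomputable def Par (k : ℕ) : Finset (ℕ → ℕ) := (isPar_finite k).toFinset

theorem mem_Par {k : ℕ} {κ : ℕ → ℕ} : κ ∈ Par k ↔ IsPar k κ := Set.Finite.mem_toFinset _

/-- Add a box in row `i`. -/
def inc (κ : ℕ → ℕ) (i : ℕ) : ℕ → ℕ := Function.update κ i (κ i + 1)

/-- Remove a box from row `i`. -/
def dec (κ : ℕ → ℕ) (i : ℕ) : ℕ → ℕ := Function.update κ i (κ i - 1)

/-- Add `s` boxes in row `0`. -/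
def sh (κ : ℕ → ℕ) (s : ℕ) : ℕ → ℕ := Function.update κ 0 (κ 0 + s)

/-- Rows of a partition of `k` in which a box can be added. -/
def addS (k : ℕ) (κ : ℕ → ℕ) : Finset ℕ := (range (k + 1)).filter fun i => i = 0 ∨ κ i < κ (i - 1)

/-- Rows of a partition of `k` from which a box can be removed. -/
def remS (k : ℕ) (κ : ℕ → ℕ) : Finset ℕ := (range k).filter fun i => κ (i + 1) < κ i

/-- Number of ballot words with content `κ` (`κ` a partition of `k`). -/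
def fY : ℕ → (ℕ → ℕ) → ℕ
  | 0, _ => 1
  | k + 1, κ => ∑ i ∈ remS (k + 1) κ, fY k (dec κ i)

/-- The number of ballot pairs (`PPh.cnt (n + s) n S`) in terms of partitions. -/
noncomputable def cY (n s : ℕ) (S : ℕ → ℕ → Prop) : ℕ := by
  classical
  exact ∑ κ ∈ (Par n).filter (fun κ => S (κ 0) (κ 1)), fY n κ * fY (n + s) (sh κ s)

/-- Exponential of the content of the box added in row `i`. -/
noncomputable def ps (θ : ℝ) (κ : ℕ → ℕ) (i : ℕ) : ℝ := Real.exp (θ * ((κ i : ℝ) - i))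

/-- `T_κ`. -/
noncomputable def TT (θ : ℝ) (k : ℕ) (κ : ℕ → ℕ) : ℝ := ∑ i ∈ addS k κ, ps θ κ i * fY (k + 1) (inc κ i)

/-- `W_κ`: addable minus removable. -/
noncomputable def WW (θ : ℝ) (k : ℕ) (κ : ℕ → ℕ) : ℝ :=
  ∑ i ∈ addS k κ, ps θ κ i - ∑ i ∈ remS k κ, Real.exp (θ * ((κ i : ℝ) - 1 - i))

/-- Sum over the boxes. -/
noncomputable def BB (θ : ℝ) (k : ℕ) (κ : ℕ → ℕ) : ℝ := ∑ i ∈ range k, ∑ c ∈ range (κ i), Real.exp (θ * ((c : ℝ) - i))

/-- `a_k`. -/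
noncomputable def aa (θ : ℝ) (k : ℕ) : ℝ := (∑ κ ∈ Par k, (fY k κ : ℝ) * TT θ k κ) / (k + 1).factorial

/-- `Φ_k`. -/
noncomputable def Phi (θ : ℝ) (k : ℕ) : ℝ := (∑ κ ∈ Par k, (fY k κ : ℝ) ^ 2 * Real.exp (θ * κ 0)) / k.factorial

/-- `Φ2_k`. -/
noncomputable def Phi2 (θ : ℝ) (k : ℕ) : ℝ :=
  (∑ κ ∈ Par k, (fY k κ : ℝ) ^ 2 * Real.exp (θ * (κ 0 + κ 1))) / k.factorial

/-- `c_k`. -/
noncomputable def cc (θ : ℝ) (k : ℕ) : ℝ :=
  (Real.exp (θ / 2) * ∑ κ ∈ Par k, Real.exp (θ * κ 0) * fY k κ * fY (k + 1) (inc κ 0)) /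
    (Real.sqrt (k.factorial * Phi θ k) * Real.sqrt ((k + 1).factorial * Phi θ (k + 1)))

end PPE
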