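import Pool.Agent.H69.PP.PH
import Pool.Agent.H69.PP.AL

/-!
Row PPE_GN (block E of MP_28250c_PP). A good block `[n, n+s)`.

Proof. `σ = sinh (θ/2) > 0`. By `sum_defect` and `phi_lower` (at `k = N`): `∑_{k<N} 2 σ (1 - cc θ k)/√(k+1) ≤ 4 log N`; as
`√(k+1) ≤ √N` and `1 - cc ≥ 0` (`cc_le_one`): `∑_{k<N} (1 - cc θ k) ≤ 2 √N log N/σ`. Let `n_j = (N+1)/2 + j s`, `j < J := (N/2)/s`:
disjoint blocks `Ico n_j (n_j + s)` inside `[N/2, N)` (`(N+1)/2 + (N/2) = N`), `J ≥ N/(3s)` as `6 s + 3 ≤ N`. If every block had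
sum `> 1/(2s)` then `J/(2s) < 2 √N log N/σ`, so `N/(6 s^2) < 2 √N log N/σ`, i.e. `σ √N < 12 s^2 log N`, a contradiction.
(The sum over the union of the blocks: induction on `J`, `Finset.sum_Ico_consecutive`.)
-/

set_option autoImplicit false

namespace PPE
open Finset

theorem GN_sum {θ : ℝ} (hθ : 0 < θ) (hσ : Real.sinh (θ / 2) ≤ 1 / 3) {N : ℕ} (hN : 9 ≤ N)
    (hx : 1 ≤ 2 * Real.sinh (θ / 2) * Real.sqrt N) :
    Real.sinh (θ / 2) * ∑ k ∈ range N, (1 - cc θ k) ≤ 2 * Real.sqrt N * Real.log N := by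
  have hs0 : 0 < Real.sinh (θ / 2) := Real.sinh_pos_iff.mpr (by linarith)
  obtain ⟨σ, hσd⟩ : ∃ σ : ℝ, σ = Real.sinh (θ / 2) := ⟨_, rfl⟩
  rw [← hσd] at hs0 hσ hx ⊢
  have hNr : (0 : ℝ) < N := by
    have : 0 < N := by omega
    exact_mod_cast this
  have hq : 0 < Real.sqrt N := Real.sqrt_pos.mpr hNr
  have h1 := sum_defect hθ.le N
  have h2 := phi_lower hθ (by rw [← hσd]; exact hσ) hN (by rw [← hσd]; exact hx)
  rw [← hσd] at h1 h2
  have h3 : ∑ k ∈ range N, 2 * σ * (1 - cc θ k) / Real.sqrt N ≤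
      ∑ k ∈ range N, 2 * σ * (1 - cc θ k) / Real.sqrt (k + 1) := by
    refine sum_le_sum fun k hk => ?_
    have hkN : (k : ℝ) + 1 ≤ N := by
      have := mem_range.mp hk
      exact_mod_cast this
    have h4 : Real.sqrt ((k : ℝ) + 1) ≤ Real.sqrt N := Real.sqrt_le_sqrt hkN
    have h5 : 0 < Real.sqrt ((k : ℝ) + 1) := Real.sqrt_pos.mpr (by positivity)
    have h6 : 0 ≤ 2 * σ * (1 - cc θ k) := by
      have := cc_le_one hθ.le k
      exact mul_nonneg (by linarith) (by linarith)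
    exact div_le_div_of_nonneg_left h6 h5 h4
  have h7 : ∑ k ∈ range N, 2 * σ * (1 - cc θ k) / Real.sqrt N =
      2 * (σ * ∑ k ∈ range N, (1 - cc θ k)) / Real.sqrt N := by
    rw [← sum_div, ← mul_sum]
    ring
  have h8 : 2 * (σ * ∑ k ∈ range N, (1 - cc θ k)) / Real.sqrt N ≤ 4 * Real.log N := by
    rw [← h7]
    linarith
  rw [div_le_iff₀ hq] at h8
  linarith

theorem GN_blocks (f : ℕ → ℝ) (N s : ℕ) (c : ℝ)
    (h : ∀ n : ℕ, N / 2 ≤ n → n + s ≤ N → c ≤ ∑ k ∈ Ico n (n + s), f k) (j : ℕ)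
    (hj : (N + 1) / 2 + j * s ≤ N) :
    (j : ℝ) * c ≤ ∑ k ∈ Ico ((N + 1) / 2) ((N + 1) / 2 + j * s), f k := by
  induction j with
  | zero => simp
  | succ j ih =>
    have e : (N + 1) / 2 + (j + 1) * s = (N + 1) / 2 + j * s + s := by ring
    have h1 := ih (by rw [e] at hj; omega)
    have h2 := h ((N + 1) / 2 + j * s) (by omega) (by rw [← e]; exact hj)
    rw [e, ← sum_Ico_consecutive f (Nat.le_add_right _ _) (Nat.le_add_right _ s)]
    push_cast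
    linarith

theorem good_n {θ : ℝ} (hθ : 0 < θ) (hσ : Real.sinh (θ / 2) ≤ 1 / 3) {N s : ℕ} (hs : 1 ≤ s) (hN : 6 * s + 3 ≤ N)
    (hx : 1 ≤ 2 * Real.sinh (θ / 2) * Real.sqrt N)
    (h : 12 * (s : ℝ) ^ 2 * Real.log N ≤ Real.sinh (θ / 2) * Real.sqrt N) :
    ∃ n : ℕ, N / 2 ≤ n ∧ n + s ≤ N ∧ ∑ k ∈ Ico n (n + s), (1 - cc θ k) ≤ 1 / (2 * s) := by
  by_contra hcon
  push Not at hcon
  have hs0 : 0 < Real.sinh (θ / 2) := Real.sinh_pos_iff.mpr (by linarith)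
  have hsr : (1 : ℝ) ≤ s := by exact_mod_cast hs
  have hNr : (0 : ℝ) < N := by
    have : 0 < N := by omega
    exact_mod_cast this
  have hq : 0 < Real.sqrt N := Real.sqrt_pos.mpr hNr
  have hqq : Real.sqrt N * Real.sqrt N = N := Real.mul_self_sqrt hNr.le
  obtain ⟨J, hJ⟩ : ∃ J : ℕ, J = (N / 2) / s := ⟨_, rfl⟩
  have hJs : J * s ≤ N / 2 := by rw [hJ]; exact Nat.div_mul_le_self _ _
  have hJ2 : N < 3 * (J * s) := by
    have h1 : N / 2 < (J + 1) * s := by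
      rw [hJ]
      have h0 := Nat.div_add_mod (N / 2) s
      have h00 := Nat.mod_lt (N / 2) (show 0 < s by omega)
      have e0 : (N / 2 / s + 1) * s = s * (N / 2 / s) + s := by ring
      omega
    have h2 : (J + 1) * s = J * s + s := by ring
    omega
  have hend : (N + 1) / 2 + J * s ≤ N := by omega
  have h1 := GN_blocks (fun k => 1 - cc θ k) N s (1 / (2 * s)) (fun n h1 h2 => (hcon n h1 h2).le) J hend
  have h2 : ∑ k ∈ Ico ((N + 1) / 2) ((N + 1) / 2 + J * s), (1 - cc θ k) ≤ ∑ k ∈ range N, (1 - cc θ k) := by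
    refine sum_le_sum_of_subset_of_nonneg ?_ ?_
    · intro k hk
      rw [mem_range]
      have := (mem_Ico.mp hk).2
      omega
    · intro k _ _
      have := cc_le_one hθ.le k
      linarith
  have h3 := GN_sum hθ hσ (by omega) hx
  obtain ⟨σ, hσd⟩ : ∃ σ : ℝ, σ = Real.sinh (θ / 2) := ⟨_, rfl⟩
  obtain ⟨T, hT⟩ : ∃ T : ℝ, T = ∑ k ∈ range N, (1 - cc θ k) := ⟨_, rfl⟩
  obtain ⟨q, hqd⟩ : ∃ q : ℝ, q = Real.sqrt N := ⟨_, rfl⟩
  obtain ⟨lg, hlg⟩ : ∃ lg : ℝ, lg = Real.log N := ⟨_, rfl⟩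
  have h4 : (J : ℝ) * (1 / (2 * s)) ≤ T := by
    rw [hT]
    exact h1.trans h2
  rw [← hσd, ← hT, ← hqd, ← hlg] at h3
  rw [← hσd, ← hqd, ← hlg] at h
  rw [← hσd] at hs0
  rw [← hqd] at hqq hq
  have hJr : (N : ℝ) < 3 * (J * s) := by exact_mod_cast hJ2
  have hs2 : (0 : ℝ) < s := by linarith
  have h5 : (J : ℝ) ≤ T * (2 * s) := by
    have := mul_le_mul_of_nonneg_right h4 (by positivity : (0 : ℝ) ≤ 2 * s)
    have e : (J : ℝ) * (1 / (2 * s)) * (2 * s) = J := by field_simp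
    linarith
  -- N < 6 s^2 T
  have h6 : (N : ℝ) < 6 * (s : ℝ) ^ 2 * T := by
    have := mul_le_mul_of_nonneg_right h5 hs2.le
    have e : T * (2 * s) * s = 2 * (s : ℝ) ^ 2 * T := by ring
    linarith
  -- sigma N < 6 s^2 sigma T <= 12 s^2 q lg
  have h7 : σ * N < σ * (6 * (s : ℝ) ^ 2 * T) := mul_lt_mul_of_pos_left h6 hs0
  have h8 : 6 * (s : ℝ) ^ 2 * (σ * T) ≤ 6 * (s : ℝ) ^ 2 * (2 * q * lg) :=
    mul_le_mul_of_nonneg_left h3 (by positivity)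
  have h9 : 12 * (s : ℝ) ^ 2 * lg * q ≤ σ * q * q := mul_le_mul_of_nonneg_right h hq.le
  have h10 : σ * q * q = σ * N := by rw [mul_assoc, hqq]
  have e1 : σ * (6 * (s : ℝ) ^ 2 * T) = 6 * (s : ℝ) ^ 2 * (σ * T) := by ring
  have e2 : 6 * (s : ℝ) ^ 2 * (2 * q * lg) = 12 * (s : ℝ) ^ 2 * lg * q := by ring
  linarith

end PPE
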