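import Pool.Agent.H69.PP.EDefs

/-!
Row PPE_LA (block E of MP_28250c_PP). Basic facts about partitions `κ : ℕ → ℕ`, boxes, and the exchange of summation.

Proofs.
* `Par_zero`: `IsPar 0 κ` says `κ i = 0` for all `i`.
* `par_le`: `κ i ≤ ∑ j ∈ range k, κ j = k` for `i < k`, and `κ i = 0` for `i ≥ k`.
* `inc_mem`: row `i` is `0` or `κ i < κ (i-1)`, so `inc κ i` is antitone (`antitone_nat_of_succ_le`); `i ≤ k`, the sum over
  `range (k+1)` grows by one (`sum_update_of_mem` or `sum_range` manipulations), and `(inc κ i) j = 0` for `j ≥ k + 1 > i`.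
* `dec_mem`: dual, `μ (i+1) < μ i`, so `μ i ≥ 1`; also `(dec μ i) k = 0`: if `k ≠ i` then `μ k = 0`?  For `μ` a partition of
  `k+1` with `μ k ≥ 1` all `μ 0, .., μ k ≥ 1` and the sum `k+1` forces all `= 1` and `μ (k+1) = 0`; so the only removable row is
  `k` and `dec μ k` vanishes at `k`.  If `μ k = 0` nothing is to be shown.
* `exch`: both sides are sums over pairs; bijection `(κ, i) ↦ (inc κ i, i)`, inverse `(μ, i) ↦ (dec μ i, i)`
  (`Finset.sum_sigma'`, `Finset.sum_bij'` or `sum_nbij'`).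
* `sh_mem`: adding `s` boxes in row `0` (induction with `inc`, or directly).
-/

set_option autoImplicit false

namespace PPE
open Finset

theorem Par_zero : Par 0 = {fun _ => 0} := by
  ext κ
  rw [mem_Par, mem_singleton]
  constructor
  · intro h
    funext i
    exact h.2.1 i (Nat.zero_le _)
  · rintro rfl
    exact ⟨fun _ _ _ => le_rfl, fun _ _ => rfl, by simp⟩

theorem par_le {k : ℕ} {κ : ℕ → ℕ} (hκ : κ ∈ Par k) (i : ℕ) : κ i ≤ k := by
  rw [mem_Par] at hκ
  by_cases hi : i < k
  · calc κ i ≤ ∑ i ∈ range k, κ i := single_le_sum (fun _ _ => Nat.zero_le _) (mem_range.mpr hi)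
      _ = k := hκ.2.2
  · rw [hκ.2.1 i (not_lt.mp hi)]
    exact Nat.zero_le _

theorem zero_mem_addS (k : ℕ) (κ : ℕ → ℕ) : 0 ∈ addS k κ := by
  unfold addS
  rw [mem_filter, mem_range]
  exact ⟨Nat.succ_pos _, Or.inl rfl⟩

theorem dec_inc (κ : ℕ → ℕ) (i : ℕ) : dec (inc κ i) i = κ := by
  unfold dec inc
  funext j
  by_cases h : j = i
  · subst h
    simp
  · simp [Function.update_of_ne h]

theorem inc_dec {μ : ℕ → ℕ} {i : ℕ} (h : 0 < μ i) : inc (dec μ i) i = μ := by
  unfold dec inc
  funext j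
  by_cases hj : j = i
  · subst hj
    simp
    omega
  · simp [Function.update_of_ne hj]

private theorem LA_sum_update (κ : ℕ → ℕ) (i m v : ℕ) (hi : i < m) :
    ∑ j ∈ range m, Function.update κ i v j + κ i = ∑ j ∈ range m, κ j + v := by
  rw [← add_sum_erase (range m) (Function.update κ i v) (mem_range.mpr hi),
    ← add_sum_erase (range m) κ (mem_range.mpr hi), Function.update_self]
  have h1 : ∑ j ∈ (range m).erase i, Function.update κ i v j = ∑ j ∈ (range m).erase i, κ j := by
    refine sum_congr rfl fun j hj => ?_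
    rw [Function.update_of_ne (ne_of_mem_erase hj)]
  rw [h1]
  ring

theorem inc_mem {k i : ℕ} {κ : ℕ → ℕ} (hκ : κ ∈ Par k) (hi : i ∈ addS k κ) : inc κ i ∈ Par (k + 1) := by
  rw [mem_Par] at hκ ⊢
  unfold addS at hi
  rw [mem_filter, mem_range] at hi
  obtain ⟨hi1, hi2⟩ := hi
  refine ⟨?_, ?_, ?_⟩
  · refine antitone_nat_of_succ_le fun j => ?_
    unfold inc
    have h1 : κ (j + 1) ≤ κ j := hκ.1 (Nat.le_succ j)
    by_cases h : j + 1 = i
    · subst h
      rw [Function.update_self, Function.update_of_ne (by omega)]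
      rcases hi2 with h2 | h2
      · omega
      · simpa using h2
    · rw [Function.update_of_ne h]
      by_cases h' : j = i
      · subst h'
        rw [Function.update_self]
        omega
      · rw [Function.update_of_ne h']
        exact h1
  · intro j hj
    unfold inc
    rw [Function.update_of_ne (by omega)]
    exact hκ.2.1 j (by omega)
  · have h1 := LA_sum_update κ i (k + 1) (κ i + 1) (by omega)
    have h2 : ∑ j ∈ range (k + 1), κ j = k := by
      rw [sum_range_succ, hκ.2.2, hκ.2.1 k le_rfl]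
      rfl
    unfold inc
    omega

private theorem LA_sum_ge {μ : ℕ → ℕ} (hμ : Antitone μ) (k : ℕ) (h : 1 ≤ μ k) (m : ℕ) (hm : m ≤ k + 1) :
    m ≤ ∑ j ∈ range m, μ j := by
  calc m = ∑ _j ∈ range m, 1 := by simp
    _ ≤ _ := sum_le_sum fun j hj => h.trans (hμ (by have := mem_range.mp hj; omega))

theorem dec_mem {k i : ℕ} {μ : ℕ → ℕ} (hμ : μ ∈ Par (k + 1)) (hi : i ∈ remS (k + 1) μ) : dec μ i ∈ Par k := by
  rw [mem_Par] at hμ ⊢
  unfold remS at hi
  rw [mem_filter, mem_range] at hi
  obtain ⟨hi1, hi2⟩ := hi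
  have hdk : dec μ i k = 0 := by
    unfold dec
    by_cases h0 : μ k = 0
    · by_cases hik : k = i
      · subst hik
        rw [Function.update_self, h0]
      · rw [Function.update_of_ne hik, h0]
    · -- all ones
      have h1 : ∑ j ∈ range k, μ j + μ k = k + 1 := by rw [← sum_range_succ]; exact hμ.2.2
      have h2 := LA_sum_ge hμ.1 k (by omega) k (by omega)
      have h3 : μ k = 1 := by omega
      have hik : k = i := by
        by_contra hne
        have hlt : i < k := by omega
        have h4 : μ k ≤ μ (i + 1) := hμ.1 (by omega)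
        have h5 : 2 ≤ μ i := by omega
        have h6 : ∑ j ∈ range k, μ j = k := by omega
        have h7 : ∑ _j ∈ range k, 1 < ∑ j ∈ range k, μ j := by
          refine sum_lt_sum (fun j hj => ?_) ⟨i, mem_range.mpr hlt, by omega⟩
          have : μ k ≤ μ j := hμ.1 (by have := mem_range.mp hj; omega)
          omega
        simp at h7
        omega
      subst hik
      rw [Function.update_self, h3]
  refine ⟨?_, ?_, ?_⟩
  · refine antitone_nat_of_succ_le fun j => ?_
    unfold dec
    have h1 : μ (j + 1) ≤ μ j := hμ.1 (Nat.le_succ j)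
    by_cases h : j = i
    · subst h
      rw [Function.update_self, Function.update_of_ne (by omega)]
      omega
    · rw [Function.update_of_ne h]
      by_cases h' : j + 1 = i
      · rw [h', Function.update_self]
        rw [h'] at h1
        omega
      · rw [Function.update_of_ne h']
        exact h1
  · intro j hj
    rcases Nat.eq_or_lt_of_le hj with h | h
    · rw [← h]
      exact hdk
    · unfold dec
      rw [Function.update_of_ne (by omega)]
      exact hμ.2.1 j h
  · have h1 := LA_sum_update μ i (k + 1) (μ i - 1) (by omega)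
    have h2 : ∑ j ∈ range (k + 1), dec μ i j = ∑ j ∈ range k, dec μ i j := by
      rw [sum_range_succ, hdk]
      rfl
    have h3 : ∑ j ∈ range (k + 1), dec μ i j = ∑ j ∈ range (k + 1), Function.update μ i (μ i - 1) j := rfl
    have h4 := hμ.2.2
    omega

theorem rem_inc {k i : ℕ} {κ : ℕ → ℕ} (hκ : κ ∈ Par k) (hi : i ∈ addS k κ) : i ∈ remS (k + 1) (inc κ i) := by
  rw [mem_Par] at hκ
  unfold addS at hi
  unfold remS inc
  rw [mem_filter, mem_range] at hi ⊢
  refine ⟨hi.1, ?_⟩
  rw [Function.update_self, Function.update_of_ne (by omega)]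
  have h1 : κ (i + 1) ≤ κ i := hκ.1 (Nat.le_succ i)
  omega

theorem add_dec {k i : ℕ} {μ : ℕ → ℕ} (hμ : μ ∈ Par (k + 1)) (hi : i ∈ remS (k + 1) μ) : i ∈ addS k (dec μ i) := by
  rw [mem_Par] at hμ
  unfold remS at hi
  unfold addS dec
  rw [mem_filter, mem_range] at hi ⊢
  refine ⟨hi.1, ?_⟩
  by_cases h0 : i = 0
  · exact Or.inl h0
  · right
    rw [Function.update_self, Function.update_of_ne (by omega)]
    have h1 : μ i ≤ μ (i - 1) := hμ.1 (Nat.sub_le _ _)
    omega

theorem exch (k : ℕ) (F : (ℕ → ℕ) → ℕ → ℝ) :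
    ∑ κ ∈ Par k, ∑ i ∈ addS k κ, F κ i = ∑ μ ∈ Par (k + 1), ∑ i ∈ remS (k + 1) μ, F (dec μ i) i := by
  rw [sum_sigma', sum_sigma']
  refine sum_bij' (fun p _ => (⟨inc p.1 p.2, p.2⟩ : (_ : ℕ → ℕ) × ℕ)) (fun p _ => (⟨dec p.1 p.2, p.2⟩ : (_ : ℕ → ℕ) × ℕ))
    ?_ ?_ ?_ ?_ ?_
  · rintro ⟨κ, i⟩ h
    rw [mem_sigma] at h ⊢
    exact ⟨inc_mem h.1 h.2, rem_inc h.1 h.2⟩
  · rintro ⟨μ, i⟩ h
    rw [mem_sigma] at h ⊢
    exact ⟨dec_mem h.1 h.2, add_dec h.1 h.2⟩
  · rintro ⟨κ, i⟩ h
    simp only [dec_inc]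
  · rintro ⟨μ, i⟩ h
    rw [mem_sigma] at h
    have h2 : 0 < μ i := by
      have := h.2
      unfold remS at this
      rw [mem_filter] at this
      have := this.2
      simp only at this
      omega
    simp only [inc_dec h2]
  · rintro ⟨κ, i⟩ h
    simp only [dec_inc]

theorem sh_zero (κ : ℕ → ℕ) : sh κ 0 = κ := by
  unfold sh
  simp

theorem sh_succ (κ : ℕ → ℕ) (s : ℕ) : sh κ (s + 1) = inc (sh κ s) 0 := by
  unfold sh inc
  simp
  ring_nf

theorem sh_inc (κ : ℕ → ℕ) (s : ℕ) : sh (inc κ 0) s = sh κ (s + 1) := by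
  unfold sh inc
  simp
  ring_nf

theorem sh_mem {n : ℕ} {κ : ℕ → ℕ} (s : ℕ) (hκ : κ ∈ Par n) : sh κ s ∈ Par (n + s) := by
  induction s with
  | zero => rw [sh_zero]; exact hκ
  | succ s ih =>
    rw [sh_succ]
    exact inc_mem ih (zero_mem_addS _ _)

end PPE
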