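import Pool.Agent.H69.PP.MDz

/-!
Row PPE_MD (block E of MP_28250c_PP). The deterministic main statement of block E.

Proof. `θ := 1/L`, `σ := sinh (θ/2)`, `σ' := sinh (θ/4)`, `ℓ := log N`. `1/(2L) ≤ σ ≤ 1/3` (`Real.self_le_sinh_iff`; `L ≥ 2`:
`sinh (1/4) ≤ 1/3`), `√(N/2) ≥ L` (h3), so `2 σ √k ≥ 1` for `k ≥ N/2` (real), and `12 s^2 ℓ ≤ √N/(2L) ≤ σ √N` (h2).
`good_n` gives `n` with `N/2 ≤ n` (natural division, so `N ≤ 2n + 1`; even `N ≤ 2 n` as `N` is even, hypothesis `hev`), `n + s ≤ N`;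
`ex_r` gives `r ≤ n`, `a_r := cY n s (x = r)` with `Z := ZZ θ n s ≤ 2 (n+1) exp (θ r) a_r`. `n ≥ 50`.
(1) `log Φ_n ≥ 4 σ √n - 4 ℓ` (`phi_lower`, `log n ≤ ℓ`); `Φ_(n+s) ≥ Φ_n` (`Phi_mono`), so
    `Z ≥ exp (-(θ s/2)) F exp (4 σ √n - 4 ℓ)`, `F := √(n!) √((n+s)!)`.
(2) `√(n+s) ≤ √n + 1/2` as `s ≤ √n` (`2 s^2 ≤ N`, hN).
(3) `r` large: `cY_le1` with `θ/2`: `a_r ≤ exp (-(θ r/2)) ZZ (θ/2) n s ≤ exp (-(θ r/2)) exp (-(θ s/4)) F exp (4 σ' √(n+s))` (`log_Phi_le`: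
    `√(Φ_n Φ_(n+s)) ≤ exp (2 σ' √n + 2 σ' √(n+s))`). With (1) and `Z ≤ 2 (n+1) exp (θ r) a_r`:
    `θ r/2 ≥ 4 σ √n - 4 σ' √(n+s) - 4 ℓ - log (2 (n+1)) - θ s/4`, so
    `θ r ≥ 8 (σ - σ') √n - 4 σ' - 8 ℓ - 2 log (2 (n+1)) - θ s/2`.
    `4 σ - 8 σ' = 8 sinh y (cosh y - 1) ≥ 4 y^3 = θ^3/16`, `y = θ/4` (`sinh y ≥ y`, `cosh y ≥ 1 + y^2/2`: `Real.one_add_sq_div_two_le_cosh`
    or similar), so `θ r ≥ 4 σ √n + θ^3 √n/16 - 4 σ' - 8 ℓ - 2 log (2 (n+1)) - θ s/2 ≥ 4 σ √n ≥ 2 θ √n` by (h6). So `r ≥ 2 √n ≥ L`.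
(4) gap: for `S`: `r ≤ x + k`, `x < y + g0`, `k < L`: `x + y ≥ 2 r - 2 L - g0 =: t`. `cY_le2` and `log_Phi2_le`
    (`√(Φ2_n Φ2_(n+s)) ≤ exp (4 σ √n + 4 σ √(n+s)) ≤ exp (8 σ √n + 2 σ)`): `gap ≤ exp (-(θ t)) exp (-(θ s/2)) F exp (8 σ √n + 2 σ)`. With (1):
    `gap ≤ 2 (n+1) a_r exp (8 σ √n + 2 σ - 4 σ √n + 4 ℓ - θ t + θ r)`, `- θ t + θ r = - θ r + 2 + θ g0` (`θ L = 1`). By (3) the exponent is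
    `≤ 12 ℓ + 2 log (2 (n+1)) - θ^3 √n/16 + 4 σ' + 2 σ + θ s/2 + 2 + θ g0`, so `gap ≤ a_r exp (18 ℓ + 6 + s + g0 - θ^3 √n/16)`
    (`log (2 (n+1)) ≤ 2 ℓ`; `4 σ' + 2 σ + 2 ≤ 4`). By (h6) (`√n ≥ √(N/2)`): `gap ≤ a_r exp (-L - 2) ≤ a_r exp (-(L/2))/4`.
(5) top: `r + K ≤ x + k + 1`, `k < L`: `x ≥ r + K - L`; `cY_le1`: `top ≤ exp (-(θ (r + K - L))) Z ≤ exp (1 - θ K) 2 (n+1) a_r`,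
    `θ K ≥ L` (`L * L ≤ K`), so `top ≤ 2 e (N+1) exp (-L) a_r ≤ exp (-(L/2)) a_r/4` by (h5).
(6) `B := cY n s (r ≤ x, x + 2 ≤ r + K, y + g0 ≤ x) ≥ a_r - gap ≥ a_r/2` (`cY_add`: `x = r` implies one of `B`'s set (`K ≥ 2`) or the gap set with
    `k = 0`). So `2^(L/2) (top + gap) ≤ exp (L/2) (1/4 + 1/4) exp (-(L/2)) a_r = a_r/2 ≤ B` (`2^(L/2)` natural division `≤ exp (L/2)`).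
(7) window: `x ≥ r - k ≥ r - L`: `cY_le1`: `≤ exp (-(θ (r-L))) Z ≤ e 2 (n+1) a_r ≤ 4 e (N+1) B ≤ N^3 B`.
(8) `B ≥ a_r/2 ≥ exp (-(θ r)) Z/(4 (n+1)) ≥ n! exp (-(θ s/2) - θ n)/(4 (n+1))` (`Φ ≥ 1`, `(n+s)! ≥ n!`); `θ ≤ 1/2`, `s ≤ n`, `n! ≥ (n/3)^n`
    (`Nat.factorial_lt`.. or `exp n ≥ n^n/n!`: `n! ≥ n^n exp (-n)`), so `B ≥ (n/e)^n exp (-n)/(4 (n+1)) ≥ 2^(n/2)` for `n ≥ 50`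
    (`n/e^2 ≥ 50/7.4 ≥ 6.7`, `6.7^n ≥ 4 (n+1) 2^n`).
-/

set_option autoImplicit false

namespace PPE
open Finset

theorem main_det (N s K g0 L : ℕ) (hL : 2 ≤ L) (hKL : L * L ≤ K) (hs : 1 ≤ s) (hev : 2 ∣ N) (hN0 : 100 ≤ N)
    (hN1 : 6 * s + 3 ≤ N) (hN : 2 * s ^ 2 ≤ N) (h3 : 2 * L ^ 2 ≤ N)
    (h2 : 24 * (L : ℝ) * (s : ℝ) ^ 2 * Real.log N ≤ Real.sqrt N)
    (h5 : 8 * Real.exp 1 * ((N : ℝ) + 1) ≤ Real.exp ((L : ℝ) / 2))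
    (h6 : 18 * Real.log N + 8 + s + g0 + L ≤ Real.sqrt ((N : ℝ) / 2) / (16 * (L : ℝ) ^ 3)) :
    ∃ n r : ℕ, N ≤ 2 * n ∧ n ≤ N ∧ L ≤ r ∧ r ≤ n ∧
      2 ^ (n / 2) ≤ cY n s (fun x y => r ≤ x ∧ x + 2 ≤ r + K ∧ y + g0 ≤ x) ∧
      (∀ k ≤ L, cY n s (fun x _ => r - k ≤ x ∧ x < r - k + s) ≤
        N ^ 3 * cY n s (fun x y => r ≤ x ∧ x + 2 ≤ r + K ∧ y + g0 ≤ x)) ∧
      ∀ k < L, 2 ^ (L / 2) * (cY n s (fun x _ => r + K ≤ x + k + 1) + cY n s (fun x y => r ≤ x + k ∧ x < y + g0)) ≤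
        cY n s (fun x y => r ≤ x ∧ x + 2 ≤ r + K ∧ y + g0 ≤ x) :=
  main_det' N s K g0 L hL hKL hs hev hN0 hN1 hN h3 h2 h5 h6

end PPE
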