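import Mathlib

set_option autoImplicit false

namespace PPE
open Finset

theorem md8 (n : ℕ) (hn : 50 ≤ n) : 4 * ((n : ℝ) + 1) * 2 ^ n ≤ (n.factorial : ℝ) * Real.exp (-n) := by
  induction n, hn using Nat.le_induction with
  | base =>
    have h1 : Real.exp (-((50 : ℕ) : ℝ)) = (Real.exp (-1)) ^ 50 := by
      rw [← Real.exp_nat_mul]
      norm_num
    rw [h1]
    have h2 : (1 : ℝ) / 4 ≤ Real.exp (-1) := by
      have := Real.exp_neg_one_gt_d9
      linarith
    have h3 : ((1 : ℝ) / 4) ^ 50 ≤ Real.exp (-1) ^ 50 := pow_le_pow_left₀ (by norm_num) h2 50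
    have h4 : (4 : ℝ) * (((50 : ℕ) : ℝ) + 1) * 2 ^ 50 ≤ ((Nat.factorial 50 : ℕ) : ℝ) * ((1 : ℝ) / 4) ^ 50 := by
      norm_num [Nat.factorial]
    exact h4.trans (mul_le_mul_of_nonneg_left h3 (Nat.cast_nonneg _))
  | succ n hn ih =>
    have h1 : Real.exp (-((n + 1 : ℕ) : ℝ)) = Real.exp (-n) * Real.exp (-1) := by
      rw [← Real.exp_add]
      congr 1
      push_cast
      ring
    rw [h1, Nat.factorial_succ]
    have h2 : (1 : ℝ) / 4 ≤ Real.exp (-1) := by
      have := Real.exp_neg_one_gt_d9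
      linarith
    have hn' : (50 : ℝ) ≤ n := by exact_mod_cast hn
    have h3 : (0 : ℝ) ≤ (n.factorial : ℝ) * Real.exp (-n) := by positivity
    push_cast
    have h4 : 4 * ((n : ℝ) + 1 + 1) * 2 ^ (n + 1) ≤ 4 * (4 * ((n : ℝ) + 1) * 2 ^ n) := by
      have h5 : (0 : ℝ) < 2 ^ n := by positivity
      rw [pow_succ]
      nlinarith
    have h6 : 4 * ((n.factorial : ℝ) * Real.exp (-n)) ≤ ((n : ℝ) + 1) * n.factorial * (Real.exp (-n) * Real.exp (-1)) := by
      have h7 : (4 : ℝ) ≤ ((n : ℝ) + 1) * Real.exp (-1) := by nlinarith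
      calc 4 * ((n.factorial : ℝ) * Real.exp (-n)) ≤ (((n : ℝ) + 1) * Real.exp (-1)) * ((n.factorial : ℝ) * Real.exp (-n)) :=
            mul_le_mul_of_nonneg_right h7 h3
        _ = _ := by ring
    linarith

end PPE
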