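import Pool.Agent.H69.PP.CS
import Pool.Agent.H69.PP.GN
import Pool.Agent.H69.PP.MDx

set_option autoImplicit false

namespace PPE
open Finset

noncomputable def lF (n s : ℕ) : ℝ := (Real.log n.factorial + Real.log (n + s).factorial) / 2

theorem md_sqrt {a b : ℝ} (ha : 0 < a) (hb : 0 < b) : Real.sqrt (a * b) = Real.exp ((Real.log a + Real.log b) / 2) := by
  rw [Real.sqrt_eq_rpow, Real.rpow_def_of_pos (mul_pos ha hb), Real.log_mul ha.ne' hb.ne']
  congr 1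
  ring

theorem md_F (n s : ℕ) {a b : ℝ} (ha : 0 < a) (hb : 0 < b) :
    Real.sqrt (n.factorial * a) * Real.sqrt ((n + s).factorial * b) =
      Real.exp (lF n s + (Real.log a + Real.log b) / 2) := by
  rw [md_sqrt (by positivity) ha, md_sqrt (by positivity) hb, ← Real.exp_add]
  congr 1
  unfold lF
  ring

theorem md_Z {θ : ℝ} (hθ : 0 ≤ θ) (n s : ℕ) : ZZ θ n s =
    Real.exp (lF n s - θ * s / 2 + (Real.log (Phi θ n) + Real.log (Phi θ (n + s))) / 2) := by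
  unfold ZZ
  rw [md_F n s (lt_of_lt_of_le one_pos (Phi_one_le hθ n)) (lt_of_lt_of_le one_pos (Phi_one_le hθ (n + s))), ← Real.exp_add]
  congr 1
  ring

theorem md_sigma {θ : ℝ} (h0 : 0 < θ) (h1 : θ ≤ 1 / 2) : Real.sinh (θ / 2) ≤ 1 / 3 := by
  have h2 : Real.sinh (θ / 2) ≤ Real.sinh (1 / 4) := Real.sinh_le_sinh.mpr (by linarith)
  have h3 : Real.sinh (1 / 4) ≤ 1 / 3 := by
    rw [Real.sinh_eq]
    have h4 : Real.exp (1 / 4) ≤ 4 / 3 := by
      have h5 := Real.add_one_le_exp (-(1 / 4) : ℝ)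
      have h6 : Real.exp (1 / 4) * Real.exp (-(1 / 4)) = 1 := by
        rw [← Real.exp_add]
        norm_num
      have h7 := Real.exp_pos (1 / 4 : ℝ)
      nlinarith
    have h5 := Real.add_one_le_exp (-(1 / 4) : ℝ)
    linarith
  linarith

theorem md_cube {θ : ℝ} (h0 : 0 < θ) : θ ^ 3 / 16 ≤ 4 * Real.sinh (θ / 2) - 8 * Real.sinh (θ / 4) := by
  have h1 : Real.sinh (θ / 2) = 2 * Real.sinh (θ / 4) * Real.cosh (θ / 4) := by
    rw [← Real.sinh_two_mul]
    congr 1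
    ring
  rw [h1]
  have h2 : θ / 4 ≤ Real.sinh (θ / 4) := Real.self_le_sinh_iff.mpr (by linarith)
  have h3 : 1 + (θ / 4) ^ 2 / 2 ≤ Real.cosh (θ / 4) := by
    have h4 : Real.cosh (θ / 4) = 1 + 2 * Real.sinh (θ / 8) ^ 2 := by
      have h5 := Real.cosh_two_mul (θ / 8)
      have h6 := Real.cosh_sq (θ / 8)
      have h7 : 2 * (θ / 8) = θ / 4 := by ring
      rw [h7] at h5
      linarith
    have h5 : θ / 8 ≤ Real.sinh (θ / 8) := Real.self_le_sinh_iff.mpr (by linarith)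
    rw [h4]
    have h6 : (0 : ℝ) < θ / 8 := by linarith
    nlinarith
  have h4 : 4 * (2 * Real.sinh (θ / 4) * Real.cosh (θ / 4)) - 8 * Real.sinh (θ / 4) =
      8 * (Real.sinh (θ / 4) * (Real.cosh (θ / 4) - 1)) := by ring
  rw [h4]
  have h5 : θ / 4 * ((θ / 4) ^ 2 / 2) ≤ Real.sinh (θ / 4) * (Real.cosh (θ / 4) - 1) :=
    mul_le_mul h2 (by linarith) (by positivity) (by linarith)
  nlinarith

theorem md_pow (L : ℕ) : (2 : ℝ) ^ (L / 2) ≤ Real.exp ((L : ℝ) / 2) := by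
  have h1 : (2 : ℝ) ≤ Real.exp 1 := by
    have := Real.add_one_le_exp (1 : ℝ)
    linarith
  calc (2 : ℝ) ^ (L / 2) ≤ Real.exp 1 ^ (L / 2) := pow_le_pow_left₀ (by norm_num) h1 _
    _ = Real.exp ((L / 2 : ℕ) : ℝ) := by
      rw [← Real.exp_nat_mul]
      simp
    _ ≤ _ := by
      refine Real.exp_le_exp.mpr ?_
      exact Nat.cast_div_le

end PPE
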