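import Pool.Agent.H69.PP.MDy

set_option autoImplicit false

namespace PPE
open Finset

theorem main_det' (N s K g0 L : ℕ) (hL : 2 ≤ L) (hKL : L * L ≤ K) (hs : 1 ≤ s) (hev : 2 ∣ N) (hN0 : 100 ≤ N)
    (hN1 : 6 * s + 3 ≤ N) (hN : 2 * s ^ 2 ≤ N) (h3 : 2 * L ^ 2 ≤ N)
    (h2 : 24 * (L : ℝ) * (s : ℝ) ^ 2 * Real.log N ≤ Real.sqrt N)
    (h5 : 8 * Real.exp 1 * ((N : ℝ) + 1) ≤ Real.exp ((L : ℝ) / 2))
    (h6 : 18 * Real.log N + 8 + s + g0 + L ≤ Real.sqrt ((N : ℝ) / 2) / (16 * (L : ℝ) ^ 3)) :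
    ∃ n r : ℕ, N ≤ 2 * n ∧ n ≤ N ∧ L ≤ r ∧ r ≤ n ∧
      2 ^ (n / 2) ≤ cY n s (fun x y => r ≤ x ∧ x + 2 ≤ r + K ∧ y + g0 ≤ x) ∧
      (∀ k ≤ L, cY n s (fun x _ => r - k ≤ x ∧ x < r - k + s) ≤
        N ^ 3 * cY n s (fun x y => r ≤ x ∧ x + 2 ≤ r + K ∧ y + g0 ≤ x)) ∧
      ∀ k < L, 2 ^ (L / 2) * (cY n s (fun x _ => r + K ≤ x + k + 1) + cY n s (fun x y => r ≤ x + k ∧ x < y + g0)) ≤
        cY n s (fun x y => r ≤ x ∧ x + 2 ≤ r + K ∧ y + g0 ≤ x) := by
  have hLr : (2 : ℝ) ≤ L := by exact_mod_cast hL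
  have hNr : (100 : ℝ) ≤ N := by exact_mod_cast hN0
  have hsr : (1 : ℝ) ≤ s := by exact_mod_cast hs
  obtain ⟨θ, hθd⟩ : ∃ θ : ℝ, θ = 1 / (L : ℝ) := ⟨_, rfl⟩
  have hθL : θ * L = 1 := by rw [hθd]; field_simp
  have hθ : 0 < θ := by rw [hθd]; positivity
  have hθ2 : θ ≤ 1 / 2 := by
    rw [hθd]
    exact div_le_div_of_nonneg_left (by norm_num) (by norm_num) hLr
  have hσ3 := md_sigma hθ hθ2
  have hσ1 : θ / 2 ≤ Real.sinh (θ / 2) := Real.self_le_sinh_iff.mpr (by linarith)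
  have hσ'3 : Real.sinh (θ / 4) ≤ 1 / 3 := by
    refine le_trans (Real.sinh_le_sinh.mpr (by linarith)) hσ3
  have hσ'0 : 0 < Real.sinh (θ / 4) := Real.sinh_pos_iff.mpr (by linarith)
  have hcube := md_cube hθ
  obtain ⟨σ, hσd⟩ : ∃ σ : ℝ, σ = Real.sinh (θ / 2) := ⟨_, rfl⟩
  obtain ⟨σ', hσ'd⟩ : ∃ σ' : ℝ, σ' = Real.sinh (θ / 4) := ⟨_, rfl⟩
  rw [← hσ'd] at hcube hσ'0 hσ'3
  rw [← hσd] at hcube hσ1
  have hσ3' : σ ≤ 1 / 3 := by rw [hσd]; exact hσ3
  have hσ0 : 0 < σ := by linarith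
  -- square roots
  have hsqL : (L : ℝ) ≤ Real.sqrt ((N : ℝ) / 2) := by
    refine Real.le_sqrt_of_sq_le ?_
    have : (2 : ℝ) * (L : ℝ) ^ 2 ≤ N := by exact_mod_cast h3
    linarith
  have hx' : ∀ k : ℕ, N ≤ 2 * k → 1 ≤ 2 * σ * Real.sqrt k := by
    intro k hk
    have hk' : (N : ℝ) / 2 ≤ k := by
      have : (N : ℝ) ≤ 2 * k := by exact_mod_cast hk
      linarith
    have h7 : (L : ℝ) ≤ Real.sqrt k := hsqL.trans (Real.sqrt_le_sqrt hk')
    have h8 : θ * L ≤ 2 * σ * Real.sqrt k := by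
      refine mul_le_mul (by linarith) h7 (by positivity) (by positivity)
    linarith
  have h12 : 12 * (s : ℝ) ^ 2 * Real.log N ≤ Real.sinh (θ / 2) * Real.sqrt N := by
    rw [← hσd]
    have h7 : θ / 2 * (24 * (L : ℝ) * (s : ℝ) ^ 2 * Real.log N) ≤ θ / 2 * Real.sqrt N :=
      mul_le_mul_of_nonneg_left h2 (by linarith)
    have h8 : θ / 2 * (24 * (L : ℝ) * (s : ℝ) ^ 2 * Real.log N) = 12 * (s : ℝ) ^ 2 * Real.log N := by
      calc θ / 2 * (24 * (L : ℝ) * (s : ℝ) ^ 2 * Real.log N) = 12 * (s : ℝ) ^ 2 * Real.log N * (θ * L) := by ring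
        _ = _ := by rw [hθL, mul_one]
    have h9 : θ / 2 * Real.sqrt N ≤ σ * Real.sqrt N := mul_le_mul_of_nonneg_right hσ1 (Real.sqrt_nonneg _)
    linarith
  obtain ⟨n, hn1, hn2, hn3⟩ := good_n hθ hσ3 hs hN1 (by rw [← hσd]; exact hx' N (by omega)) h12
  obtain ⟨r, hrn, hr⟩ := ex_r hθ.le hs hn3
  have hNn : N ≤ 2 * n := by omega
  have hnN : n ≤ N := by omega
  have hn50 : 50 ≤ n := by omega
  have hnr : (50 : ℝ) ≤ n := by exact_mod_cast hn50
  have hnNr : (n : ℝ) ≤ N := by exact_mod_cast hnN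
  have hNnr : (N : ℝ) ≤ 2 * n := by exact_mod_cast hNn
  have hrnr : (r : ℝ) ≤ n := by exact_mod_cast hrn
  have hsn : (s : ℝ) ≤ n := by
    have : s ≤ n := by omega
    exact_mod_cast this
  -- log quantities
  obtain ⟨l, hl⟩ : ∃ l : ℝ, l = Real.log N := ⟨_, rfl⟩
  have hl0 : 0 ≤ l := by rw [hl]; exact Real.log_nonneg (by linarith)
  have hlogn : Real.log n ≤ l := by rw [hl]; exact Real.log_le_log (by linarith) hnNr
  obtain ⟨m, hm⟩ : ∃ m : ℝ, m = Real.log (2 * ((n : ℝ) + 1)) := ⟨_, rfl⟩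
  have hexpm : Real.exp m = 2 * ((n : ℝ) + 1) := by rw [hm]; exact Real.exp_log (by linarith)
  have hm2 : m ≤ 2 * l := by
    have h7 : 2 * ((n : ℝ) + 1) ≤ (N : ℝ) ^ 2 := by nlinarith
    rw [hm, hl]
    have h8 := Real.log_le_log (by linarith : 0 < 2 * ((n : ℝ) + 1)) h7
    rw [Real.log_pow] at h8
    push_cast at h8
    exact h8
  obtain ⟨q, hq⟩ : ∃ q : ℝ, q = Real.sqrt n := ⟨_, rfl⟩
  have hq0 : 0 ≤ q := by rw [hq]; exact Real.sqrt_nonneg _
  have hqN : Real.sqrt ((N : ℝ) / 2) ≤ q := by rw [hq]; exact Real.sqrt_le_sqrt (by linarith)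
  have hqL : (L : ℝ) ≤ q := hsqL.trans hqN
  have hqs : Real.sqrt ((n + s : ℕ) : ℝ) ≤ q + 1 / 2 := by
    have hsq : q ^ 2 = n := by rw [hq]; exact Real.sq_sqrt (by linarith)
    have hsq2 : (s : ℝ) ≤ q := by
      rw [hq]
      refine Real.le_sqrt_of_sq_le ?_
      have : (2 : ℝ) * (s : ℝ) ^ 2 ≤ N := by exact_mod_cast hN
      linarith
    refine Real.sqrt_le_iff.mpr ⟨by linarith, ?_⟩
    push_cast
    nlinarith
  -- (1)
  have e1 : 4 * σ * q - 4 * l ≤ Real.log (Phi θ n) := by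
    have := phi_lower hθ hσ3 (by omega : 9 ≤ n) (by rw [← hσd]; exact hx' n hNn)
    rw [← hσd, ← hq] at this
    linarith
  have e1' : Real.log (Phi θ n) ≤ Real.log (Phi θ (n + s)) :=
    Real.log_le_log (lt_of_lt_of_le one_pos (Phi_one_le hθ.le n)) (Phi_mono hθ.le (Nat.le_add_right _ _))
  obtain ⟨F, hF⟩ : ∃ F : ℝ, F = lF n s := ⟨_, rfl⟩
  obtain ⟨z, hz⟩ : ∃ z : ℝ, z = F - θ * s / 2 + (Real.log (Phi θ n) + Real.log (Phi θ (n + s))) / 2 := ⟨_, rfl⟩
  have hZ : ZZ θ n s = Real.exp z := by rw [md_Z hθ.le, hz, hF]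
  have ez1 : F - θ * s / 2 + 4 * σ * q - 4 * l ≤ z := by rw [hz]; linarith
  -- a
  obtain ⟨a, ha⟩ : ∃ a : ℝ, a = (cY n s (fun x _ => x = r) : ℝ) := ⟨_, rfl⟩
  have hra : Real.exp z ≤ 2 * ((n : ℝ) + 1) * (Real.exp (θ * r) * a) := by
    rw [← hZ, ha]
    exact hr
  have ha0 : 0 < a := by
    by_contra hcon
    have h7 : a ≤ 0 := not_lt.mp hcon
    have h8 : 2 * ((n : ℝ) + 1) * (Real.exp (θ * r) * a) ≤ 0 := by
      have : Real.exp (θ * r) * a ≤ 0 := mul_nonpos_of_nonneg_of_nonpos (Real.exp_pos _).le h7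
      exact mul_nonpos_of_nonneg_of_nonpos (by positivity) this
    have := Real.exp_pos z
    linarith
  obtain ⟨la, hla⟩ : ∃ la : ℝ, la = Real.log a := ⟨_, rfl⟩
  have hexpa : a = Real.exp la := by rw [hla]; exact (Real.exp_log ha0).symm
  have hzr : z ≤ m + θ * r + la := by
    have h7 : 2 * ((n : ℝ) + 1) * (Real.exp (θ * r) * a) = Real.exp (m + θ * r + la) := by
      rw [Real.exp_add, Real.exp_add, hexpm, ← hexpa]
      ring
    rw [h7] at hra
    exact Real.exp_le_exp.mp hra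
  -- (3)
  have h3a : la ≤ -(θ / 2 * r) + (F - θ / 2 * s / 2 + (4 * σ' * q + 4 * σ' * (q + 1 / 2)) / 2) := by
    have hθ' : 0 ≤ θ / 2 := by linarith
    have h7 := cY_le1 hθ' n s (fun x _ => x = r) r (fun x y h => by rw [h])
    rw [md_Z hθ', ← ha, ← hF, hexpa, ← Real.exp_add] at h7
    have h8 := Real.exp_le_exp.mp h7
    have h9 := log_Phi_le hθ' n
    have h10 := log_Phi_le hθ' (n + s)
    have e : θ / 2 / 2 = θ / 4 := by ring
    rw [e, ← hσ'd] at h9 h10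
    rw [← hq] at h9
    have h11 : 4 * σ' * Real.sqrt ((n + s : ℕ) : ℝ) ≤ 4 * σ' * (q + 1 / 2) :=
      mul_le_mul_of_nonneg_left hqs (by linarith)
    linarith
  have h3b : 4 * σ * q + θ ^ 3 / 16 * q - 8 * l - 2 * m - θ * s / 2 - 2 * σ' ≤ θ * r := by
    have h7 : θ ^ 3 / 16 * q ≤ (4 * σ - 8 * σ') * q := mul_le_mul_of_nonneg_right hcube hq0
    have h8 : (4 * σ - 8 * σ') * q = 4 * (σ * q) - 8 * (σ' * q) := by ring
    have h9 : -(θ / 2 * r) + (F - θ / 2 * s / 2 + (4 * σ' * q + 4 * σ' * (q + 1 / 2)) / 2) =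
        -(θ * r) / 2 + F - θ * s / 4 + 4 * (σ' * q) + σ' := by ring
    rw [h9] at h3a
    have h10 : 4 * σ * q = 4 * (σ * q) := by ring
    rw [h10] at ez1 ⊢
    linarith
  -- h6 in terms of q
  have h6' : 18 * l + 8 + s + g0 + L ≤ θ ^ 3 / 16 * q := by
    rw [← hl] at h6
    have h7 : Real.sqrt ((N : ℝ) / 2) / (16 * (L : ℝ) ^ 3) = θ ^ 3 / 16 * Real.sqrt ((N : ℝ) / 2) := by
      rw [hθd]
      field_simp
    rw [h7] at h6
    have h8 : θ ^ 3 / 16 * Real.sqrt ((N : ℝ) / 2) ≤ θ ^ 3 / 16 * q := mul_le_mul_of_nonneg_left hqN (by positivity)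
    linarith
  have hg0 : (0 : ℝ) ≤ g0 := Nat.cast_nonneg _
  have hθs : θ * s ≤ s := by
    calc θ * s ≤ 1 * s := mul_le_mul_of_nonneg_right (by linarith) (by linarith)
      _ = s := one_mul _
  have hθg : θ * g0 ≤ g0 := by
    calc θ * g0 ≤ 1 * g0 := mul_le_mul_of_nonneg_right (by linarith) hg0
      _ = g0 := one_mul _
  have hr2 : 4 * σ * q ≤ θ * r := by linarith
  have hLr' : L ≤ r := by
    have h7 : 2 * q ≤ r := by
      have h8 : θ * (2 * q) ≤ θ * r := by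
        have h9 : θ * (2 * q) = 4 * (θ / 2) * q := by ring
        have h10 : 4 * (θ / 2) * q ≤ 4 * σ * q := mul_le_mul_of_nonneg_right (by linarith) hq0
        linarith
      exact le_of_mul_le_mul_left h8 hθ
    have h8 : (L : ℝ) ≤ r := by linarith
    exact_mod_cast h8
  -- (4)
  have h4 : ∀ k < L, (cY n s (fun x y => r ≤ x + k ∧ x < y + g0) : ℝ) ≤ a * (Real.exp (-((L : ℝ) / 2)) / 4) := by
    intro k hk
    have h7 := cY_le2 hθ.le n s (fun x y => r ≤ x + k ∧ x < y + g0) (2 * r - 2 * L - g0) (by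
      rintro x y ⟨hx, hy⟩
      have hx' : (r : ℝ) ≤ x + k := by exact_mod_cast hx
      have hy' : (x : ℝ) ≤ y + g0 := by exact_mod_cast hy.le
      have hk' : (k : ℝ) ≤ L := by exact_mod_cast hk.le
      linarith)
    rw [md_F n s (lt_of_lt_of_le one_pos (Phi2_one_le hθ.le n)) (lt_of_lt_of_le one_pos (Phi2_one_le hθ.le (n + s))),
      ← hF, ← Real.exp_add, ← Real.exp_add] at h7
    refine h7.trans ?_
    have h9 := log_Phi2_le hθ.le n
    have h10 := log_Phi2_le hθ.le (n + s)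
    rw [← hσd] at h9 h10
    rw [← hq] at h9
    have h11 : 8 * σ * Real.sqrt ((n + s : ℕ) : ℝ) ≤ 8 * σ * (q + 1 / 2) :=
      mul_le_mul_of_nonneg_left hqs (by linarith)
    have h12 : Real.exp (-((L : ℝ) / 2) - 4) ≤ Real.exp (-((L : ℝ) / 2)) / 4 := by
      rw [sub_eq_add_neg, Real.exp_add]
      have h13 : Real.exp (-4 : ℝ) ≤ 1 / 4 := by
        have h14 := Real.add_one_le_exp (4 : ℝ)
        have h15 : Real.exp (4 : ℝ) * Real.exp (-4) = 1 := by
          rw [← Real.exp_add]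
          norm_num
        have h16 := Real.exp_pos (-4 : ℝ)
        have h17 := mul_le_mul_of_nonneg_right h14 h16.le
        rw [h15] at h17
        linarith
      have h14 := Real.exp_pos (-((L : ℝ) / 2))
      have h15 := mul_le_mul_of_nonneg_left h13 h14.le
      linarith
    have h13 : a * Real.exp (-((L : ℝ) / 2) - 4) ≤ a * (Real.exp (-((L : ℝ) / 2)) / 4) :=
      mul_le_mul_of_nonneg_left h12 ha0.le
    refine le_trans ?_ h13
    rw [hexpa, ← Real.exp_add]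
    refine Real.exp_le_exp.mpr ?_
    have e : θ * (2 * r - 2 * L - g0) = 2 * (θ * r) - 2 - θ * g0 := by
      calc θ * (2 * r - 2 * L - g0) = 2 * (θ * r) - 2 * (θ * L) - θ * g0 := by ring
        _ = _ := by rw [hθL, mul_one]
    rw [e]
    have e2 : 8 * σ * (q + 1 / 2) = 8 * (σ * q) + 4 * σ := by ring
    rw [e2] at h11
    have e3 : 4 * (2 * σ) * q = 8 * (σ * q) := by ring
    have e4 : 4 * σ * q = 4 * (σ * q) := by ring
    have e5 : 8 * σ * q = 8 * (σ * q) := by ring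
    rw [e4] at ez1 h3b
    rw [e5] at h9
    linarith
  -- (5)
  have hKr : (L : ℝ) ≤ θ * K := by
    have h7 : (L : ℝ) * L ≤ K := by exact_mod_cast hKL
    have h8 : θ * ((L : ℝ) * L) ≤ θ * K := mul_le_mul_of_nonneg_left h7 hθ.le
    have h9 : θ * ((L : ℝ) * L) = L := by rw [← mul_assoc, hθL, one_mul]
    linarith
  have hexpr : Real.exp (-(θ * r)) * Real.exp z ≤ 2 * ((n : ℝ) + 1) * a := by
    have h7 := mul_le_mul_of_nonneg_left hra (Real.exp_pos (-(θ * r))).le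
    have h8 : Real.exp (-(θ * r)) * (2 * ((n : ℝ) + 1) * (Real.exp (θ * r) * a)) =
        2 * ((n : ℝ) + 1) * a * (Real.exp (-(θ * r)) * Real.exp (θ * r)) := by ring
    have h9 : Real.exp (-(θ * r)) * Real.exp (θ * r) = 1 := by
      rw [← Real.exp_add, neg_add_cancel, Real.exp_zero]
    rw [h8, h9, mul_one] at h7
    exact h7
  have h5' : ∀ k < L, (cY n s (fun x _ => r + K ≤ x + k + 1) : ℝ) ≤ a * (Real.exp (-((L : ℝ) / 2)) / 4) := by
    intro k hk
    have h7 := cY_le1 hθ.le n s (fun x _ => r + K ≤ x + k + 1) (r + K - L) (by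
      intro x y hx
      have hx' : (r : ℝ) + K ≤ x + k + 1 := by exact_mod_cast hx
      have hk' : (k : ℝ) + 1 ≤ L := by exact_mod_cast hk
      linarith)
    rw [hZ] at h7
    refine h7.trans ?_
    have e : Real.exp (-(θ * (r + K - L))) ≤ Real.exp (-(θ * r)) * (Real.exp 1 * Real.exp (-L)) := by
      rw [← Real.exp_add, ← Real.exp_add]
      refine Real.exp_le_exp.mpr ?_
      have : θ * (r + K - L) = θ * r + θ * K - θ * L := by ring
      rw [this, hθL]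
      linarith
    have h8 : Real.exp (-(θ * (r + K - L))) * Real.exp z ≤
        Real.exp (-(θ * r)) * (Real.exp 1 * Real.exp (-L)) * Real.exp z :=
      mul_le_mul_of_nonneg_right e (Real.exp_pos _).le
    refine h8.trans ?_
    have h9 : Real.exp (-(θ * r)) * (Real.exp 1 * Real.exp (-L)) * Real.exp z =
        (Real.exp 1 * Real.exp (-L)) * (Real.exp (-(θ * r)) * Real.exp z) := by ring
    rw [h9]
    have h10 : (Real.exp 1 * Real.exp (-L)) * (Real.exp (-(θ * r)) * Real.exp z) ≤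
        (Real.exp 1 * Real.exp (-L)) * (2 * ((n : ℝ) + 1) * a) :=
      mul_le_mul_of_nonneg_left hexpr (by positivity)
    refine h10.trans ?_
    have h11 : Real.exp (-(L : ℝ)) = Real.exp (-((L : ℝ) / 2)) * Real.exp (-((L : ℝ) / 2)) := by
      rw [← Real.exp_add]
      congr 1
      ring
    have h12 : Real.exp ((L : ℝ) / 2) * Real.exp (-((L : ℝ) / 2)) = 1 := by
      rw [← Real.exp_add]
      simp
    have h13 : 8 * Real.exp 1 * ((n : ℝ) + 1) ≤ Real.exp ((L : ℝ) / 2) := by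
      refine le_trans ?_ h5
      refine mul_le_mul_of_nonneg_left (by linarith) (by positivity)
    have h14 : 8 * Real.exp 1 * ((n : ℝ) + 1) * Real.exp (-((L : ℝ) / 2)) ≤ 1 := by
      have h14' := mul_le_mul_of_nonneg_right h13 (Real.exp_pos (-((L : ℝ) / 2))).le
      rw [h12] at h14'
      exact h14'
    rw [h11]
    have h15 : (Real.exp 1 * (Real.exp (-((L : ℝ) / 2)) * Real.exp (-((L : ℝ) / 2)))) * (2 * ((n : ℝ) + 1) * a) =
        (8 * Real.exp 1 * ((n : ℝ) + 1) * Real.exp (-((L : ℝ) / 2))) * (a * (Real.exp (-((L : ℝ) / 2)) / 4)) := by ring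
    rw [h15]
    have h16 : 0 ≤ a * (Real.exp (-((L : ℝ) / 2)) / 4) := by positivity
    calc _ ≤ 1 * (a * (Real.exp (-((L : ℝ) / 2)) / 4)) := mul_le_mul_of_nonneg_right h14 h16
      _ = _ := one_mul _
  -- (6)
  obtain ⟨B, hB⟩ : ∃ B : ℝ, B = (cY n s (fun x y => r ≤ x ∧ x + 2 ≤ r + K ∧ y + g0 ≤ x) : ℝ) := ⟨_, rfl⟩
  have hexpL : Real.exp (-((L : ℝ) / 2)) ≤ 1 := Real.exp_le_one_iff.mpr (by linarith)
  have hBa : a / 2 ≤ B := by
    have h7 : cY n s (fun x _ => x = r) ≤ cY n s (fun x y => r ≤ x ∧ x + 2 ≤ r + K ∧ y + g0 ≤ x) +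
        cY n s (fun x y => r ≤ x + 0 ∧ x < y + g0) := by
      refine cY_add n s ?_
      rintro x y hx
      have hK : 4 ≤ K := le_trans (by nlinarith) hKL
      by_cases h : y + g0 ≤ x
      · left
        refine ⟨by omega, by omega, h⟩
      · right
        exact ⟨by omega, by omega⟩
    have h8 : a ≤ B + (cY n s (fun x y => r ≤ x + 0 ∧ x < y + g0) : ℝ) := by
      rw [ha, hB]
      exact_mod_cast h7
    have h9 := h4 0 (by omega)
    have h10 : a * (Real.exp (-((L : ℝ) / 2)) / 4) ≤ a * (1 / 2) := mul_le_mul_of_nonneg_left (by linarith) ha0.le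
    linarith
  refine ⟨n, r, hNn, hnN, hLr', hrn, ?_, ?_, ?_⟩
  · -- (8)
    have h7 : Real.exp (-(n : ℝ)) * n.factorial ≤ 2 * ((n : ℝ) + 1) * a := by
      refine le_trans ?_ hexpr
      rw [← Real.exp_add]
      have h8 : ((n.factorial : ℕ) : ℝ) = Real.exp (Real.log n.factorial) := (Real.exp_log (by positivity)).symm
      rw [h8, ← Real.exp_add]
      refine Real.exp_le_exp.mpr ?_
      have h9 : Real.log n.factorial ≤ F := by
        rw [hF]
        unfold lF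
        have h10 : Real.log n.factorial ≤ Real.log (n + s).factorial :=
          Real.log_le_log (by positivity) (by exact_mod_cast Nat.factorial_le (Nat.le_add_right n s))
        linarith
      have h10 : 0 ≤ Real.log (Phi θ n) := Real.log_nonneg (Phi_one_le hθ.le n)
      have h11 : θ * r ≤ 1 / 2 * n := mul_le_mul hθ2 hrnr (Nat.cast_nonneg _) (by norm_num)
      have h12 : θ * s ≤ 1 / 2 * n := mul_le_mul hθ2 hsn (Nat.cast_nonneg _) (by norm_num)
      rw [hz]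
      linarith
    have h8 := md8 n hn50
    have h9 : (2 : ℝ) ^ (n / 2) ≤ 2 ^ n := pow_le_pow_right₀ (by norm_num) (Nat.div_le_self n 2)
    have h10 : (2 : ℝ) ^ n ≤ B := by
      have h11 : 4 * ((n : ℝ) + 1) * 2 ^ n ≤ 4 * ((n : ℝ) + 1) * B := by
        have h12 : 4 * ((n : ℝ) + 1) * (a / 2) ≤ 4 * ((n : ℝ) + 1) * B := mul_le_mul_of_nonneg_left hBa (by positivity)
        have h13 : 4 * ((n : ℝ) + 1) * (a / 2) = 2 * ((n : ℝ) + 1) * a := by ring
        have h14 : (n.factorial : ℝ) * Real.exp (-n) = Real.exp (-(n : ℝ)) * n.factorial := mul_comm _ _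
        linarith
      exact le_of_mul_le_mul_left h11 (by positivity)
    have h11 : (2 : ℝ) ^ (n / 2) ≤ (cY n s (fun x y => r ≤ x ∧ x + 2 ≤ r + K ∧ y + g0 ≤ x) : ℝ) := by
      rw [← hB]
      exact h9.trans h10
    exact_mod_cast h11
  · intro k hk
    have h7 := cY_le1 hθ.le n s (fun x _ => r - k ≤ x ∧ x < r - k + s) (r - L) (by
      rintro x y ⟨hx, -⟩
      have hx' : r ≤ x + L := by omega
      have hx'' : (r : ℝ) ≤ x + L := by exact_mod_cast hx'
      linarith)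
    rw [hZ] at h7
    have e : Real.exp (-(θ * (r - L))) = Real.exp (-(θ * r)) * Real.exp 1 := by
      rw [← Real.exp_add]
      congr 1
      have : θ * (r - L) = θ * r - θ * L := by ring
      rw [this, hθL]
      ring
    rw [e] at h7
    have h8 : Real.exp (-(θ * r)) * Real.exp 1 * Real.exp z = Real.exp 1 * (Real.exp (-(θ * r)) * Real.exp z) := by ring
    rw [h8] at h7
    have h9 : Real.exp 1 * (Real.exp (-(θ * r)) * Real.exp z) ≤ Real.exp 1 * (2 * ((n : ℝ) + 1) * a) :=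
      mul_le_mul_of_nonneg_left hexpr (Real.exp_pos _).le
    have h10 : Real.exp 1 ≤ 3 := by
      have := Real.exp_one_lt_d9
      linarith
    have h11 : Real.exp 1 * (2 * ((n : ℝ) + 1) * a) ≤ (N : ℝ) ^ 3 * B := by
      have h13 : 0 ≤ B := by linarith
      have h12 : 2 * ((n : ℝ) + 1) * a ≤ 4 * ((N : ℝ) + 1) * B := by
        have h14 : 4 * ((n : ℝ) + 1) * (a / 2) ≤ 4 * ((N : ℝ) + 1) * B :=
          mul_le_mul (by linarith) hBa (by positivity) (by positivity)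
        have h15 : 4 * ((n : ℝ) + 1) * (a / 2) = 2 * ((n : ℝ) + 1) * a := by ring
        linarith
      have h14 : Real.exp 1 * (2 * ((n : ℝ) + 1) * a) ≤ 3 * (4 * ((N : ℝ) + 1) * B) :=
        mul_le_mul h10 h12 (by positivity) (by norm_num)
      refine h14.trans ?_
      have h15 : 3 * (4 * ((N : ℝ) + 1)) ≤ (N : ℝ) ^ 3 := by
        have k1 : (100 : ℝ) * N ≤ N ^ 2 := by
          have : (N : ℝ) ^ 2 = N * N := by ring
          rw [this]
          exact mul_le_mul_of_nonneg_right hNr (by positivity)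
        have k2 : (100 : ℝ) * N ^ 2 ≤ N ^ 3 := by
          have : (N : ℝ) ^ 3 = N * N ^ 2 := by ring
          rw [this]
          exact mul_le_mul_of_nonneg_right hNr (by positivity)
        linarith
      calc 3 * (4 * ((N : ℝ) + 1) * B) = (3 * (4 * ((N : ℝ) + 1))) * B := by ring
        _ ≤ _ := mul_le_mul_of_nonneg_right h15 h13
    have h12 := h7.trans (h9.trans h11)
    rw [hB] at h12
    exact_mod_cast h12
  · intro k hk
    have h7 := h4 k hk
    have h8 := h5' k hk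
    have h9 := md_pow L
    have h10 : Real.exp ((L : ℝ) / 2) * Real.exp (-((L : ℝ) / 2)) = 1 := by
      rw [← Real.exp_add]
      simp
    have h11 : (2 : ℝ) ^ (L / 2) * ((cY n s (fun x _ => r + K ≤ x + k + 1) : ℝ) +
        (cY n s (fun x y => r ≤ x + k ∧ x < y + g0) : ℝ)) ≤ B := by
      have h12 : (cY n s (fun x _ => r + K ≤ x + k + 1) : ℝ) + (cY n s (fun x y => r ≤ x + k ∧ x < y + g0) : ℝ) ≤
          a * Real.exp (-((L : ℝ) / 2)) / 2 := by linarith
      refine le_trans (mul_le_mul h9 h12 (by positivity) (Real.exp_pos _).le) ?_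
      have h13 : Real.exp ((L : ℝ) / 2) * (a * Real.exp (-((L : ℝ) / 2)) / 2) =
          (Real.exp ((L : ℝ) / 2) * Real.exp (-((L : ℝ) / 2))) * (a / 2) := by ring
      rw [h13, h10, one_mul]
      exact hBa
    rw [hB] at h11
    exact_mod_cast h11

end PPE
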