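import Mathlib

/-!
Row PPE_NU (block E of MP_28250c_PP). The numerical hypotheses of `main_det` for large `l`.

`N = (2p+4)^(5l)`, `s = p^l`, `g0 = (p+2)^l`, `L = 2^(l/2)` (so `2^l/2 ≤ L^2 ≤ 2^l`), `K = 2^l`; `p ≥ 2` fixed, `l → ∞`.
`√N = (2p+4)^(5l/2)`; write everything with `N ≥ ((2p+4)^(2l))^2`, i.e. `√N ≥ (2p+4)^(2l)`, and for h6 with
`√(N/2) ≥ (2p+4)^(2l) * (√8)^l/√2` ..  (`(2p+4)^(5l/2) = (2p+4)^(2l) (2p+4)^(l/2) ≥ (2p+4)^(2l) 8^(l/2)`).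
* h2: `24 L s^2 log N ≤ 24 2^(l/2) p^(2l) 5 l log (2p+4)`, and `(2p+4)^(2l) ≥ 4^l p^(2l)`.. so it suffices `120 l log (2p+4) 2^(l/2) ≤ 4^l`.
* h5: `exp (L/2)` with `L ≥ 2^((l-1)/2)` against `8 e ((2p+4)^(5l) + 1)`: `L/2 ≥ log (16 e) + 5 l log (2p+4)` eventually.
* h6: `16 L^3 ≤ 16 2^(3l/2)`; left side `≤ C (l + (p+2)^l + 2^l)`; `√(N/2)/(16 L^3) ≥ (2p+4)^(5l/2)/(32 * 2^(3l/2)) = 2^(5l/2) (p+2)^(5l/2)/(32 2^(3l/2)) =
  2^l (p+2)^(5l/2)/32 ≥ (p+2)^l * (2^l/32)`.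
Use `Filter.Eventually`/`tendsto_pow_const_mul_const_pow_of_abs_lt_one` (or `isLittleO_pow_const_const_pow_of_one_lt`,
`tendsto_pow_atTop_atTop_of_one_lt`) and `Filter.eventually_atTop`.
-/

set_option autoImplicit false

namespace PPE

private theorem NU_lin (C D : ℝ) : ∃ m₀ : ℕ, ∀ m : ℕ, m₀ ≤ m → C * (m : ℝ) + D ≤ 2 ^ m := by
  have h1 : Filter.Tendsto (fun n : ℕ => (n : ℝ) ^ 1 / 2 ^ n) Filter.atTop (nhds 0) :=
    tendsto_pow_const_div_const_pow_of_one_lt 1 one_lt_two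
  have h2 : Filter.Tendsto (fun n : ℕ => (n : ℝ) ^ 0 / 2 ^ n) Filter.atTop (nhds 0) :=
    tendsto_pow_const_div_const_pow_of_one_lt 0 one_lt_two
  have h3 := (h1.const_mul C).add (h2.const_mul D)
  have h5 : C * (0 : ℝ) + D * 0 < 1 := by norm_num
  have h4 := h3.eventually (gt_mem_nhds h5)
  obtain ⟨m₀, hm₀⟩ := Filter.eventually_atTop.1 h4
  refine ⟨m₀, fun m hm => ?_⟩
  have h6 := hm₀ m hm
  have hp : (0 : ℝ) < 2 ^ m := by positivity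
  have e : C * ((m : ℝ) ^ 1 / 2 ^ m) + D * ((m : ℝ) ^ 0 / 2 ^ m) = (C * m + D) / 2 ^ m := by
    rw [pow_one, pow_zero]; ring
  have h7 : C * ((m : ℝ) ^ 1 / 2 ^ m) + D * ((m : ℝ) ^ 0 / 2 ^ m) < 1 := h6
  rw [e, div_lt_one hp] at h7
  exact h7.le

theorem numerics (p : ℕ) (hp : 2 ≤ p) : ∃ l₀ : ℕ, ∀ l ≥ l₀,
    2 ≤ 2 ^ (l / 2) ∧ 2 ^ (l / 2) * 2 ^ (l / 2) ≤ 2 ^ l ∧ 1 ≤ p ^ l ∧ 2 ∣ (2 * p + 4) ^ (5 * l) ∧ 100 ≤ (2 * p + 4) ^ (5 * l) ∧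
    6 * p ^ l + 3 ≤ (2 * p + 4) ^ (5 * l) ∧ 2 * (p ^ l) ^ 2 ≤ (2 * p + 4) ^ (5 * l) ∧
    2 * (2 ^ (l / 2)) ^ 2 ≤ (2 * p + 4) ^ (5 * l) ∧
    24 * ((2 ^ (l / 2) : ℕ) : ℝ) * ((p ^ l : ℕ) : ℝ) ^ 2 * Real.log (((2 * p + 4) ^ (5 * l) : ℕ) : ℝ) ≤
      Real.sqrt (((2 * p + 4) ^ (5 * l) : ℕ) : ℝ) ∧
    8 * Real.exp 1 * ((((2 * p + 4) ^ (5 * l) : ℕ) : ℝ) + 1) ≤ Real.exp (((2 ^ (l / 2) : ℕ) : ℝ) / 2) ∧
    18 * Real.log (((2 * p + 4) ^ (5 * l) : ℕ) : ℝ) + 8 + ((p ^ l : ℕ) : ℝ) + (((p + 2) ^ l : ℕ) : ℝ) + ((2 ^ (l / 2) : ℕ) : ℝ) ≤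
      Real.sqrt ((((2 * p + 4) ^ (5 * l) : ℕ) : ℝ) / 2) / (16 * ((2 ^ (l / 2) : ℕ) : ℝ) ^ 3) := by
  set La : ℝ := Real.log (((2 * p + 4 : ℕ)) : ℝ) with hLa
  have hLa0 : 0 ≤ La := by
    apply Real.log_nonneg
    have : (1 : ℕ) ≤ 2 * p + 4 := by omega
    exact_mod_cast this
  obtain ⟨m1, hm1⟩ := NU_lin (120 * La) 8
  obtain ⟨m2, hm2⟩ := NU_lin (20 * La) (2 * (Real.log 16 + 1 + 5 * La))
  refine ⟨m1 + 2 * m2 + 7, fun l hl => ?_⟩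
  have hl7 : 7 ≤ l := by omega
  have hlm1 : m1 ≤ l := by omega
  have hlm2 : m2 ≤ l / 2 := by omega
  have hB1 := hm1 l hlm1
  have hB2 := hm2 (l / 2) hlm2
  -- natural number facts
  have n2 : 2 ^ (l / 2) * 2 ^ (l / 2) ≤ 2 ^ l := by
    rw [← pow_add]; exact Nat.pow_le_pow_right (by norm_num) (by omega)
  have n1 : 2 ≤ 2 ^ (l / 2) := by
    calc 2 = 2 ^ 1 := by norm_num
      _ ≤ 2 ^ (l / 2) := Nat.pow_le_pow_right (by norm_num) (by omega)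
  have n3 : 1 ≤ p ^ l := Nat.one_le_pow _ _ (by omega)
  have hal : (2 * p + 4) ^ (5 * l) = (2 * p + 4) ^ l * (2 * p + 4) ^ (4 * l) := by
    rw [← pow_add]; congr 1; ring
  have hpa : p ^ l ≤ (2 * p + 4) ^ l := Nat.pow_le_pow_left (by omega) l
  have h2a : 2 ^ l ≤ (2 * p + 4) ^ l := Nat.pow_le_pow_left (by omega) l
  have h4l : 4096 ≤ (2 * p + 4) ^ (4 * l) := by
    calc 4096 = 8 ^ 4 := by norm_num
      _ ≤ (2 * p + 4) ^ 4 := Nat.pow_le_pow_left (by omega) 4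
      _ ≤ (2 * p + 4) ^ (4 * l) := Nat.pow_le_pow_right (by omega) (by omega)
  have ha1 : 1 ≤ (2 * p + 4) ^ l := Nat.one_le_pow _ _ (by omega)
  have hsq : ((2 * p + 4) ^ (2 * l)) * ((2 * p + 4) ^ (2 * l)) * (2 * p + 4) ^ l = (2 * p + 4) ^ (5 * l) := by
    rw [← pow_add, ← pow_add]; congr 1; ring
  have h2l : (2 * p + 4) ^ l * (2 * p + 4) ^ l = (2 * p + 4) ^ (2 * l) := by
    rw [← pow_add]; congr 1; ring
  have h3l : (2 * p + 4) ^ (2 * l) * (2 * p + 4) ^ (3 * l) = (2 * p + 4) ^ (5 * l) := by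
    rw [← pow_add]; congr 1; ring
  have h3l' : 2 ≤ (2 * p + 4) ^ (3 * l) := by
    calc 2 ≤ (2 * p + 4) ^ 1 := by rw [pow_one]; omega
      _ ≤ (2 * p + 4) ^ (3 * l) := Nat.pow_le_pow_right (by omega) (by omega)
  have n7 : 2 * (p ^ l) ^ 2 ≤ (2 * p + 4) ^ (5 * l) := by
    rw [← h3l, ← h2l, sq, mul_comm 2]
    exact Nat.mul_le_mul (Nat.mul_le_mul hpa hpa) h3l'
  have n8 : 2 * (2 ^ (l / 2)) ^ 2 ≤ (2 * p + 4) ^ (5 * l) := by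
    rw [hal, sq, mul_comm 2]
    exact Nat.mul_le_mul (le_trans n2 h2a) (by omega)
  have n5 : 100 ≤ (2 * p + 4) ^ (5 * l) := by
    rw [hal]
    calc 100 = 1 * 100 := by norm_num
      _ ≤ _ := Nat.mul_le_mul ha1 (by omega)
  have n6 : 6 * p ^ l + 3 ≤ (2 * p + 4) ^ (5 * l) := by
    rw [hal]
    calc 6 * p ^ l + 3 ≤ p ^ l * 9 := by omega
      _ ≤ _ := Nat.mul_le_mul hpa (by omega)
  have n4 : 2 ∣ (2 * p + 4) ^ (5 * l) := by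
    apply dvd_pow (by omega) (by omega)
  -- real facts
  have hlog : Real.log (((2 * p + 4) ^ (5 * l) : ℕ) : ℝ) = 5 * l * La := by
    rw [Nat.cast_pow, Real.log_pow, ← hLa]; push_cast; ring
  have hLN : ((2 ^ (l / 2) : ℕ) : ℝ) ^ 2 ≤ 2 ^ l := by
    rw [sq]; exact_mod_cast n2
  have hL1 : (1 : ℝ) ≤ ((2 ^ (l / 2) : ℕ) : ℝ) := by exact_mod_cast (by omega : 1 ≤ 2 ^ (l / 2))
  set L : ℝ := ((2 ^ (l / 2) : ℕ) : ℝ) with hL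
  have hLle : L ≤ 2 ^ l := by nlinarith
  have h2pos : (0 : ℝ) < 2 ^ l := by positivity
  have hl0 : (0 : ℝ) ≤ l := Nat.cast_nonneg l
  have hp2 : (0 : ℝ) < ((p : ℝ) + 2) := by positivity
  have hfac : (((2 * p + 4) ^ l : ℕ) : ℝ) = 2 ^ l * ((p : ℝ) + 2) ^ l := by
    push_cast; rw [← mul_pow]; congr 1; ring
  have hpp2 : ((p : ℝ)) ^ l ≤ ((p : ℝ) + 2) ^ l := pow_le_pow_left₀ (Nat.cast_nonneg p) (by linarith) l
  have hp2l : (2 : ℝ) ^ l ≤ ((p : ℝ) + 2) ^ l := pow_le_pow_left₀ (by norm_num) (by have : (0 : ℝ) ≤ p := Nat.cast_nonneg p; linarith) l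
  have hp0 : (0 : ℝ) ≤ (p : ℝ) ^ l := by positivity
  have hP0 : (0 : ℝ) < ((p : ℝ) + 2) ^ l := by positivity
  have hlLa : 0 ≤ (l : ℝ) * La := mul_nonneg hl0 hLa0
  set A : ℝ := (((2 * p + 4) ^ l : ℕ) : ℝ) with hA
  have hA1 : 1 ≤ A := by rw [hA]; exact_mod_cast ha1
  have hN : (((2 * p + 4) ^ (5 * l) : ℕ) : ℝ) = A ^ 5 := by
    rw [hA, ← Nat.cast_pow, ← pow_mul, mul_comm l 5]
  have hsqrt : A ^ 2 ≤ Real.sqrt (((2 * p + 4) ^ (5 * l) : ℕ) : ℝ) := by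
    apply Real.le_sqrt_of_sq_le
    rw [hN]
    calc (A ^ 2) ^ 2 = A ^ 4 := by ring
      _ ≤ A ^ 5 := pow_le_pow_right₀ hA1 (by norm_num)
  have n9 : 24 * L * ((p ^ l : ℕ) : ℝ) ^ 2 * Real.log (((2 * p + 4) ^ (5 * l) : ℕ) : ℝ) ≤
      Real.sqrt (((2 * p + 4) ^ (5 * l) : ℕ) : ℝ) := by
    refine le_trans ?_ hsqrt
    rw [hlog, hfac, Nat.cast_pow]
    have e1 : 24 * L * ((p : ℝ) ^ l) ^ 2 * (5 * l * La) = (L * (120 * La * l)) * ((p : ℝ) ^ l) ^ 2 := by ring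
    have e2 : (2 ^ l * ((p : ℝ) + 2) ^ l) ^ 2 = (2 ^ l * 2 ^ l) * (((p : ℝ) + 2) ^ l) ^ 2 := by ring
    rw [e1, e2]
    have hq : 120 * La * l ≤ 2 ^ l := by linarith
    have hq0 : 0 ≤ 120 * La * (l : ℝ) := by positivity
    exact mul_le_mul (mul_le_mul hLle hq hq0 h2pos.le) (pow_le_pow_left₀ hp0 hpp2 2) (by positivity) (by positivity)
  have n10 : 8 * Real.exp 1 * ((((2 * p + 4) ^ (5 * l) : ℕ) : ℝ) + 1) ≤ Real.exp (L / 2) := by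
    have hNp : (0 : ℝ) < (((2 * p + 4) ^ (5 * l) : ℕ) : ℝ) := by
      have : 0 < (2 * p + 4) ^ (5 * l) := by positivity
      exact_mod_cast this
    have hN1 : (1 : ℝ) ≤ (((2 * p + 4) ^ (5 * l) : ℕ) : ℝ) := by
      exact_mod_cast (by omega : 1 ≤ (2 * p + 4) ^ (5 * l))
    have hexp : (((2 * p + 4) ^ (5 * l) : ℕ) : ℝ) = Real.exp (5 * l * La) := by
      rw [← hlog, Real.exp_log hNp]
    have h16 : (16 : ℝ) = Real.exp (Real.log 16) := by rw [Real.exp_log (by norm_num)]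
    have hm : ((l / 2 : ℕ) : ℝ) * 2 + 1 ≥ l := by
      have : l ≤ (l / 2) * 2 + 1 := by omega
      exact_mod_cast this
    have hLpow : L = 2 ^ (l / 2) := by rw [hL]; push_cast; rfl
    calc 8 * Real.exp 1 * ((((2 * p + 4) ^ (5 * l) : ℕ) : ℝ) + 1)
        ≤ 8 * Real.exp 1 * (2 * (((2 * p + 4) ^ (5 * l) : ℕ) : ℝ)) := by
          apply mul_le_mul_of_nonneg_left (by linarith) (by positivity)
      _ = 16 * Real.exp 1 * Real.exp (5 * l * La) := by rw [hexp]; ring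
      _ = Real.exp (Real.log 16 + 1 + 5 * l * La) := by
          rw [Real.exp_add, Real.exp_add, ← h16]
      _ ≤ Real.exp (L / 2) := by
          apply Real.exp_le_exp.2
          rw [hLpow]
          have : 5 * (l : ℝ) * La ≤ 5 * (((l / 2 : ℕ) : ℝ) * 2 + 1) * La := by
            apply mul_le_mul_of_nonneg_right _ hLa0
            linarith
          nlinarith
  have n11 : 18 * Real.log (((2 * p + 4) ^ (5 * l) : ℕ) : ℝ) + 8 + ((p ^ l : ℕ) : ℝ) + (((p + 2) ^ l : ℕ) : ℝ) + L ≤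
      Real.sqrt ((((2 * p + 4) ^ (5 * l) : ℕ) : ℝ) / 2) / (16 * L ^ 3) := by
    have hL0 : 0 < L := by linarith
    rw [le_div_iff₀ (by positivity)]
    have hleft : 18 * Real.log (((2 * p + 4) ^ (5 * l) : ℕ) : ℝ) + 8 + ((p ^ l : ℕ) : ℝ) + (((p + 2) ^ l : ℕ) : ℝ) + L
        ≤ 4 * ((p : ℝ) + 2) ^ l := by
      rw [hlog]; push_cast
      have e : 18 * (5 * (l : ℝ) * La) = 90 * ((l : ℝ) * La) := by ring
      rw [e]
      have : 120 * La * (l : ℝ) = 120 * ((l : ℝ) * La) := by ring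
      linarith
    refine le_trans (mul_le_mul_of_nonneg_right hleft (by positivity)) ?_
    apply Real.le_sqrt_of_sq_le
    rw [hN]
    have e1 : (4 * ((p : ℝ) + 2) ^ l * (16 * L ^ 3)) ^ 2 = 4096 * (L ^ 2) ^ 3 * (((p : ℝ) + 2) ^ l) ^ 2 := by ring
    rw [e1, hfac]
    have hP1 : (1 : ℝ) ≤ ((p : ℝ) + 2) ^ l := one_le_pow₀ (by have : (0 : ℝ) ≤ p := Nat.cast_nonneg p; linarith)
    have h128 : (128 : ℝ) ≤ 2 ^ l := by
      calc (128 : ℝ) = 2 ^ 7 := by norm_num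
        _ ≤ 2 ^ l := pow_le_pow_right₀ (by norm_num) hl7
    have hc : (L ^ 2) ^ 3 ≤ (2 ^ l : ℝ) ^ 3 := pow_le_pow_left₀ (by positivity) hLN 3
    set X : ℝ := 2 ^ l with hX
    set P : ℝ := ((p : ℝ) + 2) ^ l with hP
    have hP3 : P ^ 2 ≤ P ^ 5 := pow_le_pow_right₀ hP1 (by norm_num)
    have hX2 : 8192 ≤ X ^ 2 := by nlinarith
    calc 4096 * (L ^ 2) ^ 3 * P ^ 2 ≤ 4096 * X ^ 3 * P ^ 5 := by
          apply mul_le_mul (mul_le_mul_of_nonneg_left hc (by norm_num)) hP3 (by positivity) (by positivity)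
      _ ≤ (X ^ 2 / 2) * X ^ 3 * P ^ 5 := by
          apply mul_le_mul_of_nonneg_right _ (by positivity)
          apply mul_le_mul_of_nonneg_right _ (by positivity)
          linarith
      _ = (X * P) ^ 5 / 2 := by ring
  exact ⟨n1, n2, n3, n4, n5, n6, n7, n8, n9, n10, n11⟩

end PPE
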