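import Pool.Agent.H69.PP.BW
import Pool.Agent.H69.PP.MD
import Pool.Agent.H69.PP.NU

/-!
Block E of MP_28250c_PP: the output `OutE p`.
-/

set_option autoImplicit false

namespace PPE
open Finset

theorem outE (p : ℕ) (hp : 2 ≤ p) : PPh.OutE p := by
  obtain ⟨l₀, h⟩ := numerics p hp
  refine ⟨l₀, fun l hl => ?_⟩
  obtain ⟨h1, h2, h3, h4, h5, h6, h7, h8, h9, h10, h11⟩ := h l hl
  obtain ⟨n, r, e1, e2, e3, e4, e5, e6, e7⟩ := main_det ((2 * p + 4) ^ (5 * l)) (p ^ l) (2 ^ l) ((p + 2) ^ l) (2 ^ (l / 2))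
    h1 h2 h3 h4 h5 h6 h7 h8 h9 h10 h11
  refine ⟨n, r, e1, e2, e3, e4, _, rfl, ?_, ?_, ?_⟩
  · rw [cnt_eq]; exact e5
  · intro k hk
    rw [cnt_eq, cnt_eq]
    have := e6 k hk
    rwa [← pow_mul, show 5 * l * 3 = 15 * l by ring] at this
  · intro k hk
    rw [cnt_eq, cnt_eq, cnt_eq]
    exact e7 k hk

end PPE
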