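import Pool.Agent.H69.PP.SW

/-!
Row PPE_PH (block E of MP_28250c_PP). Growth of `Φ_k`.

Proofs. `θ ≥ 0`, `σ = sinh (θ/2)`, `(exp θ - 1) exp (-θ/2) = 2 σ`.
* `Phi_zero`: `Par 0 = {0}`. `Phi_pos`: `fY_pos` (or `sum_sq`): all terms `≥ 0`, `Φ_k ≥ (1/k!) ∑ (fY)^2 = 1` for `θ ≥ 0` (`Phi_one_le`).
* `Phi_rec`: `(k+1)! Φ_(k+1) = ∑_μ fY μ * (fY μ exp (θ μ 0)) = ∑_κ fY κ ∑_{i add} fY (inc κ i) exp (θ (inc κ i) 0)` (`sum_step`);
  `(inc κ i) 0 = κ 0` for `i ≠ 0`, `κ 0 + 1` for `i = 0`: `= ∑_κ fY κ exp (θ κ 0) [(k+1) fY κ + (exp θ - 1) fY (inc κ 0)]` (`sum_add`).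
* `cc_nonneg` clear. `cc_le_one`: Cauchy-Schwarz (`Finset.sum_mul_le_sqrt_mul_sqrt` or `inner_mul_le_norm_mul_norm`) for
  `w_k κ = exp (θ κ 0/2) fY k κ` and `w_(k+1) (inc κ 0)`; `κ ↦ inc κ 0` is injective from `Par k` into `Par (k+1)`, so
  `∑_κ w_(k+1) (inc κ 0)^2 ≤ (k+1)! Φ_(k+1)`.
* `Phi_step`: insert the definition of `cc` in `Phi_rec`: `(exp θ - 1)/(k+1)! * exp (-θ/2) cc √(k! Φ_k) √((k+1)! Φ_(k+1))`
  and `√(k! (k+1)!)/(k+1)! = 1/√(k+1)`.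
* `log_step`: `ρ = √(Φ_(k+1)/Φ_k) ≥ 1`, `ρ - 1/ρ = 2 σ cc/√(k+1)`, and `2 log ρ ≤ ρ - 1/ρ` for `ρ ≥ 1` (derivative, or
  `Real.log_le_sub_one_of_pos` is NOT enough; use monotonicity of `ρ - 1/ρ - 2 log ρ`: derivative `(1 - 1/ρ)^2 ≥ 0`;
  or `log ρ = t`: `2 t ≤ exp t - exp (-t) = 2 sinh t` for `t ≥ 0`: `Real.self_le_sinh_iff`).
* `log_Phi_le`: sum of `log_step`, `cc ≤ 1`, `∑_{j<k} 1/√(j+1) ≤ 2 √k`.
* `sum_defect`: `log Φ_N = ∑ (log Φ_(k+1) - log Φ_k) ≤ ∑ 2 σ cc/√(k+1) = ∑ 2 σ/√(k+1) - ∑ 2 σ (1 - cc)/√(k+1)`.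
-/

set_option autoImplicit false

namespace PPE
open Finset

private theorem PH_num (θ : ℝ) (k : ℕ) :
    (k.factorial : ℝ) * Phi θ k = ∑ κ ∈ Par k, (fY k κ : ℝ) ^ 2 * Real.exp (θ * κ 0) := by
  have h : (k.factorial : ℝ) ≠ 0 := Nat.cast_ne_zero.2 (Nat.factorial_ne_zero k)
  unfold Phi
  rw [mul_div_assoc', mul_comm, mul_div_assoc, div_self h, mul_one]

theorem Phi_zero (θ : ℝ) : Phi θ 0 = 1 := by
  unfold Phi
  rw [Par_zero, sum_singleton]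
  show ((1 : ℕ) : ℝ) ^ 2 * Real.exp (θ * ((0 : ℕ) : ℝ)) / ((Nat.factorial 0 : ℕ) : ℝ) = 1
  rw [Nat.factorial_zero, Nat.cast_one, Nat.cast_zero, mul_zero, Real.exp_zero]
  norm_num

theorem Phi_one_le {θ : ℝ} (hθ : 0 ≤ θ) (k : ℕ) : 1 ≤ Phi θ k := by
  have h : (0 : ℝ) < (k.factorial : ℝ) := Nat.cast_pos.2 (Nat.factorial_pos k)
  unfold Phi
  rw [le_div_iff₀ h, one_mul, ← sum_sq k]
  refine sum_le_sum fun κ _ => ?_
  have h1 : (1 : ℝ) ≤ Real.exp (θ * κ 0) := Real.one_le_exp (mul_nonneg hθ (Nat.cast_nonneg _))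
  have h2 : (0 : ℝ) ≤ (fY k κ : ℝ) ^ 2 := sq_nonneg _
  nlinarith

theorem Phi_rec (θ : ℝ) (k : ℕ) :
    ((k + 1).factorial : ℝ) * Phi θ (k + 1) = (k + 1).factorial * Phi θ k +
      (Real.exp θ - 1) * ∑ κ ∈ Par k, Real.exp (θ * κ 0) * fY k κ * fY (k + 1) (inc κ 0) := by
  have h1 : ∑ μ ∈ Par (k + 1), (fY (k + 1) μ : ℝ) ^ 2 * Real.exp (θ * μ 0) =
      ∑ μ ∈ Par (k + 1), (fY (k + 1) μ : ℝ) * ((fY (k + 1) μ : ℝ) * Real.exp (θ * μ 0)) :=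
    sum_congr rfl fun μ _ => by ring
  have h2 : ((k + 1).factorial : ℝ) * Phi θ k =
      ∑ κ ∈ Par k, ((k : ℝ) + 1) * ((fY k κ : ℝ) ^ 2 * Real.exp (θ * κ 0)) := by
    rw [Nat.factorial_succ, Nat.cast_mul, mul_assoc, PH_num, mul_sum]
    push_cast
    rfl
  rw [PH_num, h1, sum_step k (fun μ => (fY (k + 1) μ : ℝ) * Real.exp (θ * μ 0)), h2, mul_sum, ← sum_add_distrib]
  refine sum_congr rfl fun κ hκ => ?_
  have h3 : ∀ i ∈ addS k κ, (fY (k + 1) (inc κ i) : ℝ) * Real.exp (θ * (inc κ i 0 : ℕ)) =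
      (fY (k + 1) (inc κ i) : ℝ) * Real.exp (θ * κ 0) +
        (if i = 0 then (Real.exp θ - 1) * (Real.exp (θ * κ 0) * fY (k + 1) (inc κ 0)) else 0) := by
    intro i _
    by_cases hi : i = 0
    · subst hi
      have e : inc κ 0 0 = κ 0 + 1 := Function.update_self _ _ _
      rw [if_pos rfl, e, Nat.cast_add, Nat.cast_one, mul_add, mul_one, Real.exp_add]
      ring
    · have e : inc κ i 0 = κ 0 := Function.update_of_ne (Ne.symm hi) _ _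
      rw [if_neg hi, e, add_zero]
  rw [sum_congr rfl h3, sum_add_distrib, ← sum_mul, sum_add hκ, sum_ite_eq' (addS k κ) 0, if_pos (zero_mem_addS k κ)]
  ring

private theorem PH_S_nonneg (θ : ℝ) (k : ℕ) :
    0 ≤ ∑ κ ∈ Par k, Real.exp (θ * κ 0) * fY k κ * fY (k + 1) (inc κ 0) :=
  sum_nonneg fun _ _ => mul_nonneg (mul_nonneg (Real.exp_nonneg _) (Nat.cast_nonneg _)) (Nat.cast_nonneg _)

theorem cc_nonneg (θ : ℝ) (k : ℕ) : 0 ≤ cc θ k := by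
  unfold cc
  exact div_nonneg (mul_nonneg (Real.exp_nonneg _) (PH_S_nonneg θ k)) (mul_nonneg (Real.sqrt_nonneg _) (Real.sqrt_nonneg _))

private theorem PH_pos {θ : ℝ} (hθ : 0 ≤ θ) (k : ℕ) : 0 < Phi θ k := lt_of_lt_of_le one_pos (Phi_one_le hθ k)

private theorem PH_fpos (k : ℕ) : (0 : ℝ) < (k.factorial : ℝ) := Nat.cast_pos.2 (Nat.factorial_pos k)

theorem cc_le_one {θ : ℝ} (hθ : 0 ≤ θ) (k : ℕ) : cc θ k ≤ 1 := by
  classical
  have hd : 0 < Real.sqrt (k.factorial * Phi θ k) * Real.sqrt ((k + 1).factorial * Phi θ (k + 1)) :=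
    mul_pos (Real.sqrt_pos.2 (mul_pos (PH_fpos k) (PH_pos hθ k)))
      (Real.sqrt_pos.2 (mul_pos (PH_fpos (k + 1)) (PH_pos hθ (k + 1))))
  unfold cc
  rw [div_le_one hd]
  have h1 : Real.exp (θ / 2) * ∑ κ ∈ Par k, Real.exp (θ * κ 0) * fY k κ * fY (k + 1) (inc κ 0) =
      ∑ κ ∈ Par k, (Real.exp (θ * κ 0 / 2) * fY k κ) * (Real.exp (θ * ((κ 0 : ℝ) + 1) / 2) * fY (k + 1) (inc κ 0)) := by
    rw [mul_sum]
    refine sum_congr rfl fun κ _ => ?_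
    have e1 : Real.exp (θ * κ 0) = Real.exp (θ * κ 0 / 2) * Real.exp (θ * κ 0 / 2) := by
      rw [← Real.exp_add]
      congr 1
      ring
    have e2 : Real.exp (θ * ((κ 0 : ℝ) + 1) / 2) = Real.exp (θ / 2) * Real.exp (θ * κ 0 / 2) := by
      rw [← Real.exp_add]
      congr 1
      ring
    rw [e1, e2]
    ring
  rw [h1]
  refine (Real.sum_mul_le_sqrt_mul_sqrt _ _ _).trans ?_
  refine mul_le_mul ?_ ?_ (Real.sqrt_nonneg _) (Real.sqrt_nonneg _)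
  · refine Real.sqrt_le_sqrt ?_
    rw [PH_num]
    refine le_of_eq (sum_congr rfl fun κ _ => ?_)
    rw [mul_pow, ← Real.exp_nat_mul, mul_comm]
    congr 2
    push_cast
    ring
  · refine Real.sqrt_le_sqrt ?_
    rw [PH_num]
    have h2 : ∑ κ ∈ Par k, (Real.exp (θ * ((κ 0 : ℝ) + 1) / 2) * fY (k + 1) (inc κ 0)) ^ 2 =
        ∑ μ ∈ (Par k).image (fun κ => inc κ 0), (fY (k + 1) μ : ℝ) ^ 2 * Real.exp (θ * μ 0) := by
      rw [sum_image]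
      · refine sum_congr rfl fun κ _ => ?_
        have e : inc κ 0 0 = κ 0 + 1 := Function.update_self _ _ _
        rw [e, mul_pow, ← Real.exp_nat_mul, mul_comm]
        congr 2
        push_cast
        ring
      · intro κ _ μ _ h
        have h3 : inc κ 0 = inc μ 0 := h
        rw [← dec_inc κ 0, h3, dec_inc]
    rw [h2]
    refine sum_le_sum_of_subset_of_nonneg ?_ fun μ _ _ => mul_nonneg (sq_nonneg _) (Real.exp_nonneg _)
    intro μ hμ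
    obtain ⟨κ, hκ, rfl⟩ := mem_image.1 hμ
    exact inc_mem hκ (zero_mem_addS k κ)

private theorem PH_succ {θ : ℝ} (hθ : 0 ≤ θ) (k : ℕ) : Phi θ k ≤ Phi θ (k + 1) := by
  have h1 := Phi_rec θ k
  have h2 : 0 ≤ (Real.exp θ - 1) * ∑ κ ∈ Par k, Real.exp (θ * κ 0) * fY k κ * fY (k + 1) (inc κ 0) :=
    mul_nonneg (sub_nonneg.2 (Real.one_le_exp hθ)) (PH_S_nonneg θ k)
  have h3 : ((k + 1).factorial : ℝ) * Phi θ k ≤ (k + 1).factorial * Phi θ (k + 1) := by linarith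
  exact le_of_mul_le_mul_left h3 (PH_fpos (k + 1))

theorem Phi_mono {θ : ℝ} (hθ : 0 ≤ θ) {j k : ℕ} (h : j ≤ k) : Phi θ j ≤ Phi θ k :=
  monotone_nat_of_le_succ (f := fun k => Phi θ k) (fun k => PH_succ hθ k) h

private theorem PH_diff {θ : ℝ} (hθ : 0 ≤ θ) (k : ℕ) :
    Phi θ (k + 1) - Phi θ k =
      2 * Real.sinh (θ / 2) * cc θ k / Real.sqrt (k + 1) * (Real.sqrt (Phi θ k) * Real.sqrt (Phi θ (k + 1))) := by
  have ha := PH_pos hθ k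
  have hb := PH_pos hθ (k + 1)
  have hf := PH_fpos k
  have hk : (0 : ℝ) < (k : ℝ) + 1 := by positivity
  have hfs : ((k + 1).factorial : ℝ) = ((k : ℝ) + 1) * k.factorial := by
    rw [Nat.factorial_succ]
    push_cast
    rfl
  have h1 := Phi_rec θ k
  have hS : Real.exp (θ / 2) * ∑ κ ∈ Par k, Real.exp (θ * κ 0) * fY k κ * fY (k + 1) (inc κ 0) =
      cc θ k * (Real.sqrt (k.factorial * Phi θ k) * Real.sqrt ((k + 1).factorial * Phi θ (k + 1))) := by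
    unfold cc
    rw [div_mul_cancel₀]
    exact (mul_pos (Real.sqrt_pos.2 (mul_pos hf ha)) (Real.sqrt_pos.2 (mul_pos (PH_fpos (k + 1)) hb))).ne'
  have hexp : Real.exp θ - 1 = 2 * Real.sinh (θ / 2) * Real.exp (θ / 2) := by
    rw [Real.sinh_eq, mul_div_cancel₀ _ (two_ne_zero), sub_mul, ← Real.exp_add, ← Real.exp_add]
    rw [show θ / 2 + θ / 2 = θ by ring, show -(θ / 2) + θ / 2 = 0 by ring, Real.exp_zero]
  rw [hexp, mul_assoc (2 * Real.sinh (θ / 2)) (Real.exp (θ / 2)), hS] at h1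
  rw [Real.sqrt_mul hf.le, Real.sqrt_mul (PH_fpos (k + 1)).le, hfs, Real.sqrt_mul hk.le] at h1
  have hs : Real.sqrt (k.factorial : ℝ) * Real.sqrt (k.factorial : ℝ) = k.factorial := Real.mul_self_sqrt hf.le
  have hsk : Real.sqrt ((k : ℝ) + 1) * Real.sqrt ((k : ℝ) + 1) = (k : ℝ) + 1 := Real.mul_self_sqrt hk.le
  have hskp : 0 < Real.sqrt ((k : ℝ) + 1) := Real.sqrt_pos.2 hk
  have h4 : ((k : ℝ) + 1) * (Phi θ (k + 1) - Phi θ k) =
      2 * Real.sinh (θ / 2) * cc θ k * Real.sqrt ((k : ℝ) + 1) * (Real.sqrt (Phi θ k) * Real.sqrt (Phi θ (k + 1))) := by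
    have h5 : (k.factorial : ℝ) * (((k : ℝ) + 1) * (Phi θ (k + 1) - Phi θ k)) = (k.factorial : ℝ) *
        (2 * Real.sinh (θ / 2) * cc θ k * Real.sqrt ((k : ℝ) + 1) * (Real.sqrt (Phi θ k) * Real.sqrt (Phi θ (k + 1)))) := by
      calc (k.factorial : ℝ) * (((k : ℝ) + 1) * (Phi θ (k + 1) - Phi θ k)) =
          ((k : ℝ) + 1) * k.factorial * Phi θ (k + 1) - ((k : ℝ) + 1) * k.factorial * Phi θ k := by ring
        _ = 2 * Real.sinh (θ / 2) * (cc θ k * (Real.sqrt k.factorial * Real.sqrt (Phi θ k) *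
            (Real.sqrt ((k : ℝ) + 1) * Real.sqrt k.factorial * Real.sqrt (Phi θ (k + 1))))) := by linarith
        _ = (Real.sqrt (k.factorial : ℝ) * Real.sqrt (k.factorial : ℝ)) *
            (2 * Real.sinh (θ / 2) * cc θ k * Real.sqrt ((k : ℝ) + 1) * (Real.sqrt (Phi θ k) * Real.sqrt (Phi θ (k + 1)))) := by ring
        _ = _ := by rw [hs]
    exact mul_left_cancel₀ hf.ne' h5
  have h6 : Phi θ (k + 1) - Phi θ k = 2 * Real.sinh (θ / 2) * cc θ k * Real.sqrt ((k : ℝ) + 1) *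
      (Real.sqrt (Phi θ k) * Real.sqrt (Phi θ (k + 1))) / ((k : ℝ) + 1) := by
    rw [← h4, mul_div_assoc, mul_comm, div_mul_cancel₀ _ hk.ne']
  rw [h6]
  rw [div_mul_eq_mul_div, div_eq_div_iff hk.ne' hskp.ne']
  calc 2 * Real.sinh (θ / 2) * cc θ k * Real.sqrt ((k : ℝ) + 1) * (Real.sqrt (Phi θ k) * Real.sqrt (Phi θ (k + 1))) *
      Real.sqrt ((k : ℝ) + 1) = 2 * Real.sinh (θ / 2) * cc θ k * (Real.sqrt (Phi θ k) * Real.sqrt (Phi θ (k + 1))) *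
      (Real.sqrt ((k : ℝ) + 1) * Real.sqrt ((k : ℝ) + 1)) := by ring
    _ = _ := by rw [hsk]

theorem log_step {θ : ℝ} (hθ : 0 ≤ θ) (k : ℕ) :
    Real.log (Phi θ (k + 1)) - Real.log (Phi θ k) ≤ 2 * Real.sinh (θ / 2) * cc θ k / Real.sqrt (k + 1) := by
  have ha := PH_pos hθ k
  have hb := PH_pos hθ (k + 1)
  have hab := PH_succ hθ k
  have hd := PH_diff hθ k
  have hsa : 0 < Real.sqrt (Phi θ k) := Real.sqrt_pos.2 ha
  have hsb : 0 < Real.sqrt (Phi θ (k + 1)) := Real.sqrt_pos.2 hb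
  have ht : Real.log (Real.sqrt (Phi θ (k + 1)) / Real.sqrt (Phi θ k)) =
      (Real.log (Phi θ (k + 1)) - Real.log (Phi θ k)) / 2 := by
    rw [Real.log_div hsb.ne' hsa.ne', Real.log_sqrt hb.le, Real.log_sqrt ha.le]
    ring
  have ht0 : 0 ≤ Real.log (Real.sqrt (Phi θ (k + 1)) / Real.sqrt (Phi θ k)) :=
    Real.log_nonneg ((one_le_div hsa).2 (Real.sqrt_le_sqrt hab))
  have h1 := Real.self_le_sinh_iff.2 ht0
  rw [Real.sinh_eq, Real.exp_neg, Real.exp_log (div_pos hsb hsa), inv_div] at h1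
  have h2 : Real.sqrt (Phi θ (k + 1)) / Real.sqrt (Phi θ k) - Real.sqrt (Phi θ k) / Real.sqrt (Phi θ (k + 1)) =
      2 * Real.sinh (θ / 2) * cc θ k / Real.sqrt (k + 1) := by
    rw [div_sub_div _ _ hsa.ne' hsb.ne', Real.mul_self_sqrt hb.le, Real.mul_self_sqrt ha.le, hd,
      mul_div_assoc, div_self (mul_pos hsa hsb).ne', mul_one]
  rw [h2, ht] at h1
  linarith

private theorem PH_sqrt (k : ℕ) : 1 / Real.sqrt ((k : ℝ) + 1) ≤ 2 * (Real.sqrt ((k : ℝ) + 1) - Real.sqrt k) := by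
  have hk : (0 : ℝ) ≤ (k : ℝ) := Nat.cast_nonneg k
  have h1 : 0 < Real.sqrt ((k : ℝ) + 1) := Real.sqrt_pos.2 (by linarith)
  have h2 : 0 ≤ Real.sqrt (k : ℝ) := Real.sqrt_nonneg _
  have h3 : Real.sqrt (k : ℝ) ≤ Real.sqrt ((k : ℝ) + 1) := Real.sqrt_le_sqrt (by linarith)
  have h4 : Real.sqrt ((k : ℝ) + 1) * Real.sqrt ((k : ℝ) + 1) = (k : ℝ) + 1 := Real.mul_self_sqrt (by linarith)
  have h5 : Real.sqrt (k : ℝ) * Real.sqrt (k : ℝ) = (k : ℝ) := Real.mul_self_sqrt hk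
  rw [div_le_iff₀ h1]
  nlinarith [sq_nonneg (Real.sqrt ((k : ℝ) + 1) - Real.sqrt (k : ℝ))]

private theorem PH_sinh {θ : ℝ} (hθ : 0 ≤ θ) : 0 ≤ Real.sinh (θ / 2) := Real.sinh_nonneg_iff.2 (by linarith)

private theorem PH_step {θ : ℝ} (hθ : 0 ≤ θ) (k : ℕ) :
    4 * Real.sinh (θ / 2) * Real.sqrt (k : ℝ) + 2 * Real.sinh (θ / 2) / Real.sqrt ((k : ℝ) + 1) ≤
      4 * Real.sinh (θ / 2) * Real.sqrt ((k : ℝ) + 1) := by
  have h1 := PH_sqrt k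
  have h2 := mul_le_mul_of_nonneg_left h1 (PH_sinh hθ)
  have h3 : 2 * Real.sinh (θ / 2) / Real.sqrt ((k : ℝ) + 1) = 2 * (Real.sinh (θ / 2) * (1 / Real.sqrt ((k : ℝ) + 1))) := by
    ring
  rw [h3]
  linarith

theorem log_Phi_le {θ : ℝ} (hθ : 0 ≤ θ) (k : ℕ) : Real.log (Phi θ k) ≤ 4 * Real.sinh (θ / 2) * Real.sqrt k := by
  induction k with
  | zero =>
    rw [Phi_zero, Real.log_one, Nat.cast_zero, Real.sqrt_zero, mul_zero]
  | succ k ih =>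
    have h1 := log_step hθ k
    have h2 := PH_step hθ k
    have h3 : 0 < Real.sqrt ((k : ℝ) + 1) := Real.sqrt_pos.2 (by positivity)
    have h4 : 2 * Real.sinh (θ / 2) * cc θ k / Real.sqrt ((k : ℝ) + 1) ≤ 2 * Real.sinh (θ / 2) / Real.sqrt ((k : ℝ) + 1) := by
      refine div_le_div_of_nonneg_right ?_ h3.le
      have h5 := mul_le_mul_of_nonneg_left (cc_le_one hθ k) (mul_nonneg zero_le_two (PH_sinh hθ))
      rwa [mul_one] at h5
    push_cast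
    linarith

theorem sum_defect {θ : ℝ} (hθ : 0 ≤ θ) (N : ℕ) :
    ∑ k ∈ range N, 2 * Real.sinh (θ / 2) * (1 - cc θ k) / Real.sqrt (k + 1) ≤
      4 * Real.sinh (θ / 2) * Real.sqrt N - Real.log (Phi θ N) := by
  induction N with
  | zero =>
    rw [range_zero, sum_empty, Phi_zero, Real.log_one, Nat.cast_zero, Real.sqrt_zero, mul_zero, sub_zero]
  | succ N ih =>
    rw [sum_range_succ]
    have h1 := log_step hθ N
    have h2 := PH_step hθ N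
    have h3 : 2 * Real.sinh (θ / 2) * (1 - cc θ N) / Real.sqrt ((N : ℝ) + 1) =
        2 * Real.sinh (θ / 2) / Real.sqrt ((N : ℝ) + 1) - 2 * Real.sinh (θ / 2) * cc θ N / Real.sqrt ((N : ℝ) + 1) := by
      rw [← sub_div]
      congr 1
      ring
    rw [h3]
    push_cast
    linarith

end PPE
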