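import Pool.Agent.H69.PP.LA

/-!
Row PPE_SW (block E of MP_28250c_PP). The swap of adding and removing a box, and its consequences.

Proofs.
* `swap_iff`: for `κ ∈ Par (k+1)` and `i ≠ j`: (`i ∈ addS (k+1) κ` and `j ∈ remS (k+2) (inc κ i)`) iff
  (`j ∈ remS (k+1) κ` and `i ∈ addS k (dec κ j)`). Unfold; values: `(inc κ i) j = κ j`, `(inc κ i) (j+1) = κ (j+1)` unless
  `j + 1 = i`, then it is `κ i + 1`; `(dec κ j) i = κ i`, `(dec κ j) (i-1) = κ (i-1)` unless `i - 1 = j`, `i ≥ 1`, then it is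
  `κ j - 1`. Case `i = j + 1`: both sides say `κ i + 1 < κ j` (range conditions: a removable `j` has `κ j ≥ 1`, `κ` has at most
  `k+1` nonzero rows; an addable row `i ≥ 1` has `κ (i-1) ≥ 1`, so `i - 1 ≤ k`; for `i = k + 1` addable to `κ ∈ Par (k+1)` one has
  `κ k ≥ 1`, so `κ` is one column (all rows `1`), and then only `j = k` is removable, which becomes non-removable after adding at
  `i = k+1`; so with `i ≠ j` both sides fail.)
* `swap`: `inc (dec κ j) i = dec (inc κ i) j` for `i ≠ j`; on the left split off `j = i` (`rem_inc`, `dec_inc`), on the right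
  split off `i = j` (`add_dec`, `inc_dec`).
* `card_add`: a row `i ≥ 1` is addable iff row `i - 1` is removable (`κ i < κ (i-1)`), and `0` is addable: bijection
  `addS k κ \ {0} → remS k κ`, `i ↦ i - 1` (range: `i ≤ k` iff `i - 1 < k`).
* `sum_add`: induction on `k`. `k = 0`: `addS 0 0 = {0}`, `fY 1 _ = fY 0 _ = 1`. Step `κ ∈ Par (k+1)`:
  `∑_{i add} fY (k+2) (inc κ i) = ∑_i ∑_{j rem} fY (k+1) (dec (inc κ i) j)`, by `swap` with `G i j ρ = fY (k+1) ρ` this is
  `(#add - #rem) fY (k+1) κ + ∑_{j rem κ} ∑_{i add (dec κ j)} fY (k+1) (inc (dec κ j) i) = fY (k+1) κ + (k+1) ∑_j fY k (dec κ j)`.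
* `sum_step`: `fY (k+1) μ = ∑_{i rem} fY k (dec μ i)`, `exch` with `F κ i = fY k κ * g (inc κ i)`, `inc (dec μ i) i = μ`.
* `sum_sq`: induction, `sum_step` with `g μ = fY (k+1) μ` and `sum_add`.
* `fY_pos`: induction; a partition of `k + 1` has a removable row (the last nonzero row).
-/

set_option autoImplicit false

namespace PPE
open Finset

private theorem SW_one {k : ℕ} {κ : ℕ → ℕ} (hκ : κ ∈ Par (k + 1)) (hk : 0 < κ k) {j : ℕ} (hj : j ≤ k) : κ j = 1 := by
  obtain ⟨h1, _, h3⟩ := mem_Par.1 hκ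
  have hge : ∀ i ∈ range (k + 1), 1 ≤ κ i := fun i hi => by
    have : κ k ≤ κ i := h1 (Nat.lt_succ_iff.1 (mem_range.1 hi))
    omega
  have hj1 : 1 ≤ κ j := hge j (mem_range.2 (by omega))
  by_contra hne
  have hlt : ∑ _i ∈ range (k + 1), 1 < ∑ i ∈ range (k + 1), κ i :=
    sum_lt_sum hge ⟨j, mem_range.2 (by omega), by omega⟩
  rw [h3, sum_const, card_range, smul_eq_mul, mul_one] at hlt
  exact lt_irrefl _ hlt

private theorem SW_iff {k : ℕ} {κ : ℕ → ℕ} (hκ : κ ∈ Par (k + 1)) {i j : ℕ} (hij : i ≠ j) :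
    i ∈ addS (k + 1) κ ∧ j ∈ remS (k + 2) (inc κ i) ↔ i ∈ addS k (dec κ j) ∧ j ∈ remS (k + 1) κ := by
  obtain ⟨h1, h2, _⟩ := mem_Par.1 hκ
  unfold addS remS
  rw [mem_filter, mem_filter, mem_filter, mem_filter, mem_range, mem_range, mem_range, mem_range]
  have e1 : inc κ i j = κ j := Function.update_of_ne hij.symm _ _
  have e2 : dec κ j i = κ i := Function.update_of_ne hij _ _
  rw [e1, e2]
  by_cases hc : i = j + 1
  · subst hc
    have e3 : inc κ (j + 1) (j + 1) = κ (j + 1) + 1 := Function.update_self _ _ _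
    have e4 : dec κ j (j + 1 - 1) = κ j - 1 := by
      rw [Nat.add_sub_cancel]
      exact Function.update_self _ _ _
    rw [e3, e4, Nat.add_sub_cancel]
    constructor
    · rintro ⟨⟨a1, a2⟩, a3, a4⟩
      have hjk : j < k + 1 := by omega
      have hjk' : j + 1 < k + 1 := by
        by_contra hcon
        have hjk2 : j = k := by omega
        subst hjk2
        have := SW_one hκ (by omega) (le_refl j)
        omega
      exact ⟨⟨hjk', Or.inr (by omega)⟩, hjk, by omega⟩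
    · rintro ⟨⟨a1, a2⟩, a3, a4⟩
      have a5 : κ (j + 1) < κ j - 1 := by
        rcases a2 with a2 | a2
        · omega
        · exact a2
      exact ⟨⟨by omega, Or.inr a4⟩, by omega, by omega⟩
  · have e3 : inc κ i (j + 1) = κ (j + 1) := Function.update_of_ne (Ne.symm hc) _ _
    rw [e3]
    have e4 : (i = 0 ∨ κ i < dec κ j (i - 1)) ↔ (i = 0 ∨ κ i < κ (i - 1)) := by
      by_cases hi : i = 0
      · exact ⟨fun _ => Or.inl hi, fun _ => Or.inl hi⟩
      · have e5 : dec κ j (i - 1) = κ (i - 1) := Function.update_of_ne (by omega) _ _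
        rw [e5]
    rw [e4]
    constructor
    · rintro ⟨⟨a1, a2⟩, a3, a4⟩
      have hjk : j < k + 1 := by
        by_contra hcon
        have := h2 j (by omega)
        omega
      have hik : i < k + 1 := by
        by_contra hcon
        have hik2 : i = k + 1 := by omega
        subst hik2
        have a5 : κ (k + 1) < κ k := by
          rcases a2 with a2 | a2
          · omega
          · rwa [Nat.add_sub_cancel] at a2
        have a6 : 0 < κ k := by omega
        have a7 := SW_one hκ a6 (j := j) (by omega)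
        have a8 : j + 1 ≤ k := by omega
        have a9 := SW_one hκ a6 (j := j + 1) a8
        omega
      exact ⟨⟨hik, a2⟩, hjk, a4⟩
    · rintro ⟨⟨a1, a2⟩, a3, a4⟩
      exact ⟨⟨by omega, a2⟩, by omega, a4⟩

private theorem SW_pos {k : ℕ} {κ : ℕ → ℕ} {j : ℕ} (hj : j ∈ remS k κ) : 0 < κ j := by
  have := (mem_filter.1 hj).2
  omega

private theorem SW_comm (κ : ℕ → ℕ) {i j : ℕ} (hij : i ≠ j) : dec (inc κ i) j = inc (dec κ j) i := by
  have e1 : inc κ i j = κ j := Function.update_of_ne hij.symm _ _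
  have e2 : dec κ j i = κ i := Function.update_of_ne hij _ _
  show Function.update (inc κ i) j (inc κ i j - 1) = Function.update (dec κ j) i (dec κ j i + 1)
  rw [e1, e2]
  show Function.update (Function.update κ i (κ i + 1)) j (κ j - 1) = Function.update (Function.update κ j (κ j - 1)) i (κ i + 1)
  exact Function.update_comm hij _ _ _

theorem swap {k : ℕ} {κ : ℕ → ℕ} (hκ : κ ∈ Par (k + 1)) (G : ℕ → ℕ → (ℕ → ℕ) → ℝ) :
    ∑ i ∈ addS (k + 1) κ, ∑ j ∈ remS (k + 2) (inc κ i), G i j (dec (inc κ i) j) + ∑ j ∈ remS (k + 1) κ, G j j κ =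
      ∑ i ∈ addS (k + 1) κ, G i i κ + ∑ j ∈ remS (k + 1) κ, ∑ i ∈ addS k (dec κ j), G i j (inc (dec κ j) i) := by
  have hL : ∀ i ∈ addS (k + 1) κ, ∑ j ∈ remS (k + 2) (inc κ i), G i j (dec (inc κ i) j) =
      G i i κ + ∑ j ∈ (remS (k + 2) (inc κ i)).erase i, G i j (dec (inc κ i) j) := by
    intro i hi
    rw [← add_sum_erase _ _ (rem_inc hκ hi), dec_inc]
  have hR : ∀ j ∈ remS (k + 1) κ, ∑ i ∈ addS k (dec κ j), G i j (inc (dec κ j) i) =
      G j j κ + ∑ i ∈ (addS k (dec κ j)).erase j, G i j (inc (dec κ j) i) := by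
    intro j hj
    rw [← add_sum_erase _ _ (add_dec hκ hj), inc_dec (SW_pos hj)]
  rw [sum_congr rfl hL, sum_congr rfl hR, sum_add_distrib, sum_add_distrib]
  have hC : ∑ i ∈ addS (k + 1) κ, ∑ j ∈ (remS (k + 2) (inc κ i)).erase i, G i j (dec (inc κ i) j) =
      ∑ j ∈ remS (k + 1) κ, ∑ i ∈ (addS k (dec κ j)).erase j, G i j (inc (dec κ j) i) := by
    rw [sum_comm' (s' := fun j => (addS k (dec κ j)).erase j) (t' := remS (k + 1) κ) (fun i j => by
      rw [mem_erase, mem_erase]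
      constructor
      · rintro ⟨a1, a2, a3⟩
        obtain ⟨b1, b2⟩ := (SW_iff hκ (Ne.symm a2)).1 ⟨a1, a3⟩
        exact ⟨⟨Ne.symm a2, b1⟩, b2⟩
      · rintro ⟨⟨a1, a2⟩, a3⟩
        obtain ⟨b1, b2⟩ := (SW_iff hκ a1).2 ⟨a2, a3⟩
        exact ⟨b1, Ne.symm a1, b2⟩)]
    refine sum_congr rfl fun j _ => sum_congr rfl fun i hi => ?_
    rw [SW_comm κ (mem_erase.1 hi).1]
  rw [hC]
  ring

theorem card_add {k : ℕ} {κ : ℕ → ℕ} (hκ : κ ∈ Par k) : (addS k κ).card = (remS k κ).card + 1 := by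
  have h : addS k κ = insert 0 ((remS k κ).image (fun j => j + 1)) := by
    ext i
    unfold addS remS
    rw [mem_filter, mem_range, mem_insert, mem_image]
    constructor
    · rintro ⟨a1, a2⟩
      rcases Nat.eq_zero_or_pos i with hi | hi
      · exact Or.inl hi
      · right
        refine ⟨i - 1, mem_filter.2 ⟨mem_range.2 (by omega), ?_⟩, by omega⟩
        rw [Nat.sub_add_cancel hi]
        rcases a2 with a2 | a2
        · omega
        · exact a2
    · rintro (a1 | ⟨j, hj, rfl⟩)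
      · subst a1
        exact ⟨by omega, Or.inl rfl⟩
      · obtain ⟨b1, b2⟩ := mem_filter.1 hj
        rw [mem_range] at b1
        refine ⟨by omega, Or.inr ?_⟩
        rw [Nat.add_sub_cancel]
        exact b2
  rw [h, card_insert_of_notMem, card_image_of_injective _ (fun a b hab => by
    have : a + 1 = b + 1 := hab
    omega)]
  intro h0
  obtain ⟨j, _, hj⟩ := mem_image.1 h0
  omega

theorem sum_add {k : ℕ} {κ : ℕ → ℕ} (hκ : κ ∈ Par k) :
    ∑ i ∈ addS k κ, (fY (k + 1) (inc κ i) : ℝ) = (k + 1) * fY k κ := by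
  induction k generalizing κ with
  | zero =>
    rw [Par_zero, mem_singleton] at hκ
    subst hκ
    have h1 : addS 0 (fun _ => 0) = {0} := by
      ext i
      unfold addS
      rw [mem_filter, mem_range, mem_singleton]
      constructor
      · rintro ⟨a, _⟩
        omega
      · intro a
        exact ⟨by omega, Or.inl a⟩
    have h2 : remS 1 (inc (fun _ => 0) 0) = {0} := by
      ext i
      unfold remS
      rw [mem_filter, mem_range, mem_singleton]
      constructor
      · rintro ⟨a, _⟩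
        omega
      · intro a
        subst a
        refine ⟨by omega, ?_⟩
        show Function.update (fun _ => 0) 0 (0 + 1) (0 + 1) < Function.update (fun _ => 0) 0 (0 + 1) 0
        rw [Function.update_self, Function.update_of_ne (by omega)]
        omega
    rw [h1, sum_singleton]
    have h3 : fY (0 + 1) (inc (fun _ => 0) 0) = 1 := by
      show ∑ i ∈ remS 1 (inc (fun _ => 0) 0), fY 0 (dec (inc (fun _ => 0) 0) i) = 1
      rw [h2, sum_singleton]
      rfl
    rw [h3]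
    show ((1 : ℕ) : ℝ) = ((0 : ℕ) + 1) * ((1 : ℕ) : ℝ)
    push_cast
    ring
  | succ k ih =>
    have hs := swap hκ (fun _ _ ρ => (fY (k + 1) ρ : ℝ))
    have h1 : ∑ i ∈ addS (k + 1) κ, (fY (k + 1 + 1) (inc κ i) : ℝ) =
        ∑ i ∈ addS (k + 1) κ, ∑ j ∈ remS (k + 2) (inc κ i), (fY (k + 1) (dec (inc κ i) j) : ℝ) := by
      refine sum_congr rfl fun i _ => ?_
      show ((∑ j ∈ remS (k + 2) (inc κ i), fY (k + 1) (dec (inc κ i) j) : ℕ) : ℝ) = _
      rw [Nat.cast_sum]
    have h2 : ∑ j ∈ remS (k + 1) κ, ∑ i ∈ addS k (dec κ j), (fY (k + 1) (inc (dec κ j) i) : ℝ) =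
        (k + 1) * fY (k + 1) κ := by
      have h3 : (fY (k + 1) κ : ℝ) = ∑ j ∈ remS (k + 1) κ, (fY k (dec κ j) : ℝ) := by
        show ((∑ j ∈ remS (k + 1) κ, fY k (dec κ j) : ℕ) : ℝ) = _
        rw [Nat.cast_sum]
      rw [h3, mul_sum]
      exact sum_congr rfl fun j hj => ih (dec_mem hκ hj)
    have h4 : ∑ _i ∈ addS (k + 1) κ, (fY (k + 1) κ : ℝ) = ((remS (k + 1) κ).card + 1) * fY (k + 1) κ := by
      rw [sum_const, nsmul_eq_mul, card_add hκ]
      push_cast
      ring
    have h5 : ∑ _j ∈ remS (k + 1) κ, (fY (k + 1) κ : ℝ) = (remS (k + 1) κ).card * fY (k + 1) κ := by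
      rw [sum_const, nsmul_eq_mul]
    rw [h1]
    rw [h2, h4, h5] at hs
    push_cast
    linarith

theorem sum_step (k : ℕ) (g : (ℕ → ℕ) → ℝ) :
    ∑ μ ∈ Par (k + 1), (fY (k + 1) μ : ℝ) * g μ = ∑ κ ∈ Par k, (fY k κ : ℝ) * ∑ i ∈ addS k κ, g (inc κ i) := by
  have h1 : ∑ κ ∈ Par k, (fY k κ : ℝ) * ∑ i ∈ addS k κ, g (inc κ i) =
      ∑ κ ∈ Par k, ∑ i ∈ addS k κ, (fY k κ : ℝ) * g (inc κ i) :=
    sum_congr rfl fun κ _ => mul_sum _ _ _
  rw [h1, exch k (fun κ i => (fY k κ : ℝ) * g (inc κ i))]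
  refine sum_congr rfl fun μ _ => ?_
  have h2 : (fY (k + 1) μ : ℝ) = ∑ i ∈ remS (k + 1) μ, (fY k (dec μ i) : ℝ) := by
    show ((∑ i ∈ remS (k + 1) μ, fY k (dec μ i) : ℕ) : ℝ) = _
    rw [Nat.cast_sum]
  rw [h2, sum_mul]
  refine sum_congr rfl fun i hi => ?_
  show (fY k (dec μ i) : ℝ) * g μ = (fY k (dec μ i) : ℝ) * g (inc (dec μ i) i)
  rw [inc_dec (SW_pos hi)]

theorem sum_sq (k : ℕ) : ∑ κ ∈ Par k, (fY k κ : ℝ) ^ 2 = k.factorial := by
  induction k with
  | zero =>
    rw [Par_zero, sum_singleton]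
    show ((1 : ℕ) : ℝ) ^ 2 = ((Nat.factorial 0 : ℕ) : ℝ)
    rw [Nat.factorial_zero, Nat.cast_one, one_pow]
  | succ k ih =>
    have h1 : ∑ μ ∈ Par (k + 1), (fY (k + 1) μ : ℝ) ^ 2 = ∑ μ ∈ Par (k + 1), (fY (k + 1) μ : ℝ) * fY (k + 1) μ :=
      sum_congr rfl fun μ _ => pow_two _
    rw [h1, sum_step k (fun μ => (fY (k + 1) μ : ℝ)), Nat.factorial_succ, Nat.cast_mul, ← ih, mul_sum]
    refine sum_congr rfl fun κ hκ => ?_
    rw [sum_add hκ]
    push_cast
    ring

theorem fY_pos {k : ℕ} {κ : ℕ → ℕ} (hκ : κ ∈ Par k) : 0 < fY k κ := by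
  induction k generalizing κ with
  | zero => exact Nat.one_pos
  | succ k ih =>
    obtain ⟨h1, h2, h3⟩ := mem_Par.1 hκ
    have hne : ((range (k + 1)).filter fun i => 0 < κ i).Nonempty := by
      by_contra hcon
      rw [not_nonempty_iff_eq_empty] at hcon
      have h4 : ∑ i ∈ range (k + 1), κ i = 0 := by
        refine sum_eq_zero fun i hi => ?_
        by_contra hi0
        have : i ∈ (range (k + 1)).filter fun i => 0 < κ i := mem_filter.2 ⟨hi, Nat.pos_of_ne_zero hi0⟩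
        rw [hcon] at this
        exact notMem_empty i this
      omega
    obtain ⟨i, hi, hmax⟩ := exists_max_image _ (fun i => i) hne
    obtain ⟨hi1, hi2⟩ := mem_filter.1 hi
    rw [mem_range] at hi1
    have h5 : κ (i + 1) = 0 := by
      by_contra hcon
      by_cases hlt : i + 1 < k + 1
      · have := hmax (i + 1) (mem_filter.2 ⟨mem_range.2 hlt, Nat.pos_of_ne_zero hcon⟩)
        omega
      · exact hcon (h2 (i + 1) (by omega))
    have hr : i ∈ remS (k + 1) κ := mem_filter.2 ⟨mem_range.2 hi1, by rw [h5]; exact hi2⟩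
    show 0 < ∑ j ∈ remS (k + 1) κ, fY k (dec κ j)
    exact sum_pos (fun j hj => ih (dec_mem hκ hj)) ⟨i, hr⟩

end PPE
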