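import Pool.Agent.H69.PP.SW

/-!
Row PPE_TW (block E of MP_28250c_PP). The recursion for `T_κ` and the identity for `W_κ`.

Proofs.
* `TT_succ`: `swap` with `G i j ρ = exp (θ (κ i - i)) * fY (k+1) ρ` (the weight uses the ORIGINAL `κ`). Left: `TT θ (k+1) κ`
  (as `fY (k+2) (inc κ i) = ∑_{j rem} fY (k+1) (dec (inc κ i) j)`) plus `∑_{j rem} exp (θ (κ j - j)) fY (k+1) κ`. Right: second
  double sum; its terms agree with those of `∑_j TT θ k (dec κ j)` except for `i = j`, where `(dec κ j) j = κ j - 1` (as `κ j ≥ 1`)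
  and `inc (dec κ j) j = κ`: the difference is `∑_{j rem} (exp (θ (κ j - j)) - exp (θ (κ j - 1 - j))) fY (k+1) κ`.
* `WW_eq`: `(exp θ + exp (-θ) - 2) = (exp θ - 1) (1 - exp (-θ))`; the row sum is geometric:
  `(exp θ - 1) ∑_{c < κ i} exp (θ (c - i)) = exp (θ (κ i - i)) - exp (-θ i)`. So
  `β * BB = ∑_{i<k} [exp (θ (κ i - i)) - exp (θ (κ i - i - 1)) - exp (-θ i) + exp (-θ (i+1))]
          = ∑_{i<k} [exp (θ (κ i - i)) - exp (θ (κ i - 1 - i))] - 1 + exp (-θ k)`, and `exp (-θ k) = exp (θ (κ k - k))` (`κ k = 0`):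
  `1 + β BB = ∑_{i≤k} exp (θ (κ i - i)) - ∑_{i<k} exp (θ (κ i - 1 - i))`. The non-addable rows `i ≥ 1` (`κ i = κ (i-1)`) cancel
  against the non-removable rows `i - 1`: `exp (θ (κ i - i)) = exp (θ (κ (i-1) - 1 - (i-1)))`.
* `BB_inc`: row `i` gets the box `c = κ i`; the new row `k` of `range (k+1)` is empty unless `i = k`.
-/

set_option autoImplicit false

namespace PPE
open Finset

theorem TT_zero (θ : ℝ) : TT θ 0 (fun _ => 0) = 1 := by
  have h1 : addS 0 (fun _ => 0) = {0} := by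
    ext i
    simp [addS]
  have h2 : remS (0 + 1) (inc (fun _ => 0) 0) = {0} := by
    ext i
    simp only [remS, mem_filter, mem_range, mem_singleton, inc]
    constructor
    · rintro ⟨h, -⟩
      omega
    · rintro rfl
      simp
  rw [TT, h1, sum_singleton, fY, h2, sum_singleton, fY, ps]
  simp

theorem TT_succ (θ : ℝ) {k : ℕ} {κ : ℕ → ℕ} (hκ : κ ∈ Par (k + 1)) :
    TT θ (k + 1) κ = fY (k + 1) κ * WW θ (k + 1) κ + ∑ j ∈ remS (k + 1) κ, TT θ k (dec κ j) := by
  have hsw := swap hκ (fun i _ ρ => ps θ κ i * (fY (k + 1) ρ : ℝ))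
  simp only at hsw
  have hL : TT θ (k + 1) κ =
      ∑ i ∈ addS (k + 1) κ, ∑ j ∈ remS (k + 2) (inc κ i), ps θ κ i * (fY (k + 1) (dec (inc κ i) j) : ℝ) := by
    rw [TT]
    refine sum_congr rfl fun i _ => ?_
    rw [← mul_sum]
    congr 1
    rw [show k + 1 + 1 = (k + 1) + 1 from rfl, fY]
    push_cast
    rfl
  have hR : ∀ j ∈ remS (k + 1) κ,
      ∑ i ∈ addS k (dec κ j), ps θ κ i * (fY (k + 1) (inc (dec κ j) i) : ℝ) =
        TT θ k (dec κ j) + (ps θ κ j - Real.exp (θ * ((κ j : ℝ) - 1 - j))) * (fY (k + 1) κ : ℝ) := by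
    intro j hj
    have hpos : 0 < κ j := by
      have := (mem_filter.mp hj).2
      omega
    have hja : j ∈ addS k (dec κ j) := add_dec hκ hj
    rw [TT, ← add_sum_erase _ _ hja, ← add_sum_erase (addS k (dec κ j)) (fun i => ps θ (dec κ j) i * (fY (k + 1) (inc (dec κ j) i) : ℝ)) hja]
    have h1 : ∑ i ∈ (addS k (dec κ j)).erase j, ps θ κ i * (fY (k + 1) (inc (dec κ j) i) : ℝ) =
        ∑ i ∈ (addS k (dec κ j)).erase j, ps θ (dec κ j) i * (fY (k + 1) (inc (dec κ j) i) : ℝ) := by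
      refine sum_congr rfl fun i hi => ?_
      have hij : i ≠ j := ne_of_mem_erase hi
      have : dec κ j i = κ i := by rw [dec, Function.update_of_ne hij]
      rw [ps, ps, this]
    have h2 : ps θ (dec κ j) j = Real.exp (θ * ((κ j : ℝ) - 1 - j)) := by
      have : dec κ j j = κ j - 1 := by rw [dec, Function.update_self]
      rw [ps, this, Nat.cast_sub hpos, Nat.cast_one]
    rw [h1, h2, inc_dec hpos]
    ring
  rw [← hL, sum_congr rfl hR, sum_add_distrib, ← sum_mul, ← sum_mul, ← sum_mul, sum_sub_distrib] at hsw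
  rw [WW]
  linarith

theorem WW_eq (θ : ℝ) {k : ℕ} {κ : ℕ → ℕ} (hκ : κ ∈ Par k) :
    WW θ k κ = 1 + (Real.exp θ + Real.exp (-θ) - 2) * BB θ k κ := by
  have hP := mem_Par.mp hκ
  -- geometric sum of a row
  have hgeo : ∀ (i m : ℕ), (Real.exp θ - 1) * ∑ c ∈ range m, Real.exp (θ * ((c : ℝ) - i)) =
      Real.exp (θ * ((m : ℝ) - i)) - Real.exp (-(θ * i)) := by
    intro i m
    induction m with
    | zero =>
      rw [range_zero, sum_empty, mul_zero, Nat.cast_zero, zero_sub, mul_neg, sub_self]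
    | succ m ih =>
      rw [sum_range_succ, mul_add, ih]
      have : Real.exp (θ * (((m + 1 : ℕ) : ℝ) - i)) = Real.exp θ * Real.exp (θ * ((m : ℝ) - i)) := by
        rw [← Real.exp_add]
        congr 1
        push_cast
        ring
      rw [this]
      ring
  have hrow : ∀ i : ℕ, (Real.exp θ + Real.exp (-θ) - 2) * ∑ c ∈ range (κ i), Real.exp (θ * ((c : ℝ) - i)) =
      (Real.exp (θ * ((κ i : ℝ) - i)) - Real.exp (θ * ((κ i : ℝ) - 1 - i))) +
        (Real.exp (-(θ * ((i + 1 : ℕ) : ℝ))) - Real.exp (-(θ * i))) := by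
    intro i
    have hee : Real.exp θ * Real.exp (-θ) = 1 := by rw [← Real.exp_add, add_neg_cancel, Real.exp_zero]
    have hfac : Real.exp θ + Real.exp (-θ) - 2 = (1 - Real.exp (-θ)) * (Real.exp θ - 1) := by
      linear_combination hee
    rw [hfac, mul_assoc, hgeo]
    have h1 : Real.exp (θ * ((κ i : ℝ) - 1 - i)) = Real.exp (-θ) * Real.exp (θ * ((κ i : ℝ) - i)) := by
      rw [← Real.exp_add]
      congr 1
      ring
    have h2 : Real.exp (-(θ * ((i + 1 : ℕ) : ℝ))) = Real.exp (-θ) * Real.exp (-(θ * i)) := by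
      rw [← Real.exp_add]
      congr 1
      push_cast
      ring
    rw [h1, h2]
    ring
  have hBB : (Real.exp θ + Real.exp (-θ) - 2) * BB θ k κ =
      ∑ i ∈ range k, (Real.exp (θ * ((κ i : ℝ) - i)) - Real.exp (θ * ((κ i : ℝ) - 1 - i))) +
        (Real.exp (-(θ * k)) - 1) := by
    rw [BB, mul_sum, sum_congr rfl fun i _ => hrow i, sum_add_distrib,
      sum_range_sub (fun i : ℕ => Real.exp (-(θ * (i : ℝ))))]
    simp
  have hk : Real.exp (θ * ((κ k : ℝ) - k)) = Real.exp (-(θ * k)) := by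
    rw [hP.2.1 k le_rfl, Nat.cast_zero, zero_sub, mul_neg]
  have hA : ∑ i ∈ range k, Real.exp (θ * ((κ i : ℝ) - i)) + Real.exp (-(θ * k)) =
      Real.exp (θ * ((κ 0 : ℝ) - (0 : ℕ))) + ∑ i ∈ range k, Real.exp (θ * ((κ (i + 1) : ℝ) - ((i + 1 : ℕ) : ℝ))) := by
    rw [← hk, ← sum_range_succ (fun i : ℕ => Real.exp (θ * ((κ i : ℝ) - i))), sum_range_succ', add_comm]
  have hadd : ∑ i ∈ addS k κ, ps θ κ i = Real.exp (θ * ((κ 0 : ℝ) - (0 : ℕ))) +
      ∑ i ∈ range k, if κ (i + 1) < κ i then Real.exp (θ * ((κ (i + 1) : ℝ) - ((i + 1 : ℕ) : ℝ))) else 0 := by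
    rw [addS, sum_filter, sum_range_succ', add_comm]
    refine congrArg₂ (· + ·) ?_ ?_
    · simp [ps]
    · refine sum_congr rfl fun i _ => ?_
      have : (i + 1 = 0 ∨ κ (i + 1) < κ (i + 1 - 1)) ↔ κ (i + 1) < κ i := by
        rw [Nat.add_sub_cancel]
        constructor
        · rintro (h | h)
          · omega
          · exact h
        · exact Or.inr
      simp only [this, ps]
  have hrem : ∑ i ∈ remS k κ, Real.exp (θ * ((κ i : ℝ) - 1 - i)) =
      ∑ i ∈ range k, if κ (i + 1) < κ i then Real.exp (θ * ((κ i : ℝ) - 1 - i)) else 0 := by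
    rw [remS, sum_filter]
  have hcmp : ∑ i ∈ range k, (if κ (i + 1) < κ i then Real.exp (θ * ((κ (i + 1) : ℝ) - ((i + 1 : ℕ) : ℝ))) else 0) -
      ∑ i ∈ range k, (if κ (i + 1) < κ i then Real.exp (θ * ((κ i : ℝ) - 1 - i)) else 0) =
      ∑ i ∈ range k, Real.exp (θ * ((κ (i + 1) : ℝ) - ((i + 1 : ℕ) : ℝ))) -
        ∑ i ∈ range k, Real.exp (θ * ((κ i : ℝ) - 1 - i)) := by
    rw [← sum_sub_distrib, ← sum_sub_distrib]
    refine sum_congr rfl fun i _ => ?_
    by_cases h : κ (i + 1) < κ i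
    · rw [if_pos h, if_pos h]
    · rw [if_neg h, if_neg h]
      have hle : κ (i + 1) ≤ κ i := hP.1 (Nat.le_succ i)
      have heq : κ (i + 1) = κ i := by omega
      have : Real.exp (θ * ((κ (i + 1) : ℝ) - ((i + 1 : ℕ) : ℝ))) = Real.exp (θ * ((κ i : ℝ) - 1 - i)) := by
        rw [heq]
        congr 2
        push_cast
        ring
      rw [this, sub_self, sub_self]
  rw [hBB, WW, hadd, hrem, sum_sub_distrib]
  linarith

theorem BB_inc (θ : ℝ) {k i : ℕ} {κ : ℕ → ℕ} (hκ : κ ∈ Par k) (hi : i ∈ addS k κ) :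
    BB θ (k + 1) (inc κ i) = BB θ k κ + ps θ κ i := by
  have hP := mem_Par.mp hκ
  have hir : i ∈ range (k + 1) := (mem_filter.mp hi).1
  have h1 : ∀ r ∈ range (k + 1), ∑ c ∈ range (inc κ i r), Real.exp (θ * ((c : ℝ) - r)) =
      ∑ c ∈ range (κ r), Real.exp (θ * ((c : ℝ) - r)) + if r = i then ps θ κ i else 0 := by
    intro r _
    by_cases h : r = i
    · subst h
      have : inc κ r r = κ r + 1 := by rw [inc, Function.update_self]
      rw [if_pos rfl, this, sum_range_succ, ps]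
    · have : inc κ i r = κ r := by rw [inc, Function.update_of_ne h]
      rw [if_neg h, this, add_zero]
  rw [BB, sum_congr rfl h1, sum_add_distrib, sum_ite_eq' (range (k + 1)) i (fun _ => ps θ κ i), if_pos hir, sum_range_succ,
    hP.2.1 k le_rfl, range_zero, sum_empty, add_zero, BB]

end PPE
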